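import Pool.Agent.X91.TW.Dens

/-!
# Negative energy
-/

set_option autoImplicit false

open MeasureTheory Set Filter Topology Metric
open scoped RealInnerProductSpace ContDiff

namespace Pool.Agent.X91.TW

open Pool.Agent.Helper436.TFW (Adm Kin Pot TFe Mass Dir kin_nonneg mass_nonneg tf_nonneg dir_nonneg
  pot_nonneg ae_ne)

lemma kin_smul {φ : E3 → ℝ} (hφ : Adm φ) (s : ℝ) : Kin (fun x => s * φ x) = s ^ 2 * Kin φ := by
  unfold Kin
  rw [← integral_const_mul]
  congr 1
  funext x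
  have h1 : HasFDerivAt φ (fderiv ℝ φ x) x := (hφ.cd.differentiable (by norm_num) x).hasFDerivAt
  have h2 : fderiv ℝ (fun x => s * φ x) x = s • fderiv ℝ φ x := (h1.const_mul s).fderiv
  rw [h2, norm_smul, mul_pow, Real.norm_eq_abs, sq_abs]

lemma smul_adm {φ : E3 → ℝ} (hφ : Adm φ) (s : ℝ) : Adm (fun x => s * φ x) :=
  ⟨contDiff_const.mul hφ.cd, hφ.cs.mul_left⟩

lemma en_smul {k : ℕ} (z : Fin k → ℝ) (R : Fin k → E3) {φ : E3 → ℝ} (hφ : Adm φ) {s : ℝ}
    (hs : 0 < s) (hs1 : s ≤ 1) :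
    En z R (fun x => s * φ x) ≤ s ^ 2 * (Kin φ - ∑ i, z i * Pot (R i) φ) +
      s ^ 3 * (3 / 5 * TFe φ + 1 / 2 * Dir φ) := by
  have h1 := kin_smul hφ s
  have h2 : TFe (fun x => s * φ x) ≤ s ^ 3 * TFe φ := by
    have : TFe (fun x => s * φ x) = s ^ ((10 : ℝ) / 3) * TFe φ := by
      unfold TFe
      rw [← integral_const_mul]
      congr 1
      funext x
      rw [abs_mul, abs_of_pos hs, Real.mul_rpow hs.le (abs_nonneg _)]
    rw [this]
    refine mul_le_mul_of_nonneg_right ?_ tf_nonneg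
    calc s ^ ((10 : ℝ) / 3) ≤ s ^ (3 : ℝ) := Real.rpow_le_rpow_of_exponent_ge hs hs1 (by norm_num)
      _ = s ^ 3 := by norm_cast
  have h3 : ∀ a, Pot a (fun x => s * φ x) = s ^ 2 * Pot a φ := by
    intro a
    unfold Pot
    rw [← integral_const_mul]
    congr 1
    funext x
    ring
  have h4 : Dir (fun x => s * φ x) ≤ s ^ 3 * Dir φ := by
    have : Dir (fun x => s * φ x) = s ^ 4 * Dir φ := by
      unfold Dir
      rw [← integral_const_mul]
      congr 1
      funext x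
      rw [← integral_const_mul]
      congr 1
      funext y
      ring
    rw [this]
    refine mul_le_mul_of_nonneg_right ?_ dir_nonneg
    exact pow_le_pow_of_le_one hs.le hs1 (by norm_num)
  unfold En
  simp only [h3]
  have h5 : ∑ i, z i * (s ^ 2 * Pot (R i) φ) = s ^ 2 * ∑ i, z i * Pot (R i) φ := by
    rw [Finset.mul_sum]
    exact Finset.sum_congr rfl fun i _ => by ring
  rw [h5, h1]
  nlinarith

lemma exists_wide {k : ℕ} (z : Fin k → ℝ) (hz : ∀ i, 0 ≤ z i) (R : Fin k → E3)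
    (hZ : 0 < ∑ i, z i) : ∃ φ : E3 → ℝ, Adm φ ∧ Kin φ < ∑ i, z i * Pot (R i) φ := by
  let w : ContDiffBump (0 : E3) := ⟨1, 2, one_pos, by norm_num⟩
  have hwd : ContDiff ℝ 1 (w : E3 → ℝ) := w.contDiff
  set K1 := ∫ x, ‖fderiv ℝ (w : E3 → ℝ) x‖ ^ 2 with hK1
  have hK10 : 0 ≤ K1 := integral_nonneg fun x => by positivity
  obtain ⟨M, hM⟩ : ∃ M : ℝ, ∀ i, ‖R i‖ ≤ M := by
    refine ⟨∑ i, ‖R i‖, fun i => ?_⟩
    exact Finset.single_le_sum (f := fun i => ‖R i‖) (fun j _ => norm_nonneg _) (Finset.mem_univ i)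
  set Z := ∑ i, z i with hZd
  set L := max (max M 1) (K1 / (2 * Z) + 1) with hL
  have hL1 : 1 ≤ L := (le_max_right _ _).trans (le_max_left _ _)
  have hL0 : 0 < L := by linarith
  have hLM : M ≤ L := (le_max_left _ _).trans (le_max_left _ _)
  have hLK : K1 / (2 * Z) < L := lt_of_lt_of_le (by linarith) (le_max_right _ _)
  set φ : E3 → ℝ := fun x => w (L⁻¹ • x) with hφd
  have hφ : Adm φ := by
    refine ⟨hwd.comp (contDiff_const_smul _), ?_⟩
    refine exists_compact_iff_hasCompactSupport.mp ⟨closedBall 0 (2 * L),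
      isCompact_closedBall _ _, fun x hx => ?_⟩
    rw [mem_closedBall_zero_iff, not_le] at hx
    refine w.zero_of_le_dist ?_
    rw [dist_zero_right, norm_smul, norm_inv, Real.norm_eq_abs, abs_of_pos hL0]
    change 2 ≤ L⁻¹ * ‖x‖
    rw [inv_mul_eq_div, le_div_iff₀ hL0]
    exact hx.le
  refine ⟨φ, hφ, ?_⟩
  have hkin : Kin φ = L * K1 := by
    unfold Kin
    have h1 : ∀ x, ‖fderiv ℝ φ x‖ ^ 2 = L⁻¹ ^ 2 * ‖fderiv ℝ (w : E3 → ℝ) (L⁻¹ • x)‖ ^ 2 := by
      intro x
      have h2 : HasFDerivAt (w : E3 → ℝ) (fderiv ℝ (w : E3 → ℝ) (L⁻¹ • x)) (L⁻¹ • x) :=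
        (hwd.differentiable (by norm_num) _).hasFDerivAt
      have h3 : HasFDerivAt (fun x : E3 => L⁻¹ • x) (L⁻¹ • ContinuousLinearMap.id ℝ E3) x :=
        (hasFDerivAt_id x).const_smul L⁻¹
      have h4 : fderiv ℝ φ x = _ := (h2.comp x h3).fderiv
      rw [h4]
      have h5 : (fderiv ℝ (w : E3 → ℝ) (L⁻¹ • x)).comp (L⁻¹ • ContinuousLinearMap.id ℝ E3) =
          L⁻¹ • fderiv ℝ (w : E3 → ℝ) (L⁻¹ • x) := by
        ext v
        simp
      rw [h5, norm_smul, mul_pow, Real.norm_eq_abs, sq_abs]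
    simp only [h1]
    rw [integral_const_mul,
      Measure.integral_comp_smul volume (fun x => ‖fderiv ℝ (w : E3 → ℝ) x‖ ^ 2) L⁻¹]
    have h2 : Module.finrank ℝ E3 = 3 := by simp
    rw [h2, smul_eq_mul, abs_of_pos (by positivity), ← hK1]
    field_simp
  have hvol : (volume : Measure E3).real (ball 0 L) = 4 / 3 * Real.pi * L ^ 3 := by
    rw [Measure.real, EuclideanSpace.volume_ball_fin_three, ENNReal.toReal_mul,
      ENNReal.toReal_pow, ENNReal.toReal_ofReal hL0.le, ENNReal.toReal_ofReal (by positivity)]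
    ring
  have hpot : ∀ i, 2 / 3 * Real.pi * L ^ 2 ≤ Pot (R i) φ := by
    intro i
    have h1 : ∫ x, (ball (0 : E3) L).indicator (fun _ => 1 / (2 * L)) x = 2 / 3 * Real.pi * L ^ 2 := by
      rw [integral_indicator measurableSet_ball, setIntegral_const, smul_eq_mul, hvol]
      field_simp
      norm_num
    rw [← h1]
    unfold Pot
    refine integral_mono_ae ((integrableOn_const measure_ball_lt_top.ne).integrable_indicator
      measurableSet_ball) (hφ.pot_int (R i)) ?_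
    filter_upwards [ae_ne (R i)] with x hx
    by_cases hxb : x ∈ ball (0 : E3) L
    · rw [indicator_of_mem hxb]
      have hx1 : ‖x‖ < L := mem_ball_zero_iff.mp hxb
      have h2 : φ x = 1 := by
        refine w.one_of_mem_closedBall ?_
        rw [mem_closedBall_zero_iff, norm_smul, norm_inv, Real.norm_eq_abs, abs_of_pos hL0]
        change L⁻¹ * ‖x‖ ≤ 1
        rw [inv_mul_eq_div, div_le_one hL0]
        exact hx1.le
      rw [h2]
      have h3 : 0 < ‖x - R i‖ := norm_pos_iff.mpr (sub_ne_zero.mpr hx)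
      have h4 : ‖x - R i‖ ≤ 2 * L := (norm_sub_le _ _).trans (by linarith [hM i])
      rw [one_pow]
      exact one_div_le_one_div_of_le h3 h4
    · rw [indicator_of_notMem hxb]
      positivity
  have hsum : Z * (2 / 3 * Real.pi * L ^ 2) ≤ ∑ i, z i * Pot (R i) φ := by
    rw [hZd, Finset.sum_mul]
    exact Finset.sum_le_sum fun i _ => mul_le_mul_of_nonneg_left (hpot i) (hz i)
  refine lt_of_lt_of_le ?_ hsum
  rw [hkin]
  rw [div_lt_iff₀ (by positivity)] at hLK
  have hpi := Real.pi_gt_three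
  have h1 : L * K1 < L * (L * (2 * Z)) := mul_lt_mul_of_pos_left hLK hL0
  have h2 : 0 ≤ Z * L ^ 2 := by positivity
  nlinarith

lemma neg_en {k : ℕ} (z : Fin k → ℝ) (hz : ∀ i, 0 ≤ z i) (R : Fin k → E3)
    (hZ : 0 < ∑ i, z i) : ∃ u : E3 → ℝ, Adm u ∧ Mass u ≤ 1 ∧ En z R u < 0 := by
  obtain ⟨φ, hφ, hlt⟩ := exists_wide z hz R hZ
  set b := (∑ i, z i * Pot (R i) φ) - Kin φ with hb
  have hb0 : 0 < b := by linarith
  set C := 3 / 5 * TFe φ + 1 / 2 * Dir φ with hC
  have hC0 : 0 ≤ C := by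
    have := tf_nonneg (ψ := φ)
    have := dir_nonneg (ψ := φ)
    positivity
  set m := Mass φ with hm
  have hm0 : 0 ≤ m := mass_nonneg
  set s := min (1 / (m + 1)) (b / (2 * (C + 1))) with hs
  have hs0 : 0 < s := lt_min (by positivity) (by positivity)
  have hsm : s ≤ 1 / (m + 1) := min_le_left _ _
  have hs1 : s ≤ 1 := hsm.trans (by rw [div_le_one (by positivity)]; linarith)
  have hsb : s ≤ b / (2 * (C + 1)) := min_le_right _ _
  refine ⟨fun x => s * φ x, smul_adm hφ s, ?_, ?_⟩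
  · have h1 : Mass (fun x => s * φ x) = s ^ 2 * m := by
      rw [hm]
      unfold Mass
      rw [← integral_const_mul]
      congr 1
      funext x
      ring
    rw [h1]
    have h2 : s * m ≤ 1 := by
      calc s * m ≤ 1 / (m + 1) * m := mul_le_mul_of_nonneg_right hsm hm0
        _ ≤ 1 := by rw [div_mul_eq_mul_div, div_le_one (by positivity)]; linarith
    have h3 : 0 ≤ s * m := by positivity
    nlinarith
  · refine lt_of_le_of_lt (en_smul z R hφ hs0 hs1) ?_
    have h1 : Kin φ - ∑ i, z i * Pot (R i) φ = -b := by rw [hb]; ring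
    rw [h1, ← hC]
    rw [le_div_iff₀ (by positivity)] at hsb
    have h2 : s * C < b := by nlinarith
    have h3 : s ^ 2 * (s * C) < s ^ 2 * b := mul_lt_mul_of_pos_left h2 (by positivity)
    nlinarith

end Pool.Agent.X91.TW
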