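import Pool.Agent.X91.TW.Contra
import Pool.Agent.X91.TW.Neg

/-!
# The critical mass exceeds the nuclear charge
-/

set_option autoImplicit false

open MeasureTheory Set Filter Topology Metric
open scoped RealInnerProductSpace ContDiff

namespace Pool.Agent.X91.TW

open Pool.Agent.Helper436.TFW (Adm Kin Pot TFe Mass Dir)
open Pool.Agent.Helper557.TFP (Nice pot)

/-- The energy functional only depends on the a.e. class of the density. -/
lemma ET_congr {k : ℕ} (z : Fin k → ℝ) (R : Fin k → E3) {σ σ' : E3 → ℝ} (h : E3 → E3)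
    (he : σ =ᵐ[volume] σ') : ET z R σ h = ET z R σ' h := by
  unfold ET
  have h1 : ∫ x, σ x ^ (5/3 : ℝ) = ∫ x, σ' x ^ (5/3 : ℝ) :=
    integral_congr_ae (by filter_upwards [he] with x hx; rw [hx])
  have h2 : ∫ x, (∑ i, z i / ‖x - R i‖) * σ x = ∫ x, (∑ i, z i / ‖x - R i‖) * σ' x :=
    integral_congr_ae (by filter_upwards [he] with x hx; rw [hx])
  have h3 : ∫ x, ∫ y, σ x * σ y / ‖x - y‖ = ∫ x, ∫ y, σ' x * σ' y / ‖x - y‖ := by
    refine integral_congr_ae ?_
    filter_upwards [he] with x hx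
    refine integral_congr_ae ?_
    filter_upwards [he] with y hy
    rw [hx, hy]
  rw [h1, h2, h3]

/-- a measurable version -/
lemma AP_of {σ : E3 → ℝ} {h : E3 → E3} (h0 : ∀ x, 0 ≤ σ x) (hi : Integrable σ)
    (h53 : Integrable (fun x => σ x ^ (5/3 : ℝ))) (hh : MemLp h 2)
    (hw : WG (fun x => √(σ x)) h) : ∃ σ' : E3 → ℝ, AP σ' h ∧ σ =ᵐ[volume] σ' := by
  set g := hi.aestronglyMeasurable.mk σ with hg
  have hgm : Measurable g := hi.aestronglyMeasurable.stronglyMeasurable_mk.measurable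
  have hge : σ =ᵐ[volume] g := hi.aestronglyMeasurable.ae_eq_mk
  set σ' : E3 → ℝ := fun x => max (g x) 0 with hσ'
  have he : σ =ᵐ[volume] σ' := by
    filter_upwards [hge] with x hx
    simp only [hσ']
    rw [← hx, max_eq_left (h0 x)]
  refine ⟨σ', ⟨fun x => le_max_right _ _, hgm.max measurable_const, hi.congr he, ?_, hh, ?_⟩, he⟩
  · refine h53.congr ?_
    filter_upwards [he] with x hx
    rw [hx]
  · intro φ hφ hφc v
    rw [← hw φ hφ hφc v]
    refine integral_congr_ae ?_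
    filter_upwards [he] with x hx
    rw [hx]

theorem final {k : ℕ} (z : Fin k → ℝ) (hz : ∀ i, 0 ≤ z i) (hZ : 0 < ∑ i, z i) (R : Fin k → E3) :
    ∃ (ρ : E3 → ℝ) (g : E3 → E3), AP ρ g ∧ (∑ i, z i) < ∫ x, ρ x ∧
      ∀ (σ : E3 → ℝ) (h : E3 → E3), AP σ h → ∫ x, σ x = ∫ x, ρ x → ET z R ρ g ≤ ET z R σ h := by
  obtain ⟨ρ, g, H, hmass, hmin⟩ := exist z hz R (Λ := (∑ i, z i) + 1) (by linarith)
  refine ⟨ρ, g, H, ?_, ?_⟩
  · by_contra hcon
    push Not at hcon
    obtain ⟨v, S⟩ := raw z hz R H hmin hcon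
    refine contra S hz H.nn H.ms H.int ?_
    intro hzero
    have h0 : ρ =ᵐ[volume] 0 := (integral_eq_zero_iff_of_nonneg H.nn H.int).mp hzero
    obtain ⟨u, hu, hum, hue⟩ := neg_en z hz R hZ
    have h1 := hmin u hu (by linarith)
    have h2 : ET z R ρ g = ∫ x, ‖g x‖ ^ 2 := by
      rw [ET_congr z R g h0]
      unfold ET
      have : (0 : ℝ) ^ (5/3 : ℝ) = 0 := Real.zero_rpow (by norm_num)
      simp [this]
    have h3 : 0 ≤ ∫ x, ‖g x‖ ^ 2 := integral_nonneg fun x => by positivity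
    linarith
  · intro σ h Hσ hσ
    obtain ⟨w, hw, hw0, hwm, hwa, hwl, hwE⟩ := dens z hz R Hσ
    refine le_of_forall_pos_le_add fun ε hε => ?_
    obtain ⟨n, hn⟩ := (hwE ε hε).exists
    exact (hmin _ (hw n) ((hwm n).trans (by rw [hσ]; exact hmass))).trans hn

end Pool.Agent.X91.TW
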