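import Pool.Agent.X91.TW.Dens

/-!
# Near-minimisers are Cauchy in `L^{5/3}`
-/

set_option autoImplicit false

open MeasureTheory Set Filter Topology
open scoped RealInnerProductSpace ContDiff ENNReal

namespace Pool.Agent.X91.TW

open Pool.Agent.Helper436.TFW (Adm Kin Pot TFe Mass Dir DirH UB midf midf_nonneg midf_sq_le midf_adm
  midf_kin midf_dir midf_pot cross_int)
open Pool.Agent.Helper557.TFP (Nice pot nice_bound TF_E1_meas TF_E1_bdd TF_E1_int TF_E1_dbl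
  TF_E1_symm TF_E1_potsub)

lemma Dir_nn (ψ : E3 → ℝ) : 0 ≤ Dir ψ := Pool.Agent.Helper436.TFW.dir_nonneg

lemma coer {k : ℕ} (z : Fin k → ℝ) (hz : ∀ i, 0 ≤ z i) (R : Fin k → E3) {Λ : ℝ}
    {ψ : E3 → ℝ} (h : Adm ψ) (hm : Mass ψ ≤ Λ) :
    1 / 2 * Kin ψ + 3 / 5 * TFe ψ - ((∑ i, z i) ^ 2 * Λ / 2 + 3 / 2 * (∑ i, z i) * Λ) ≤
      En z R ψ := by
  set Z := ∑ i, z i with hZ
  have hZ0 : 0 ≤ Z := Finset.sum_nonneg fun i _ => hz i
  have hK : 0 ≤ Kin ψ := Pool.Agent.Helper436.TFW.kin_nonneg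
  have hM : 0 ≤ Mass ψ := Pool.Agent.Helper436.TFW.mass_nonneg
  have hΛ : 0 ≤ Λ := hM.trans hm
  have h1 : ∀ i, Pot (R i) ψ ≤ √(Kin ψ) * √Λ + 3 / 2 * Λ := by
    intro i
    refine (h.pot_le (R i)).trans ?_
    unfold UB
    have h2 : √(Mass ψ) ≤ √Λ := Real.sqrt_le_sqrt hm
    have h3 := mul_le_mul_of_nonneg_left h2 (Real.sqrt_nonneg (Kin ψ))
    linarith
  have h2 : ∑ i, z i * Pot (R i) ψ ≤ Z * (√(Kin ψ) * √Λ + 3 / 2 * Λ) := by
    rw [hZ, Finset.sum_mul]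
    exact Finset.sum_le_sum fun i _ => mul_le_mul_of_nonneg_left (h1 i) (hz i)
  have h3 : Z * (√(Kin ψ) * √Λ) ≤ 1 / 2 * Kin ψ + Z ^ 2 * Λ / 2 := by
    have e1 := Real.sq_sqrt hK
    have e2 := Real.sq_sqrt hΛ
    have e3 : Z ^ 2 * Λ = (Z * √Λ) ^ 2 := by rw [mul_pow, e2]
    nlinarith [sq_nonneg (√(Kin ψ) - Z * √Λ)]
  have h4 := Dir_nn ψ
  unfold En
  nlinarith

lemma DirH_nn {ψ φ : E3 → ℝ} (hψ : Adm ψ) (hφ : Adm φ) :
    0 ≤ DirH (fun x => ψ x ^ 2 - φ x ^ 2) := by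
  have hint : Integrable (fun p : E3 × E3 => (ψ p.1 ^ 2 - φ p.1 ^ 2) * (ψ p.2 ^ 2 - φ p.2 ^ 2) /
      ‖p.1 - p.2‖) (volume.prod volume) := by
    have e1 : (fun p : E3 × E3 => (ψ p.1 ^ 2 - φ p.1 ^ 2) * (ψ p.2 ^ 2 - φ p.2 ^ 2) /
        ‖p.1 - p.2‖) = fun p : E3 × E3 => (ψ p.1 ^ 2 * ψ p.2 ^ 2 / ‖p.1 - p.2‖ -
          ψ p.1 ^ 2 * φ p.2 ^ 2 / ‖p.1 - p.2‖) - (φ p.1 ^ 2 * ψ p.2 ^ 2 / ‖p.1 - p.2‖ -
          φ p.1 ^ 2 * φ p.2 ^ 2 / ‖p.1 - p.2‖) := by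
      funext p
      ring
    rw [e1]
    exact ((cross_int hψ hψ).sub (cross_int hψ hφ)).sub ((cross_int hφ hψ).sub (cross_int hφ hφ))
  have hc : Continuous (fun x => ψ x ^ 2 - φ x ^ 2) := hψ.sq_cont.sub hφ.sq_cont
  have hs : HasCompactSupport (fun x => ψ x ^ 2 - φ x ^ 2) := hψ.sq_cs.sub hφ.sq_cs
  have := (Pool.Agent.Helper436.TFWJ2.gauss hc hs hint one_pos).1
  unfold DirH
  exact this

lemma dft_int {ψ φ : E3 → ℝ} (hψ : Adm ψ) (hφ : Adm φ) :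
    Integrable (fun x => dft (ψ x ^ 2) (φ x ^ 2)) := by
  have hc : Continuous (fun x => dft (ψ x ^ 2) (φ x ^ 2)) := by
    unfold dft
    exact (((hψ.sq_cont.rpow_const fun _ => Or.inr (by norm_num)).add
      (hφ.sq_cont.rpow_const fun _ => Or.inr (by norm_num))).div_const 2).sub
      (((hψ.sq_cont.add hφ.sq_cont).div_const 2).rpow_const fun _ => Or.inr (by norm_num))
  refine hc.integrable_of_hasCompactSupport ?_
  obtain ⟨K1, hK1, hz1⟩ := exists_compact_iff_hasCompactSupport.mpr hψ.cs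
  obtain ⟨K2, hK2, hz2⟩ := exists_compact_iff_hasCompactSupport.mpr hφ.cs
  refine exists_compact_iff_hasCompactSupport.mp ⟨K1 ∪ K2, hK1.union hK2, fun x hx => ?_⟩
  rw [Set.mem_union, not_or] at hx
  rw [hz1 x hx.1, hz2 x hx.2]
  unfold dft
  norm_num [Real.zero_rpow]

lemma mid {k : ℕ} (z : Fin k → ℝ) (hz : ∀ i, 0 ≤ z i) (R : Fin k → E3) {Λ I δ : ℝ}
    {ψ φ : E3 → ℝ} (hψ : Adm ψ) (hφ : Adm φ) (hmψ : Mass ψ ≤ Λ) (hmφ : Mass φ ≤ Λ)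
    (hI : ∀ u, Adm u → Mass u ≤ Λ → I ≤ En z R u) (h1 : En z R ψ ≤ I + δ)
    (h2 : En z R φ ≤ I + δ) : 3 / 5 * ∫ x, dft (ψ x ^ 2) (φ x ^ 2) ≤ δ := by
  choose C hC using fun i => midf_pot hψ hφ (R i)
  set B : ℝ := ∑ i, z i * |C i| with hB
  have hB0 : 0 ≤ B := Finset.sum_nonneg fun i _ => mul_nonneg (hz i) (abs_nonneg _)
  have key : ∀ κ : ℝ, 0 < κ → 3 / 5 * ∫ x, dft (ψ x ^ 2) (φ x ^ 2) ≤ δ + κ * B := by
    intro κ hκ
    have hm := midf_adm hκ hψ hφ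
    have hmass : Mass (midf κ ψ φ) ≤ Λ := by
      have : Mass (midf κ ψ φ) ≤ (Mass ψ + Mass φ) / 2 := by
        unfold Mass
        rw [← integral_add hψ.sq_int hφ.sq_int, ← integral_div]
        refine integral_mono hm.sq_int ((hψ.sq_int.add hφ.sq_int).div_const 2) fun x => ?_
        exact midf_sq_le hκ x
      linarith
    have h3 := hI _ hm hmass
    have h4 := midf_kin hκ hψ hφ
    have h5 := midf_dir hκ hψ hφ
    have h6 := DirH_nn hψ hφ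
    have h7 : TFe (midf κ ψ φ) ≤ (TFe ψ + TFe φ) / 2 - ∫ x, dft (ψ x ^ 2) (φ x ^ 2) := by
      unfold TFe
      have hsum : Integrable (fun x => (|ψ x| ^ ((10 : ℝ) / 3) + |φ x| ^ ((10 : ℝ) / 3)) / 2) :=
        (hψ.tf_int.add hφ.tf_int).div_const 2
      rw [← integral_add hψ.tf_int hφ.tf_int, ← integral_div, ← integral_sub hsum
        (dft_int hψ hφ)]
      refine integral_mono hm.tf_int (hsum.sub (dft_int hψ hφ)) fun x => ?_
      simp only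
      rw [Pool.Agent.Helper436.TFW.rpow_aux, Pool.Agent.Helper436.TFW.rpow_aux,
        Pool.Agent.Helper436.TFW.rpow_aux]
      unfold dft
      have h8 : (midf κ ψ φ x ^ 2) ^ ((5 : ℝ) / 3) ≤ ((ψ x ^ 2 + φ x ^ 2) / 2) ^ ((5 : ℝ) / 3) :=
        Real.rpow_le_rpow (sq_nonneg _) (midf_sq_le hκ x) (by norm_num)
      linarith
    have h9 : ((∑ i, z i * Pot (R i) ψ) + ∑ i, z i * Pot (R i) φ) / 2 - κ * B ≤
        ∑ i, z i * Pot (R i) (midf κ ψ φ) := by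
      rw [hB, Finset.mul_sum, ← Finset.sum_add_distrib, Finset.sum_div, ← Finset.sum_sub_distrib]
      refine Finset.sum_le_sum fun i _ => ?_
      have h10 := hC i κ hκ
      have h11 : κ * C i ≤ κ * |C i| := mul_le_mul_of_nonneg_left (le_abs_self _) hκ.le
      have h12 : (Pot (R i) ψ + Pot (R i) φ) / 2 - κ * |C i| ≤ Pot (R i) (midf κ ψ φ) := by
        linarith
      have h13 := mul_le_mul_of_nonneg_left h12 (hz i)
      calc (z i * Pot (R i) ψ + z i * Pot (R i) φ) / 2 - κ * (z i * |C i|)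
          = z i * ((Pot (R i) ψ + Pot (R i) φ) / 2 - κ * |C i|) := by ring
        _ ≤ _ := h13
    unfold En at h1 h2 h3
    linarith
  by_contra hcon
  push Not at hcon
  have h5 := key (((3 / 5 * ∫ x, dft (ψ x ^ 2) (φ x ^ 2)) - δ) / (2 * (B + 1)))
    (by apply div_pos (by linarith) (by positivity))
  have h6 : ((3 / 5 * ∫ x, dft (ψ x ^ 2) (φ x ^ 2)) - δ) / (2 * (B + 1)) * B ≤
      ((3 / 5 * ∫ x, dft (ψ x ^ 2) (φ x ^ 2)) - δ) / 2 := by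
    rw [div_mul_eq_mul_div, div_le_div_iff₀ (by positivity) (by norm_num)]
    nlinarith
  linarith

/-- Cauchy estimate in `L^{5/3}`. -/
lemma cau {k : ℕ} (z : Fin k → ℝ) (hz : ∀ i, 0 ≤ z i) (R : Fin k → E3) {Λ I : ℝ}
    (hI : ∀ u, Adm u → Mass u ≤ Λ → I ≤ En z R u) {η : ℝ} (hη : 0 < η) :
    ∃ δ : ℝ, 0 < δ ∧ ∀ ψ φ : E3 → ℝ, Adm ψ → Adm φ → Mass ψ ≤ Λ → Mass φ ≤ Λ →
      En z R ψ ≤ I + δ → En z R φ ≤ I + δ →
      ∫ x, |ψ x ^ 2 - φ x ^ 2| ^ ((5 : ℝ) / 3) ≤ η := by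
  set c0 := (∑ i, z i) ^ 2 * Λ / 2 + 3 / 2 * (∑ i, z i) * Λ with hc0
  set T0 := 5 / 3 * (|I| + 1 + |c0|) with hT0
  have hT0p : 0 < T0 := by positivity
  obtain ⟨C, hC, hunif⟩ := unif (η / (4 * T0)) (by positivity)
  refine ⟨min 1 (3 / 5 * (η / (2 * C))), lt_min one_pos (by positivity), ?_⟩
  intro ψ φ hψ hφ hmψ hmφ h1 h2
  set δ := min 1 (3 / 5 * (η / (2 * C))) with hδ
  have hTb : ∀ u, Adm u → Mass u ≤ Λ → En z R u ≤ I + δ → TFe u ≤ T0 := by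
    intro u hu hmu hEu
    have h3 := coer z hz R hu hmu
    have h4 : 0 ≤ Kin u := Pool.Agent.Helper436.TFW.kin_nonneg
    have h5 : δ ≤ 1 := min_le_left _ _
    have h6 := le_abs_self I
    have h7 := le_abs_self c0
    rw [hT0]
    linarith
  have h3 := mid z hz R hψ hφ hmψ hmφ hI h1 h2
  have h4 := hTb ψ hψ hmψ h1
  have h5 := hTb φ hφ hmφ h2
  have h6 : ∫ x, |ψ x ^ 2 - φ x ^ 2| ^ ((5 : ℝ) / 3) ≤
      η / (4 * T0) * (TFe ψ + TFe φ) + C * ∫ x, dft (ψ x ^ 2) (φ x ^ 2) := by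
    unfold TFe
    have hsum : Integrable (fun x => η / (4 * T0) *
        (|ψ x| ^ ((10 : ℝ) / 3) + |φ x| ^ ((10 : ℝ) / 3))) :=
      (hψ.tf_int.add hφ.tf_int).const_mul _
    rw [← integral_add hψ.tf_int hφ.tf_int, ← integral_const_mul, ← integral_const_mul,
      ← integral_add hsum ((dft_int hψ hφ).const_mul C)]
    have hi : Integrable (fun x => |ψ x ^ 2 - φ x ^ 2| ^ ((5 : ℝ) / 3)) :=
      (nice_of_cc (hψ.sq_cont.sub hφ.sq_cont) (hψ.sq_cs.sub hφ.sq_cs)).2.2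
    refine integral_mono hi (hsum.add ((dft_int hψ hφ).const_mul C)) fun x => ?_
    simp only
    rw [Pool.Agent.Helper436.TFW.rpow_aux, Pool.Agent.Helper436.TFW.rpow_aux]
    exact hunif _ _ (sq_nonneg _) (sq_nonneg _)
  have h7 : η / (4 * T0) * (TFe ψ + TFe φ) ≤ η / 2 := by
    calc η / (4 * T0) * (TFe ψ + TFe φ) ≤ η / (4 * T0) * (T0 + T0) := by gcongr
      _ = η / 2 := by field_simp; ring
  have h8 : C * ∫ x, dft (ψ x ^ 2) (φ x ^ 2) ≤ η / 2 := by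
    have h9 : δ ≤ 3 / 5 * (η / (2 * C)) := min_le_right _ _
    have h10 : ∫ x, dft (ψ x ^ 2) (φ x ^ 2) ≤ η / (2 * C) := by linarith
    calc C * ∫ x, dft (ψ x ^ 2) (φ x ^ 2) ≤ C * (η / (2 * C)) :=
          mul_le_mul_of_nonneg_left h10 hC.le
      _ = η / 2 := by field_simp
  linarith

end Pool.Agent.X91.TW
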