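import Mathlib

/-!
# Fatou and Scheffé for sequences of real functions
-/

set_option autoImplicit false

open MeasureTheory Set Filter Topology
open scoped ENNReal

namespace Pool.Agent.X91.TW

variable {α : Type*} [MeasurableSpace α] {μ : Measure α}

lemma fatou_ev {G : ℕ → α → ℝ} {L : α → ℝ} (h0 : ∀ n x, 0 ≤ G n x)
    (hint : ∀ n, Integrable (G n) μ) (hL : Integrable L μ)
    (hlim : ∀ᵐ x ∂μ, Tendsto (fun n => G n x) atTop (𝓝 (L x))) {ε : ℝ} (hε : 0 < ε) :
    ∀ᶠ n in atTop, (∫ x, L x ∂μ) - ε < ∫ x, G n x ∂μ := by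
  have hL0 : 0 ≤ᵐ[μ] L := by
    filter_upwards [hlim] with x hx
    exact ge_of_tendsto' hx fun n => h0 n x
  by_cases hneg : (∫ x, L x ∂μ) - ε < 0
  · exact Eventually.of_forall fun n => lt_of_lt_of_le hneg (integral_nonneg (h0 n))
  push Not at hneg
  have h1 : ∫⁻ x, liminf (fun n => ENNReal.ofReal (G n x)) atTop ∂μ ≤
      liminf (fun n => ∫⁻ x, ENNReal.ofReal (G n x) ∂μ) atTop :=
    lintegral_liminf_le' fun n => (hint n).aemeasurable.ennreal_ofReal
  have h2 : ∫⁻ x, liminf (fun n => ENNReal.ofReal (G n x)) atTop ∂μ =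
      ENNReal.ofReal (∫ x, L x ∂μ) := by
    rw [ofReal_integral_eq_lintegral_ofReal hL hL0]
    refine lintegral_congr_ae ?_
    filter_upwards [hlim] with x hx
    exact (ENNReal.tendsto_ofReal hx).liminf_eq
  have h3 : ∀ n, ∫⁻ x, ENNReal.ofReal (G n x) ∂μ = ENNReal.ofReal (∫ x, G n x ∂μ) := fun n =>
    (ofReal_integral_eq_lintegral_ofReal (hint n) (ae_of_all _ (h0 n))).symm
  rw [h2] at h1
  simp only [h3] at h1
  have h4 : ENNReal.ofReal ((∫ x, L x ∂μ) - ε) < liminf (fun n => ENNReal.ofReal (∫ x, G n x ∂μ))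
      atTop := by
    refine lt_of_lt_of_le ?_ h1
    rw [ENNReal.ofReal_lt_ofReal_iff (by linarith)]
    linarith
  filter_upwards [eventually_lt_of_lt_liminf h4] with n hn
  exact (ENNReal.ofReal_lt_ofReal_iff_of_nonneg hneg).mp hn

lemma scheffe {G : ℕ → α → ℝ} {L : α → ℝ} (h0 : ∀ n x, 0 ≤ G n x)
    (hint : ∀ n, Integrable (G n) μ) (hL : Integrable L μ) (hL0 : ∀ x, 0 ≤ L x)
    (hle : ∀ n, ∫ x, G n x ∂μ ≤ ∫ x, L x ∂μ)
    (hlim : ∀ᵐ x ∂μ, Tendsto (fun n => G n x) atTop (𝓝 (L x))) :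
    Tendsto (fun n => ∫ x, |G n x - L x| ∂μ) atTop (𝓝 0) := by
  have h1 : Tendsto (fun n => ∫ x, max (L x - G n x) 0 ∂μ) atTop (𝓝 (∫ _x, (0:ℝ) ∂μ)) := by
    refine tendsto_integral_of_dominated_convergence L
      (fun n => ((hL.sub (hint n)).pos_part).aestronglyMeasurable) hL
      (fun n => ae_of_all _ fun x => ?_) ?_
    · rw [Real.norm_of_nonneg (le_max_right _ _)]
      exact max_le (by linarith [h0 n x]) (hL0 x)
    · filter_upwards [hlim] with x hx
      have h2 : Tendsto (fun n => max (L x - G n x) 0) atTop (𝓝 (max (L x - L x) 0)) :=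
        ((tendsto_const_nhds.sub hx).max tendsto_const_nhds)
      simpa using h2
  rw [integral_zero] at h1
  have h2 : Tendsto (fun n => 2 * ∫ x, max (L x - G n x) 0 ∂μ) atTop (𝓝 0) := by
    simpa using h1.const_mul 2
  refine squeeze_zero (fun n => integral_nonneg fun x => abs_nonneg _) (fun n => ?_) h2
  have hp : Integrable (fun x => max (L x - G n x) 0) μ := (hL.sub (hint n)).pos_part
  have e1 : ∫ x, |G n x - L x| ∂μ =
      2 * (∫ x, max (L x - G n x) 0 ∂μ) + ((∫ x, G n x ∂μ) - ∫ x, L x ∂μ) := by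
    have hgl : Integrable (fun x => G n x - L x) μ := (hint n).sub hL
    rw [← integral_const_mul, ← integral_sub (hint n) hL,
      ← integral_add (hp.const_mul 2) hgl]
    congr 1
    funext x
    rcases le_total (L x) (G n x) with h | h
    · rw [abs_of_nonneg (by linarith), max_eq_right (by linarith)]; ring
    · rw [abs_of_nonpos (by linarith), max_eq_left (by linarith)]; ring
  rw [e1]
  linarith [hle n]

end Pool.Agent.X91.TW
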