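import Pool.Agent.X91.TW.Grad
import Pool.Agent.X91.TW.Lim
import Pool.Agent.Helper149.Mollify
import Pool.Agent.Helper149.Sobolev

/-!
# Approximation of admissible densities by `C¹` functions of compact support
-/

set_option autoImplicit false

open MeasureTheory Set Filter Topology
open scoped RealInnerProductSpace ContDiff ENNReal

namespace Pool.Agent.X91.TW

open Pool.Agent.Helper436.TFW (Adm Kin Pot TFe Mass Dir UB)
open Pool.Agent.Helper557.TFP (Nice pot nice_bound TF_E1_meas TF_E1_bdd TF_E1_int TF_E1_dbl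
  TF_E1_symm TF_E1_potsub)

/-- the energy of a density with given weak gradient of its root -/
noncomputable def ET {k : ℕ} (z : Fin k → ℝ) (R : Fin k → E3) (σ : E3 → ℝ) (h : E3 → E3) : ℝ :=
  (∫ x, ‖h x‖ ^ 2) + (3/5 : ℝ) * (∫ x, σ x ^ (5/3 : ℝ))
    - (∫ x, (∑ i, z i / ‖x - R i‖) * σ x)
    + (1/2 : ℝ) * (∫ x, ∫ y, σ x * σ y / ‖x - y‖)

/-- admissible pair, with measurable density -/
structure AP (σ : E3 → ℝ) (h : E3 → E3) : Prop where
  nn : ∀ x, 0 ≤ σ x
  ms : Measurable σ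
  int : Integrable σ
  int53 : Integrable (fun x => σ x ^ (5/3 : ℝ))
  gl : MemLp h 2
  wg : WG (fun x => √(σ x)) h

lemma AP.nice {σ : E3 → ℝ} {h : E3 → E3} (H : AP σ h) : Nice σ := by
  refine ⟨H.ms, H.int, ?_⟩
  simpa only [abs_of_nonneg (H.nn _)] using H.int53

lemma AP.glint {σ : E3 → ℝ} {h : E3 → E3} (H : AP σ h) : Integrable (fun x => ‖h x‖ ^ 2) :=
  (memLp_two_iff_integrable_sq_norm H.gl.1).mp H.gl

lemma pot_sum {k : ℕ} (z : Fin k → ℝ) (R : Fin k → E3) {σ : E3 → ℝ} (hσ : Nice σ) :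
    ∫ x, (∑ i, z i / ‖x - R i‖) * σ x = ∑ i, z i * pot σ (R i) := by
  have e1 : ∀ x, (∑ i, z i / ‖x - R i‖) * σ x = ∑ i, z i * (σ x / ‖x - R i‖) := by
    intro x
    rw [Finset.sum_mul]
    exact Finset.sum_congr rfl fun i _ => by ring
  simp only [e1]
  rw [integral_finsetSum _ fun i _ => (pot_int_of_nice hσ (R i)).const_mul (z i)]
  refine Finset.sum_congr rfl fun i _ => ?_
  rw [integral_const_mul, pot_eq]

lemma Pot_eq_pot (a : E3) (ψ : E3 → ℝ) : Pot a ψ = pot (fun x => ψ x ^ 2) a := by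
  rw [← pot_eq]; rfl

lemma Dir_eq (ψ : E3 → ℝ) : Dir ψ = ∫ x, ψ x ^ 2 * pot (fun x => ψ x ^ 2) x :=
  TF_E1_dbl (fun x => ψ x ^ 2) (fun x => ψ x ^ 2)

lemma kin_cut {χ w : E3 → ℝ} (hχ : ContDiff ℝ 1 χ) (hw : ContDiff ℝ 1 w) (h0 : ∀ x, 0 ≤ χ x)
    (h1 : ∀ x, χ x ≤ 1) {c δ : ℝ} (_hc : 0 ≤ c) (hδ : 0 < δ) (hg : ∀ x, ‖fderiv ℝ χ x‖ ≤ c) (x : E3) :
    ‖fderiv ℝ (fun x => χ x * w x) x‖ ^ 2 ≤ (1 + δ) * ‖fderiv ℝ w x‖ ^ 2 +
      (1 + 1 / δ) * c ^ 2 * w x ^ 2 := by
  have e1 : fderiv ℝ (fun x => χ x * w x) x = χ x • fderiv ℝ w x + w x • fderiv ℝ χ x :=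
    fderiv_fun_mul (hχ.differentiable (by norm_num) x) (hw.differentiable (by norm_num) x)
  have e2 : ‖fderiv ℝ (fun x => χ x * w x) x‖ ≤ ‖fderiv ℝ w x‖ + c * |w x| := by
    rw [e1]
    refine (norm_add_le _ _).trans ?_
    rw [norm_smul, norm_smul, Real.norm_eq_abs, Real.norm_eq_abs, abs_of_nonneg (h0 x)]
    have := norm_nonneg (fderiv ℝ w x)
    have h2 := mul_le_mul_of_nonneg_left (hg x) (abs_nonneg (w x))
    nlinarith [h1 x]
  set A := ‖fderiv ℝ w x‖ with hA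
  have hA0 : 0 ≤ A := norm_nonneg _
  have hB0 : 0 ≤ c * |w x| := mul_nonneg _hc (abs_nonneg _)
  have e3 : (A + c * |w x|) ^ 2 ≤ (1 + δ) * A ^ 2 + (1 + 1 / δ) * (c * |w x|) ^ 2 := by
    have h5 : 0 ≤ (δ * A - c * |w x|) ^ 2 / δ := by positivity
    have h6 : (δ * A - c * |w x|) ^ 2 / δ = δ * A ^ 2 - 2 * A * (c * |w x|) +
        1 / δ * (c * |w x|) ^ 2 := by field_simp; ring
    nlinarith
  calc ‖fderiv ℝ (fun x => χ x * w x) x‖ ^ 2 ≤ (A + c * |w x|) ^ 2 :=
        pow_le_pow_left₀ (norm_nonneg _) e2 2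
    _ ≤ _ := e3
    _ = _ := by rw [mul_pow, sq_abs]; ring

lemma kin_le_of {k m : ℝ} {A S c : ℝ} (n : ℕ)
    (h : k ≤ (1 + 1 / ((n : ℝ) + 1)) * A + (1 + 1 / (1 / ((n : ℝ) + 1))) * (c / ((n : ℝ) + 1)) ^ 2 * S)
    (hS : 0 ≤ S) (hm : m = A + 2 * c ^ 2 * S) : k ≤ A + m / ((n : ℝ) + 1) := by
  have hn : (0 : ℝ) < (n : ℝ) + 1 := by positivity
  refine h.trans ?_
  have e1 : (1 + 1 / ((n : ℝ) + 1)) * A + (1 + 1 / (1 / ((n : ℝ) + 1))) * (c / ((n : ℝ) + 1)) ^ 2 * S =
      A + (A + c ^ 2 * S * (((n : ℝ) + 2) / ((n : ℝ) + 1))) / ((n : ℝ) + 1) := by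
    field_simp
    ring
  rw [e1, hm]
  have e2 : ((n : ℝ) + 2) / ((n : ℝ) + 1) ≤ 2 := by
    rw [div_le_iff₀ hn]; linarith [(Nat.cast_nonneg n : (0:ℝ) ≤ (n:ℝ))]
  have e3 : c ^ 2 * S * (((n : ℝ) + 2) / ((n : ℝ) + 1)) ≤ 2 * c ^ 2 * S := by
    have : 0 ≤ c ^ 2 * S := by positivity
    nlinarith
  gcongr

/-- **Approximation.** -/
theorem dens {k : ℕ} (z : Fin k → ℝ) (hz : ∀ i, 0 ≤ z i) (R : Fin k → E3) {σ : E3 → ℝ}
    {h : E3 → E3} (H : AP σ h) :
    ∃ v : ℕ → E3 → ℝ, (∀ n, Adm (v n)) ∧ (∀ n x, 0 ≤ v n x) ∧ (∀ n, Mass (v n) ≤ ∫ x, σ x) ∧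
      (∀ᵐ x, Tendsto (fun n => v n x ^ 2) atTop (𝓝 (σ x))) ∧
      Tendsto (fun n => ∫ x, |v n x ^ 2 - σ x|) atTop (𝓝 0) ∧
      ∀ ε : ℝ, 0 < ε → ∀ᶠ n in atTop, En z R (v n) ≤ ET z R σ h + ε := by
  have hu2 : MemLp (fun x => √(σ x)) 2 := by
    rw [memLp_two_iff_integrable_sq (H.ms.sqrt.aestronglyMeasurable)]
    simpa only [Real.sq_sqrt (H.nn _)] using H.int
  obtain ⟨w, hwd, hw0, hwlim, hwq, hwg⟩ := Pool.Agent.Helper149.Mollify.exists_mollify
    (fun x => √(σ x)) h (fun x => Real.sqrt_nonneg _) (hu2.locallyIntegrable (by norm_num))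
    (H.gl.locallyIntegrable (by norm_num)) H.wg
  obtain ⟨χ, C, hC0, hχd, hχs, hχ0, hχ1, hχlim, hχg⟩ :=
    Pool.Agent.Helper149.Sobolev.exists_cutoff
  set v : ℕ → E3 → ℝ := fun n x => χ n x * w n x with hv
  have hva : ∀ n, Adm (v n) := fun n =>
    ⟨((hχd n).mul (hwd n)).of_le (by exact_mod_cast le_top), (hχs n).mul_right⟩
  have hv0 : ∀ n x, 0 ≤ v n x := fun n x => mul_nonneg (hχ0 n x) (hw0 n x)
  have hvw : ∀ n x, v n x ≤ w n x := fun n x => mul_le_of_le_one_left (hw0 n x) (hχ1 n x)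
  -- lintegral bounds
  have hS : ∫⁻ x, ‖√(σ x)‖ₑ ^ (2:ℝ) = ENNReal.ofReal (∫ x, σ x) := by
    rw [ofReal_integral_eq_lintegral_ofReal H.int (ae_of_all _ H.nn)]
    refine lintegral_congr fun x => ?_
    rw [Real.enorm_of_nonneg (Real.sqrt_nonneg _), ENNReal.ofReal_rpow_of_nonneg
      (Real.sqrt_nonneg _) (by norm_num)]
    congr 1
    rw [Real.rpow_two, Real.sq_sqrt (H.nn x)]
  have hT : ∫⁻ x, ‖√(σ x)‖ₑ ^ ((10:ℝ)/3) = ENNReal.ofReal (∫ x, σ x ^ (5/3 : ℝ)) := by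
    rw [ofReal_integral_eq_lintegral_ofReal H.int53 (ae_of_all _ fun x => Real.rpow_nonneg (H.nn x) _)]
    refine lintegral_congr fun x => ?_
    rw [Real.enorm_of_nonneg (Real.sqrt_nonneg _), ENNReal.ofReal_rpow_of_nonneg
      (Real.sqrt_nonneg _) (by norm_num)]
    congr 1
    rw [Real.sqrt_eq_rpow, ← Real.rpow_mul (H.nn x)]
    norm_num
  have hG : ∫⁻ x, ‖h x‖ₑ ^ (2:ℝ) = ENNReal.ofReal (∫ x, ‖h x‖ ^ 2) := by
    rw [ofReal_integral_eq_lintegral_ofReal H.glint (ae_of_all _ fun x => by positivity)]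
    refine lintegral_congr fun x => ?_
    rw [← ofReal_norm, ENNReal.ofReal_rpow_of_nonneg (norm_nonneg _) (by norm_num)]
    congr 1
    rw [Real.rpow_two]
  have hwint : ∀ n, Integrable (fun x => w n x ^ 2) ∧ ∫ x, w n x ^ 2 ≤ ∫ x, σ x := by
    intro n
    refine Pool.Agent.Helper149.Fatou.integrable_of_lintegral_le
      ((hwd n).continuous.pow 2).aestronglyMeasurable (fun x => sq_nonneg _) H.int H.nn ?_
    rw [← ofReal_integral_eq_lintegral_ofReal H.int (ae_of_all _ H.nn), ← hS]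
    refine le_trans (le_of_eq (lintegral_congr fun x => ?_)) (hwq n 2 (by norm_num))
    rw [Real.enorm_of_nonneg (hw0 n x), ENNReal.ofReal_rpow_of_nonneg (hw0 n x) (by norm_num)]
    congr 1
    rw [Real.rpow_two]
  have hwgint : ∀ n, Integrable (fun x => ‖fderiv ℝ (w n) x‖ ^ 2) ∧
      ∫ x, ‖fderiv ℝ (w n) x‖ ^ 2 ≤ ∫ x, ‖h x‖ ^ 2 := by
    intro n
    refine Pool.Agent.Helper149.Fatou.integrable_of_lintegral_le
      (((hwd n).continuous_fderiv (by simp)).norm.pow 2).aestronglyMeasurable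
      (fun x => by positivity) H.glint (fun x => by positivity) ?_
    rw [← ofReal_integral_eq_lintegral_ofReal H.glint (ae_of_all _ fun x => by positivity),
      ← hG]
    refine le_trans (le_of_eq (lintegral_congr fun x => ?_)) (hwg n 2 (by norm_num))
    rw [← ofReal_norm, ENNReal.ofReal_rpow_of_nonneg (norm_nonneg _) (by norm_num)]
    congr 1
    rw [Real.rpow_two]
  have hmass : ∀ n, Mass (v n) ≤ ∫ x, σ x := by
    intro n
    refine le_trans (integral_mono (hva n).sq_int (hwint n).1 fun x => ?_) (hwint n).2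
    exact pow_le_pow_left₀ (hv0 n x) (hvw n x) 2
  have hlim : ∀ᵐ x, Tendsto (fun n => v n x ^ 2) atTop (𝓝 (σ x)) := by
    filter_upwards [hwlim] with x hx
    have h1 : Tendsto (fun n => v n x) atTop (𝓝 (√(σ x))) := by
      refine hx.congr' ?_
      filter_upwards [hχlim x] with n hn
      rw [hv]
      simp only
      rw [hn, one_mul]
    have h2 := h1.pow 2
    rwa [Real.sq_sqrt (H.nn x)] at h2
  have hsch : Tendsto (fun n => ∫ x, |v n x ^ 2 - σ x|) atTop (𝓝 0) :=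
    scheffe (fun n x => sq_nonneg _) (fun n => (hva n).sq_int) H.int H.nn hmass hlim
  refine ⟨v, hva, hv0, hmass, hlim, hsch, fun ε hε => ?_⟩
  -- kinetic energy
  set A := ∫ x, ‖h x‖ ^ 2 with hA
  set S := ∫ x, σ x with hSS
  have hA0 : 0 ≤ A := integral_nonneg fun x => by positivity
  have hS0 : 0 ≤ S := integral_nonneg H.nn
  set M := A + 2 * C ^ 2 * S with hM
  have hkin : ∀ n, Kin (v n) ≤ A + M / ((n : ℝ) + 1) := by
    intro n
    have hn : (0 : ℝ) < (n : ℝ) + 1 := by positivity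
    refine kin_le_of n ?_ hS0 hM
    have h1 : Kin (v n) ≤ ∫ x, ((1 + 1 / ((n : ℝ) + 1)) * ‖fderiv ℝ (w n) x‖ ^ 2 +
        (1 + 1 / (1 / ((n : ℝ) + 1))) * (C / ((n : ℝ) + 1)) ^ 2 * w n x ^ 2) := by
      unfold Kin
      refine integral_mono (hva n).kin_int
        (((hwgint n).1.const_mul _).add ((hwint n).1.const_mul _)) fun x => ?_
      exact kin_cut ((hχd n).of_le (by exact_mod_cast le_top))
        ((hwd n).of_le (by exact_mod_cast le_top)) (hχ0 n) (hχ1 n) (by positivity)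
        (by positivity) (hχg n) x
    rw [integral_add ((hwgint n).1.const_mul _) ((hwint n).1.const_mul _), integral_const_mul,
      integral_const_mul] at h1
    refine h1.trans (add_le_add ?_ ?_)
    · exact mul_le_mul_of_nonneg_left (hwgint n).2 (by positivity)
    · exact mul_le_mul_of_nonneg_left (hwint n).2 (by positivity)
  have hkinlim : ∀ᶠ n in atTop, Kin (v n) ≤ A + ε / 4 := by
    have h1 : Tendsto (fun n : ℕ => M / ((n : ℝ) + 1)) atTop (𝓝 0) := by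
      have := tendsto_one_div_add_atTop_nhds_zero_nat.const_mul M
      simp only [mul_zero] at this
      refine this.congr fun n => by ring
    filter_upwards [h1.eventually (gt_mem_nhds (by positivity : (0:ℝ) < ε / 4))] with n hn
    linarith [hkin n]
  -- Thomas-Fermi term
  have htf : ∀ n, TFe (v n) ≤ ∫ x, σ x ^ (5/3 : ℝ) := by
    intro n
    refine (Pool.Agent.Helper149.Fatou.integrable_of_lintegral_le
      ((hva n).tf_int.aestronglyMeasurable) (fun x => by positivity) H.int53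
      (fun x => Real.rpow_nonneg (H.nn x) _) ?_).2
    rw [← ofReal_integral_eq_lintegral_ofReal H.int53
      (ae_of_all _ fun x => Real.rpow_nonneg (H.nn x) _), ← hT]
    refine le_trans (lintegral_mono fun x => ?_) (hwq n ((10:ℝ)/3) (by norm_num))
    rw [Real.enorm_of_nonneg (hw0 n x), ENNReal.ofReal_rpow_of_nonneg (hw0 n x) (by norm_num)]
    apply ENNReal.ofReal_le_ofReal
    rw [abs_of_nonneg (hv0 n x)]
    exact Real.rpow_le_rpow (hv0 n x) (hvw n x) (by norm_num)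
  -- attraction
  have hpot : ∀ᶠ n in atTop, (∑ i, z i * pot σ (R i)) - ε / 4 ≤ ∑ i, z i * Pot (R i) (v n) := by
    set Z := ∑ i, z i with hZ
    have hZ0 : 0 ≤ Z := Finset.sum_nonneg fun i _ => hz i
    have h1 : ∀ i, ∀ᶠ n in atTop, pot σ (R i) - ε / (4 * (Z + 1)) < Pot (R i) (v n) := by
      intro i
      rw [← pot_eq]
      refine fatou_ev (fun n x => by positivity) (fun n => (hva n).pot_int (R i))
        (pot_int_of_nice H.nice (R i)) ?_ (by positivity)
      filter_upwards [hlim] with x hx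
      exact hx.div_const _
    filter_upwards [eventually_all.mpr h1] with n hn
    have h2 : ∑ i, z i * (pot σ (R i) - ε / (4 * (Z + 1))) ≤ ∑ i, z i * Pot (R i) (v n) :=
      Finset.sum_le_sum fun i _ => mul_le_mul_of_nonneg_left (hn i).le (hz i)
    have h3 : ∑ i, z i * (pot σ (R i) - ε / (4 * (Z + 1))) =
        (∑ i, z i * pot σ (R i)) - Z * (ε / (4 * (Z + 1))) := by
      rw [hZ, Finset.sum_mul, ← Finset.sum_sub_distrib]
      exact Finset.sum_congr rfl fun i _ => by ring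
    have h4 : Z * (ε / (4 * (Z + 1))) ≤ ε / 4 := by
      rw [mul_div_assoc', div_le_div_iff₀ (by positivity) (by norm_num)]
      nlinarith
    linarith
  -- repulsion
  have hdir : ∀ᶠ n in atTop, Dir (v n) ≤ (∫ x, ∫ y, σ x * σ y / ‖x - y‖) + ε / 4 := by
    obtain ⟨B1, hB1⟩ := TF_E1_bdd σ H.nice
    have hKb : ∀ n, Kin (v n) ≤ A + M := by
      intro n
      refine (hkin n).trans ?_
      have hM0 : 0 ≤ M := by positivity
      have : M / ((n : ℝ) + 1) ≤ M := div_le_self hM0 (by linarith [(Nat.cast_nonneg n : (0:ℝ) ≤ (n:ℝ))])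
      linarith
    set B2 := √(A + M) * √S + 3 / 2 * S with hB2
    have hUb : ∀ n x, pot (fun y => v n y ^ 2) x ≤ B2 := by
      intro n x
      rw [← Pot_eq_pot]
      refine ((hva n).pot_le x).trans ?_
      unfold UB
      have h1 : √(Kin (v n)) ≤ √(A + M) := Real.sqrt_le_sqrt (hKb n)
      have h2 : √(Mass (v n)) ≤ √S := Real.sqrt_le_sqrt (hmass n)
      have h3 := hmass n
      have h4 := Real.sqrt_nonneg (Kin (v n))
      have h5 := Real.sqrt_nonneg (Mass (v n))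
      have h6 : √(Kin (v n)) * √(Mass (v n)) ≤ √(A + M) * √S :=
        mul_le_mul h1 h2 h5 (Real.sqrt_nonneg _)
      linarith
    have hBn : 0 ≤ |B1| + |B2| := by positivity
    have h1 : Tendsto (fun n => (|B1| + |B2|) * ∫ x, |v n x ^ 2 - σ x|) atTop (𝓝 0) := by
      simpa using hsch.const_mul (|B1| + |B2|)
    filter_upwards [h1.eventually (gt_mem_nhds (by positivity : (0:ℝ) < ε / 4))] with n hn
    have hvn := adm_nice (hva n)
    have e1 : (∫ x, ∫ y, σ x * σ y / ‖x - y‖) = ∫ x, σ x * pot σ x := TF_E1_dbl σ σ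
    rw [Dir_eq, e1]
    have i1 := TF_E1_int _ _ hvn.2.1 hvn
    have i2 := TF_E1_int _ _ H.nice.2.1 H.nice
    have i3 := TF_E1_int _ _ hvn.2.1 H.nice
    have i4 := TF_E1_int _ _ H.nice.2.1 hvn
    have e2 := TF_E1_symm _ _ hvn H.nice
    have hdn : Integrable (fun x => |v n x ^ 2 - σ x|) := ((hva n).sq_int.sub H.int).abs
    have e4 : ∀ x, (v n x ^ 2 - σ x) * (pot (fun y => v n y ^ 2) x + pot σ x) =
        v n x ^ 2 * pot (fun y => v n y ^ 2) x + 1 * (v n x ^ 2 * pot σ x) +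
        (-1) * (σ x * pot (fun y => v n y ^ 2) x) + (-1) * (σ x * pot σ x) := fun x => by ring
    have e3 : (∫ x, v n x ^ 2 * pot (fun y => v n y ^ 2) x) - ∫ x, σ x * pot σ x =
        ∫ x, (v n x ^ 2 - σ x) * (pot (fun y => v n y ^ 2) x + pot σ x) := by
      simp only [e4]
      rw [(lin4 i1 i3 i4 i2 1 (-1) (-1)).2, e2]
      ring
    have iL : Integrable (fun x => (v n x ^ 2 - σ x) * (pot (fun y => v n y ^ 2) x + pot σ x)) := by
      simp only [e4]
      exact (lin4 i1 i3 i4 i2 1 (-1) (-1)).1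
    have e5 : ∫ x, (v n x ^ 2 - σ x) * (pot (fun y => v n y ^ 2) x + pot σ x) ≤
        (|B1| + |B2|) * ∫ x, |v n x ^ 2 - σ x| := by
      rw [← integral_const_mul]
      refine integral_mono iL (hdn.const_mul _) fun x => ?_
      simp only
      have p1 : 0 ≤ pot (fun y => v n y ^ 2) x := pot_nn (fun y => sq_nonneg _) x
      have p2 : 0 ≤ pot σ x := pot_nn H.nn x
      have p3 := hUb n x
      have p4 := hB1 x
      have p5 : pot (fun y => v n y ^ 2) x + pot σ x ≤ |B1| + |B2| := by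
        have := le_abs_self B2
        have := le_abs_self B1
        have := le_abs_self (pot σ x)
        linarith
      calc (v n x ^ 2 - σ x) * (pot (fun y => v n y ^ 2) x + pot σ x)
          ≤ |v n x ^ 2 - σ x| * (pot (fun y => v n y ^ 2) x + pot σ x) :=
            mul_le_mul_of_nonneg_right (le_abs_self _) (by linarith)
        _ ≤ |v n x ^ 2 - σ x| * (|B1| + |B2|) := mul_le_mul_of_nonneg_left p5 (abs_nonneg _)
        _ = _ := by ring
    linarith
  filter_upwards [hkinlim, hpot, hdir] with n h1 h2 h3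
  have h4 := htf n
  unfold En ET
  rw [pot_sum z R H.nice]
  linarith

end Pool.Agent.X91.TW
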