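import Pool.Agent.Helper436.TFWMid
import Pool.Agent.Helper557.TF.Core

/-!
# TFW molecules: definitions and the pointwise variation identity
-/

set_option autoImplicit false

open MeasureTheory Set Filter Topology
open scoped RealInnerProductSpace

namespace Pool.Agent.X91.TW

open Pool.Agent.Helper436.TFW (Adm Kin Pot TFe Mass Dir)

abbrev E3 := EuclideanSpace ℝ (Fin 3)

/-- The TFW energy of `ψ²`. -/
noncomputable def En {k : ℕ} (z : Fin k → ℝ) (R : Fin k → E3) (ψ : E3 → ℝ) : ℝ :=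
  Kin ψ + 3 / 5 * TFe ψ - ∑ i, z i * Pot (R i) ψ + 1 / 2 * Dir ψ

/-- nonnegative `C¹` functions of compact support -/
structure Tst (θ : E3 → ℝ) : Prop where
  cd : ContDiff ℝ 1 θ
  cs : HasCompactSupport θ
  nn : ∀ x, 0 ≤ θ x

/-- the argument of the root -/
noncomputable def RR (w θ : E3 → ℝ) (t κ : ℝ) (x : E3) : ℝ := w x ^ 2 + t * θ x + κ ^ 2

/-- the perturbed function -/
noncomputable def mm (w θ : E3 → ℝ) (t κ : ℝ) (x : E3) : ℝ := Real.sqrt (RR w θ t κ x) - κ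

/-- its logarithm -/
noncomputable def ff (w θ : E3 → ℝ) (t κ : ℝ) (x : E3) : ℝ := 1 / 2 * Real.log (RR w θ t κ x)

lemma RR_pos {w θ : E3 → ℝ} (hθ : ∀ x, 0 ≤ θ x) {t κ : ℝ} (ht : 0 ≤ t) (hκ : 0 < κ) (x : E3) :
    0 < RR w θ t κ x := by
  unfold RR
  have := mul_nonneg ht (hθ x)
  positivity

lemma RR_ge {w θ : E3 → ℝ} (hθ : ∀ x, 0 ≤ θ x) {t κ : ℝ} (ht : 0 ≤ t) (x : E3) :
    κ ^ 2 ≤ RR w θ t κ x := by
  unfold RR
  have := mul_nonneg ht (hθ x)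
  nlinarith [sq_nonneg (w x)]

lemma mm_nonneg {w θ : E3 → ℝ} (hθ : ∀ x, 0 ≤ θ x) {t κ : ℝ} (ht : 0 ≤ t) (_hκ : 0 < κ) (x : E3) :
    0 ≤ mm w θ t κ x := by
  unfold mm
  have : κ ≤ Real.sqrt (RR w θ t κ x) := Real.le_sqrt_of_sq_le (RR_ge hθ ht x)
  linarith

lemma mm_sq {w θ : E3 → ℝ} (hθ : ∀ x, 0 ≤ θ x) {t κ : ℝ} (ht : 0 ≤ t) (hκ : 0 < κ) (x : E3) :
    mm w θ t κ x ^ 2 = w x ^ 2 + t * θ x - 2 * κ * mm w θ t κ x := by
  have h := Real.sq_sqrt (RR_pos (w := w) hθ ht hκ x).le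
  have h2 : RR w θ t κ x = w x ^ 2 + t * θ x + κ ^ 2 := rfl
  unfold mm
  nlinarith

lemma mm_sq_le {w θ : E3 → ℝ} (hθ : ∀ x, 0 ≤ θ x) {t κ : ℝ} (ht : 0 ≤ t) (hκ : 0 < κ) (x : E3) :
    mm w θ t κ x ^ 2 ≤ w x ^ 2 + t * θ x := by
  rw [mm_sq hθ ht hκ]
  have := mm_nonneg (w := w) hθ ht hκ x
  nlinarith

lemma RR_cd {w θ : E3 → ℝ} (hw : Adm w) (hθ : Tst θ) (t κ : ℝ) : ContDiff ℝ 1 (RR w θ t κ) := by
  unfold RR
  exact ((hw.cd.pow 2).add (contDiff_const.mul hθ.cd)).add contDiff_const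

lemma ff_cd {w θ : E3 → ℝ} (hw : Adm w) (hθ : Tst θ) {t κ : ℝ} (ht : 0 ≤ t) (hκ : 0 < κ) :
    ContDiff ℝ 1 (ff w θ t κ) := by
  unfold ff
  exact contDiff_const.mul ((RR_cd hw hθ t κ).log fun x => (RR_pos hθ.nn ht hκ x).ne')

lemma mm_adm {w θ : E3 → ℝ} (hw : Adm w) (hθ : Tst θ) {t κ : ℝ} (ht : 0 ≤ t) (hκ : 0 < κ) :
    Adm (mm w θ t κ) := by
  constructor
  · unfold mm
    exact ((RR_cd hw hθ t κ).sqrt fun x => (RR_pos hθ.nn ht hκ x).ne').sub contDiff_const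
  · obtain ⟨K1, hK1, hz1⟩ := exists_compact_iff_hasCompactSupport.mpr hw.cs
    obtain ⟨K2, hK2, hz2⟩ := exists_compact_iff_hasCompactSupport.mpr hθ.cs
    refine exists_compact_iff_hasCompactSupport.mp ⟨K1 ∪ K2, hK1.union hK2, fun x hx => ?_⟩
    rw [Set.mem_union, not_or] at hx
    unfold mm RR
    rw [hz1 x hx.1, hz2 x hx.2]
    have : (0 : ℝ) ^ 2 + t * 0 + κ ^ 2 = κ ^ 2 := by ring
    rw [this, Real.sqrt_sq hκ.le, sub_self]

lemma grad_norm (f : E3 → ℝ) (x : E3) : ‖gradient f x‖ = ‖fderiv ℝ f x‖ := by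
  simp [gradient]

lemma grad_inner (f : E3 → ℝ) (x v : E3) : ⟪gradient f x, v⟫ = fderiv ℝ f x v := by
  simp [gradient]

/-- The pointwise variation inequality. -/
lemma mm_fderiv {w θ : E3 → ℝ} (hw : Adm w) (hθ : Tst θ) {t κ : ℝ} (ht : 0 ≤ t) (hκ : 0 < κ)
    (x : E3) :
    ‖fderiv ℝ (mm w θ t κ) x‖ ^ 2 ≤ ‖fderiv ℝ w x‖ ^ 2 +
      t * (fderiv ℝ (ff w θ t κ) x (gradient θ x) - θ x * ‖fderiv ℝ (ff w θ t κ) x‖ ^ 2) := by
  have hR := RR_pos (w := w) hθ.nn ht hκ x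
  have hRe : RR w θ t κ x = w x ^ 2 + t * θ x + κ ^ 2 := rfl
  set ρ := RR w θ t κ x with hρ
  have hd1 : HasFDerivAt w (fderiv ℝ w x) x := (hw.cd.differentiable (by norm_num) x).hasFDerivAt
  have hd2 : HasFDerivAt θ (fderiv ℝ θ x) x := (hθ.cd.differentiable (by norm_num) x).hasFDerivAt
  have hd3 : HasFDerivAt (RR w θ t κ) ((2 * w x) • fderiv ℝ w x + t • fderiv ℝ θ x) x := by
    have h1 := hd1.pow 2
    have h2 := hd2.const_mul t
    have h3 := (h1.add h2).add_const (κ ^ 2)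
    refine h3.congr_fderiv ?_
    ext v
    simp
  have hd4 : HasFDerivAt (mm w θ t κ)
      ((1 / (2 * Real.sqrt ρ)) • ((2 * w x) • fderiv ℝ w x + t • fderiv ℝ θ x)) x :=
    (hd3.sqrt hR.ne').sub_const κ
  have hd5 : HasFDerivAt (ff w θ t κ)
      ((1 / (2 * ρ)) • ((2 * w x) • fderiv ℝ w x + t • fderiv ℝ θ x)) x := by
    have := (hd3.log hR.ne').const_mul (1 / 2 : ℝ)
    refine this.congr_fderiv ?_
    rw [smul_smul]
    congr 1
    rw [← hρ]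
    field_simp
  -- pass to vectors
  set P := gradient w x with hP
  set G := gradient θ x with hG
  set a := gradient (ff w θ t κ) x with ha
  have ea : ρ • a = w x • P + (t / 2) • G := by
    apply ext_inner_right ℝ
    intro v
    rw [inner_smul_left, inner_add_left, inner_smul_left, inner_smul_left, ha, hP, hG,
      grad_inner, grad_inner, grad_inner, hd5.fderiv]
    simp
    field_simp
  have em : ‖fderiv ℝ (mm w θ t κ) x‖ ^ 2 = ρ * ‖a‖ ^ 2 := by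
    have h1 : fderiv ℝ (mm w θ t κ) x = (Real.sqrt ρ) • fderiv ℝ (ff w θ t κ) x := by
      rw [hd4.fderiv, hd5.fderiv, smul_smul]
      congr 1
      have h2 := Real.sq_sqrt hR.le
      have h3 : 0 < Real.sqrt ρ := Real.sqrt_pos.mpr hR
      rw [← h2] 
      field_simp
      rw [Real.sqrt_sq h3.le]
    rw [h1, norm_smul, mul_pow, Real.norm_eq_abs, sq_abs, Real.sq_sqrt hR.le, ha, grad_norm]
  have e1 : t * ⟪a, G⟫ = 2 * (ρ * ‖a‖ ^ 2) - 2 * w x * ⟪a, P⟫ := by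
    have h1 : (t / 2) • G = ρ • a - w x • P := by rw [ea]; abel
    have h2 : ⟪a, (t / 2) • G⟫ = ⟪a, ρ • a - w x • P⟫ := by rw [h1]
    rw [inner_smul_right, inner_sub_right, inner_smul_right, inner_smul_right,
      real_inner_self_eq_norm_sq] at h2
    linarith
  have e2 : ‖P - w x • a‖ ^ 2 = ‖P‖ ^ 2 - 2 * w x * ⟪a, P⟫ + w x ^ 2 * ‖a‖ ^ 2 := by
    rw [@norm_sub_sq_real, norm_smul, inner_smul_right, mul_pow, Real.norm_eq_abs, sq_abs,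
      real_inner_comm]
    ring
  have e3 : fderiv ℝ (ff w θ t κ) x G = ⟪a, G⟫ := by rw [ha, grad_inner]
  rw [em, e3, ← grad_norm w x, ← grad_norm (ff w θ t κ) x, ← hP, ← ha]
  have e4 : 0 ≤ ‖P - w x • a‖ ^ 2 + κ ^ 2 * ‖a‖ ^ 2 := by positivity
  have e5 : ρ * ‖a‖ ^ 2 = w x ^ 2 * ‖a‖ ^ 2 + t * θ x * ‖a‖ ^ 2 + κ ^ 2 * ‖a‖ ^ 2 := by
    rw [hRe]; ring
  nlinarith

end Pool.Agent.X91.TW
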