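import Pool.Agent.X91.TW.Stage

/-!
# The contradiction
-/

set_option autoImplicit false

open MeasureTheory Set Filter Topology Metric
open scoped RealInnerProductSpace ContDiff

namespace Pool.Agent.X91.TW

open Pool.Agent.Helper436.TFW (Adm Kin Pot TFe Mass Dir)
open Pool.Agent.Helper557.TFP (Nice pot nice_bound TF_E1_meas TF_E1_bdd TF_E1_int TF_E1_dbl
  TF_E1_symm TF_E1_potsub)

variable {k : ℕ} {z : Fin k → ℝ} {R : Fin k → E3} {ρ : E3 → ℝ} {v : ℕ → E3 → ℝ}
variable {a l b : ℝ}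

/-- average of the logarithm -/
noncomputable def MM (ρ : E3 → ℝ) (b : ℝ) : ℝ := ∫ x, 1 / 2 * Real.log (ρ x) * W b ‖x‖

/-- locally integrable logarithm -/
def LL (ρ : E3 → ℝ) : Prop := ∀ T : ℝ, 0 < T → (∀ᵐ x ∂(volume.restrict (ball (0 : E3) T)), 0 < ρ x) ∧
  IntegrableOn (fun x => Real.log (ρ x)) (ball (0 : E3) T)

lemma LL.ae (h : LL ρ) (hb : 0 < b) : ∀ᵐ x : E3, W b ‖x‖ = 0 ∨ 0 < ρ x := by
  have h1 := (h (2 * b) (by positivity)).1
  rw [ae_restrict_iff' measurableSet_ball] at h1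
  filter_upwards [h1] with x hx
  by_cases h2 : x ∈ ball (0 : E3) (2 * b)
  · exact Or.inr (hx h2)
  · left
    rw [mem_ball_zero_iff, not_lt] at h2
    exact W_hi hb h2

lemma logW_meas (hρm : Measurable ρ) (hb : 0 < b) :
    Measurable (fun x => 1 / 2 * Real.log (ρ x) * W b ‖x‖) :=
  ((Real.measurable_log.comp hρm).const_mul (1 / 2)).mul
    (((W_cont hb).comp continuous_norm).measurable)

lemma LL.int (h : LL ρ) (hρm : Measurable ρ) (hb : 0 < b) :
    Integrable (fun x => 1 / 2 * Real.log (ρ x) * W b ‖x‖) := by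
  obtain ⟨B, hB0, hB⟩ := dS_bdd
  have h1 := (h (2 * b) (by positivity)).2
  have h2 : Integrable ((ball (0 : E3) (2 * b)).indicator (fun x => Real.log (ρ x))) :=
    h1.integrable_indicator measurableSet_ball
  refine ((h2.norm.const_mul (1 / 2 * (B / b ^ 3)))).mono' (logW_meas hρm hb).aestronglyMeasurable
    (ae_of_all _ fun x => ?_)
  by_cases hx : x ∈ ball (0 : E3) (2 * b)
  · rw [indicator_of_mem hx, Real.norm_eq_abs, Real.norm_eq_abs, abs_mul, abs_mul,
      abs_of_nonneg (W_nn hb ‖x‖), abs_of_pos (by norm_num : (0:ℝ) < 1 / 2)]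
    have := mul_le_mul_of_nonneg_left (W_le hB hb ‖x‖) (abs_nonneg (Real.log (ρ x)))
    linarith
  · rw [indicator_of_notMem hx]
    rw [mem_ball_zero_iff, not_lt] at hx
    rw [W_hi hb hx]
    simp

lemma log_pert_bound {B p s w : ℝ} (hp : 0 < p) (hs : 0 ≤ s) (hw : 0 ≤ w) (hwB : w ≤ B) :
    |1 / 2 * Real.log (p + s) * w| ≤ |1 / 2 * Real.log p * w| + 1 / 2 * B * (p + s) := by
  have h1 : Real.log p ≤ Real.log (p + s) := Real.log_le_log hp (by linarith)
  have h2 : Real.log (p + s) ≤ p + s := by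
    have := Real.log_le_sub_one_of_pos (show 0 < p + s by linarith)
    linarith
  have h3 : |Real.log (p + s)| ≤ |Real.log p| + (p + s) := by
    rw [abs_le]
    constructor
    · have := neg_abs_le (Real.log p)
      linarith
    · have := abs_nonneg (Real.log p)
      linarith
  rw [abs_mul, abs_mul, abs_mul, abs_mul, abs_of_nonneg hw, abs_of_pos (by norm_num : (0:ℝ) < 1 / 2)]
  have h4 := mul_le_mul_of_nonneg_right h3 hw
  have h5 : (p + s) * w ≤ (p + s) * B := mul_le_mul_of_nonneg_left hwB (by linarith)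
  nlinarith

/-- `δ → 0` in the shell inequality -/
theorem stage2 (S : Seq z R ρ v) (hz : ∀ i, 0 ≤ z i) (hρ0 : ∀ x, 0 ≤ ρ x) (hρm : Measurable ρ)
    (hρi : Integrable ρ) (hL : LL ρ) {B : ℝ} (hB : ∀ s, dS s ≤ B) (ha : 0 < a) (hl : 0 < l) {c : ℝ}
    (hc : 0 < c) (hR : ∀ i, ‖R i‖ ≤ a) :
      0 ≤ (MM ρ (2 * a) - MM ρ a) + 4 * Real.pi * (Real.log 2 + 3 * B ^ 2 / l) +
        6 / 5 * (c ^ 2 / 3 * (∫ x : E3, gg a l ‖x‖ ^ 3) +
          2 / (3 * c) * ∫ x, (ball (0 : E3) a)ᶜ.indicator ρ x) := by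
  obtain ⟨χ, C, δ0, hδ0, hδ01, hχ, hχ1, hχe, hmain⟩ := stage1 (c := c) S hz hρ0 hρm hρi hB ha hl hc hR
  set θ : E3 → ℝ := fun x => gg a l ‖x‖ with hθd
  have hθcd : ContDiff ℝ 1 θ := rad_cd ha (gg_prof ha hl).cd (gg_prof ha hl).lo
  have hθ : Tst θ := ⟨hθcd, rad_cs (gg_prof ha hl).hi, fun x => gg_nn ha _⟩
  set δ : ℕ → ℝ := fun j => δ0 / ((j : ℝ) + 1) with hδd
  have hδp : ∀ j, 0 < δ j := fun j => by simp only [hδd]; positivity
  have hδle : ∀ j, δ j ≤ δ0 := fun j => by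
    simp only [hδd]
    exact div_le_self hδ0.le (by linarith [(Nat.cast_nonneg j : (0:ℝ) ≤ (j:ℝ))])
  have hδ1 : ∀ j, δ j ≤ 1 := fun j => (hδle j).trans hδ01
  have hδlim : Tendsto δ atTop (𝓝 0) := by
    have l0 : Tendsto (fun j : ℕ => 1 / ((j : ℝ) + 1)) atTop (𝓝 0) :=
      tendsto_one_div_add_atTop_nhds_zero_nat
    have := l0.const_mul δ0
    rw [mul_zero] at this
    exact this.congr fun j => by simp only [hδd]; ring
  set s : ℕ → E3 → ℝ := fun j x => δ j * (θ x + δ j * χ x) with hs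
  have hs0 : ∀ j x, 0 ≤ s j x := fun j x =>
    mul_nonneg (hδp j).le (add_nonneg (hθ.nn x) (mul_nonneg (hδp j).le (hχ.nn x)))
  have hsle : ∀ j x, s j x ≤ θ x + χ x := by
    intro j x
    have h1 : θ x + δ j * χ x ≤ θ x + χ x := by
      have := mul_le_of_le_one_left (hχ.nn x) (hδ1 j)
      linarith
    have h2 : 0 ≤ θ x + δ j * χ x := add_nonneg (hθ.nn x) (mul_nonneg (hδp j).le (hχ.nn x))
    exact (mul_le_of_le_one_left h2 (hδ1 j)).trans h1
  have hsm : ∀ j, Measurable (s j) := fun j =>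
    (hθ.cont.measurable.add (hχ.cont.measurable.const_mul _)).const_mul _
  have hFm : ∀ (b : ℝ), 0 < b → ∀ j, Measurable
      (fun x => 1 / 2 * Real.log (ρ x + s j x) * W b ‖x‖) := fun b hb j =>
    ((Real.measurable_log.comp (hρm.add (hsm j))).const_mul (1 / 2)).mul
      (((W_cont hb).comp continuous_norm).measurable)
  have hbound : ∀ (b : ℝ), 0 < b → ∀ j, ∀ᵐ x : E3,
      ‖1 / 2 * Real.log (ρ x + s j x) * W b ‖x‖‖ ≤ |1 / 2 * Real.log (ρ x) * W b ‖x‖| +
        1 / 2 * (B / b ^ 3) * (ρ x + (θ x + χ x)) := by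
    intro b hb j
    have hB0 : 0 ≤ B := (dS_nn 0).trans (hB 0)
    filter_upwards [hL.ae hb] with x hx
    rcases hx with hx | hx
    · rw [hx]
      simp only [mul_zero, norm_zero, abs_zero, zero_add]
      have h1 := hρ0 x
      have h2 := hθ.nn x
      have h3 := hχ.nn x
      positivity
    · rw [Real.norm_eq_abs]
      refine (log_pert_bound hx (hs0 j x) (W_nn hb _) (W_le hB hb _)).trans ?_
      have h4 : 0 ≤ 1 / 2 * (B / b ^ 3) := by positivity
      have := mul_le_mul_of_nonneg_left (show ρ x + s j x ≤ ρ x + (θ x + χ x) by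
        linarith [hsle j x]) h4
      linarith
  have hbi : ∀ (b : ℝ), 0 < b → Integrable (fun x => |1 / 2 * Real.log (ρ x) * W b ‖x‖| +
        1 / 2 * (B / b ^ 3) * (ρ x + (θ x + χ x))) := fun b hb =>
    (hL.int hρm hb).abs.add ((hρi.add (hθ.int.add hχ.int)).const_mul _)
  -- lower bound
  have hlow : ∀ j, MM ρ a ≤ ∫ x, 1 / 2 * Real.log (ρ x + s j x) * W a ‖x‖ := by
    intro j
    unfold MM
    refine integral_mono_ae (hL.int hρm ha)
      ((hbi a ha).mono' (hFm a ha j).aestronglyMeasurable (hbound a ha j)) ?_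
    filter_upwards [hL.ae ha] with x hx
    rcases hx with hx | hx
    · simp only [hx, mul_zero, le_refl]
    · have h1 : Real.log (ρ x) ≤ Real.log (ρ x + s j x) := Real.log_le_log hx (by linarith [hs0 j x])
      have h2 := W_nn ha ‖x‖
      exact mul_le_mul_of_nonneg_right (by linarith) h2
  -- limit
  have h2a : (0:ℝ) < 2 * a := by positivity
  have hlim : Tendsto (fun j => ∫ x, 1 / 2 * Real.log (ρ x + s j x) * W (2 * a) ‖x‖) atTop
      (𝓝 (MM ρ (2 * a))) := by
    unfold MM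
    refine tendsto_integral_of_dominated_convergence _
      (fun j => (hFm _ h2a j).aestronglyMeasurable) (hbi _ h2a) (fun j => hbound _ h2a j) ?_
    filter_upwards [hL.ae h2a] with x hx
    rcases hx with hx | hx
    · simp only [hx, mul_zero]
      exact tendsto_const_nhds
    · refine Tendsto.mul_const _ (Tendsto.const_mul _ ?_)
      refine (Real.continuousAt_log hx.ne').tendsto.comp ?_
      have h1 : Tendsto (fun j => ρ x + δ j * (θ x + δ j * χ x)) atTop
          (𝓝 (ρ x + 0 * (θ x + 0 * χ x))) :=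
        tendsto_const_nhds.add (hδlim.mul (tendsto_const_nhds.add (hδlim.mul_const _)))
      simpa using h1
  have hlim2 : Tendsto (fun j => ((∫ x, 1 / 2 * Real.log (ρ x + s j x) * W (2 * a) ‖x‖) - MM ρ a) +
      4 * Real.pi * (Real.log 2 + 3 * B ^ 2 / l) +
        6 / 5 * (c ^ 2 / 3 * (∫ x : E3, gg a l ‖x‖ ^ 3) +
          2 / (3 * c) * ∫ x, (ball (0 : E3) a)ᶜ.indicator ρ x) + δ j * C) atTop
      (𝓝 ((MM ρ (2 * a) - MM ρ a) + 4 * Real.pi * (Real.log 2 + 3 * B ^ 2 / l) +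
        6 / 5 * (c ^ 2 / 3 * (∫ x : E3, gg a l ‖x‖ ^ 3) +
          2 / (3 * c) * ∫ x, (ball (0 : E3) a)ᶜ.indicator ρ x) + 0 * C)) :=
    (((hlim.sub_const _).add_const _).add_const _).add (hδlim.mul_const _)
  rw [zero_mul, add_zero] at hlim2
  refine ge_of_tendsto' hlim2 fun j => ?_
  have h1 := hmain (δ j) (hδp j) (hδle j)
  have h2 := hlow j
  have h3 : (∫ x, 1 / 2 * Real.log (ρ x + δ j * (gg a l ‖x‖ + δ j * χ x)) * W (2 * a) ‖x‖) =
    ∫ x, 1 / 2 * Real.log (ρ x + s j x) * W (2 * a) ‖x‖ := rfl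
  have h4 : (∫ x, 1 / 2 * Real.log (ρ x + δ j * (gg a l ‖x‖ + δ j * χ x)) * W a ‖x‖) =
    ∫ x, 1 / 2 * Real.log (ρ x + s j x) * W a ‖x‖ := rfl
  rw [h3, h4] at h1
  linarith

lemma A3_bound (ha : 0 < a) (hl : 0 < l) :
    ∫ x : E3, gg a l ‖x‖ ^ 3 ≤ 36 * Real.pi * (4 + l) ^ 3 := by
  have hb : 0 < (4 + l) * a := by positivity
  have h0 : ∀ r, gg a l r ≤ 3 / a := by
    intro r
    by_cases h : r ≤ a
    · rw [(gg_prof ha hl).lo r h]; positivity
    · push Not at h
      unfold gg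
      have h1 := th_le (l := l) ha r
      have hr : 0 < r := ha.trans h
      rw [div_le_div_iff₀ (by positivity) ha]
      have h2 : a ^ 2 ≤ r ^ 2 := pow_le_pow_left₀ ha.le h.le 2
      have h3 := th_nn (l := l) ha r
      nlinarith [mul_le_mul_of_nonneg_right h1 ha.le]
  have hT : Integrable ((ball (0 : E3) ((4 + l) * a)).indicator (fun _ => 27 / a ^ 3)) :=
    (integrableOn_const measure_ball_lt_top.ne).integrable_indicator measurableSet_ball
  have hgc : Continuous (fun r => gg a l r ^ 3) := (gg_prof ha hl).cd.continuous.pow 3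
  have h1 : ∫ x : E3, gg a l ‖x‖ ^ 3 ≤
      ∫ x, (ball (0 : E3) ((4 + l) * a)).indicator (fun _ => 27 / a ^ 3) x := by
    refine integral_mono (cc_int (b := (4 + l) * a) hgc fun s hs => by
      rw [(gg_prof ha hl).hi s hs.le]; norm_num) hT fun x => ?_
    by_cases hx : x ∈ ball (0 : E3) ((4 + l) * a)
    · rw [indicator_of_mem hx]
      have := pow_le_pow_left₀ (gg_nn (l := l) ha ‖x‖) (h0 ‖x‖) 3
      refine this.trans (le_of_eq ?_)
      rw [div_pow]; norm_num
    · rw [indicator_of_notMem hx]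
      rw [mem_ball_zero_iff, not_lt] at hx
      simp only
      rw [(gg_prof ha hl).hi _ hx]; norm_num
  refine h1.trans (le_of_eq ?_)
  rw [integral_indicator measurableSet_ball, setIntegral_const, smul_eq_mul, Measure.real,
    EuclideanSpace.volume_ball_fin_three, ENNReal.toReal_mul, ENNReal.toReal_pow,
    ENNReal.toReal_ofReal hb.le, ENNReal.toReal_ofReal (by positivity)]
  field_simp
  ring

lemma tail_small (hρi : Integrable ρ) (hρ0 : ∀ x, 0 ≤ ρ x) {ε : ℝ} (hε : 0 < ε) :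
    ∃ a0 : ℝ, 0 < a0 ∧ ∀ a, a0 ≤ a → ∫ x, (ball (0 : E3) a)ᶜ.indicator ρ x < ε := by
  have h1 : Tendsto (fun a : ℝ => ∫ x, (ball (0 : E3) a)ᶜ.indicator ρ x) atTop
      (𝓝 (∫ _ : E3, (0 : ℝ))) := by
    refine tendsto_integral_filter_of_dominated_convergence ρ
      (Eventually.of_forall fun a => hρi.aestronglyMeasurable.indicator measurableSet_ball.compl)
      (Eventually.of_forall fun a => ae_of_all _ fun x => ?_) hρi (ae_of_all _ fun x => ?_)
    · rw [Real.norm_eq_abs, abs_of_nonneg (indicator_nonneg (fun y _ => hρ0 y) x)]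
      exact indicator_le_self' (fun y _ => hρ0 y) x
    · refine tendsto_const_nhds.congr' ?_
      filter_upwards [eventually_gt_atTop ‖x‖] with a ha
      rw [indicator_of_notMem]
      intro h
      exact h (mem_ball_zero_iff.mpr ha)
  rw [integral_zero] at h1
  obtain ⟨a0, ha0⟩ := (h1.eventually (gt_mem_nhds hε)).exists_forall_of_atTop
  exact ⟨max a0 1, by positivity, fun a ha => ha0 a (le_trans (le_max_left _ _) ha)⟩

/-- upper bound for the average of the logarithm -/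
lemma MM_le (hρ0 : ∀ x, 0 ≤ ρ x) (hρm : Measurable ρ) (hρi : Integrable ρ) (hL : LL ρ)
    {B : ℝ} (hB : ∀ s, dS s ≤ B) (hb : 0 < b) :
    MM ρ b ≤ 1 / 2 * B * (∫ x, ρ x) - 2 * Real.pi * (3 * Real.log b + 1) := by
  have iW : Integrable (fun x : E3 => W b ‖x‖) :=
    cc_int (b := 2 * b) (W_cont hb) fun s hs => W_hi hb hs.le
  have h1 : MM ρ b ≤ ∫ x, (1 / 2 * B * ρ x + (-(3 * Real.log b + 1) / 2) * W b ‖x‖) := by
    unfold MM
    refine integral_mono_ae (hL.int hρm hb) ((hρi.const_mul _).add (iW.const_mul _)) ?_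
    filter_upwards [hL.ae hb] with x hx
    have hB0 : 0 ≤ B := (dS_nn 0).trans (hB 0)
    rcases hx with hx | hx
    · simp only [hx, mul_zero, add_zero]
      have := hρ0 x
      positivity
    · have h2 := Real.log_le_sub_one_of_pos (show 0 < b ^ 3 * ρ x by positivity)
      rw [Real.log_mul (by positivity) hx.ne', Real.log_pow] at h2
      push_cast at h2
      have h3 : Real.log (ρ x) ≤ b ^ 3 * ρ x - 1 - 3 * Real.log b := by linarith
      have h4 := mul_le_mul_of_nonneg_right h3 (W_nn hb ‖x‖)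
      have h5 : b ^ 3 * ρ x * W b ‖x‖ ≤ B * ρ x := by
        have := mul_le_mul_of_nonneg_left (W_le hB hb ‖x‖) (show 0 ≤ b ^ 3 * ρ x by positivity)
        refine this.trans (le_of_eq ?_)
        field_simp
      linarith
  have h2 : ∫ x, (1 / 2 * B * ρ x + (-(3 * Real.log b + 1) / 2) * W b ‖x‖) =
      1 / 2 * B * (∫ x, ρ x) + (-(3 * Real.log b + 1) / 2) * (4 * Real.pi) := by
    rw [← W_mass hb, ← integral_const_mul, ← integral_const_mul]
    exact integral_add (hρi.const_mul _) (iW.const_mul _)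
  rw [h2] at h1
  refine h1.trans (le_of_eq ?_)
  ring

/-- **No nonzero minimiser has mass at most the nuclear charge.** -/
theorem contra (S : Seq z R ρ v) (hz : ∀ i, 0 ≤ z i) (hρ0 : ∀ x, 0 ≤ ρ x) (hρm : Measurable ρ)
    (hρi : Integrable ρ) (hpos : ∫ x, ρ x ≠ 0) : False := by
  -- the logarithm is locally integrable
  have hT0 : ∃ T0 : ℝ, 0 < T0 ∧ volume ({x | 0 < ρ x} ∩ ball (0 : E3) T0) ≠ 0 := by
    by_contra hcon
    push Not at hcon
    apply hpos
    have h1 : volume {x | 0 < ρ x} = 0 := by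
      have h2 : {x | 0 < ρ x} ⊆ ⋃ n : ℕ, ({x | 0 < ρ x} ∩ ball (0 : E3) ((n : ℝ) + 1)) := by
        intro x hx
        obtain ⟨n, hn⟩ := exists_nat_gt ‖x‖
        refine mem_iUnion.mpr ⟨n, hx, ?_⟩
        rw [mem_ball_zero_iff]; linarith
      refine measure_mono_null h2 ?_
      rw [measure_iUnion_null_iff]
      intro n
      exact hcon _ (by positivity)
    have h3 : ρ =ᵐ[volume] 0 := by
      have : ∀ᵐ x, ¬ 0 < ρ x := measure_eq_zero_iff_ae_notMem.mp h1
      filter_upwards [this] with x hx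
      exact le_antisymm (not_lt.mp hx) (hρ0 x)
    rw [integral_congr_ae h3]
    simp
  obtain ⟨T0, hT0, hT1⟩ := hT0
  have hL : LL ρ := by
    intro T hT
    have hm : 0 < max T T0 := lt_of_lt_of_le hT (le_max_left _ _)
    have h1 := log_int S hz hρ0 hρm hm (fun h => hT1 (measure_mono_null
      (inter_subset_inter_right _ (ball_subset_ball (le_max_right _ _))) h))
    exact ⟨ae_restrict_of_ae_restrict_of_subset (ball_subset_ball (le_max_left _ _)) h1.1,
      h1.2.mono_set (ball_subset_ball (le_max_left _ _))⟩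
  obtain ⟨B, hB0, hB⟩ := dS_bdd
  set l : ℝ := 24 * B ^ 2 + 1 with hl
  have hl0 : 0 < l := by positivity
  set K3 : ℝ := 36 * Real.pi * (4 + l) ^ 3 with hK3
  have hpi := Real.pi_pos
  have hpi3 := Real.pi_gt_three
  have hK0 : 0 < K3 := by positivity
  set c : ℝ := 1 / (K3 + 1) with hc
  have hc0 : 0 < c := by positivity
  obtain ⟨a0, ha0, htail⟩ := tail_small hρi hρ0 (ε := c / 2) (by positivity)
  obtain ⟨RR0, hRR0⟩ : ∃ M : ℝ, ∀ i, ‖R i‖ ≤ M := by
    refine ⟨∑ i, ‖R i‖, fun i => ?_⟩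
    exact Finset.single_le_sum (f := fun i => ‖R i‖) (fun j _ => norm_nonneg _) (Finset.mem_univ i)
  have step : ∀ a, max a0 RR0 ≤ a → MM ρ a - 4 * Real.pi * (Real.log 2 + 1 / 4) ≤ MM ρ (2 * a) := by
    intro a ha
    have ha1 : 0 < a := lt_of_lt_of_le ha0 ((le_max_left _ _).trans ha)
    have h1 := stage2 (c := c) S hz hρ0 hρm hρi hL hB ha1 hl0 hc0
      (fun i => (hRR0 i).trans ((le_max_right _ _).trans ha))
    have h2 := A3_bound ha1 hl0
    have h3 := htail a ((le_max_left _ _).trans ha)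
    have h4 : 3 * B ^ 2 / l ≤ 1 / 8 := by
      rw [div_le_iff₀ hl0, hl]; nlinarith
    have h5 : c ^ 2 / 3 * (∫ x : E3, gg a l ‖x‖ ^ 3) ≤ 1 / 3 := by
      calc c ^ 2 / 3 * (∫ x : E3, gg a l ‖x‖ ^ 3) ≤ c ^ 2 / 3 * K3 :=
            mul_le_mul_of_nonneg_left h2 (by positivity)
        _ ≤ 1 / 3 := by
            have : c ^ 2 * K3 ≤ 1 := by
              rw [hc, div_pow, one_pow, div_mul_eq_mul_div, one_mul, div_le_one (by positivity)]
              nlinarith
            linarith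
    have h6 : 2 / (3 * c) * (∫ x, (ball (0 : E3) a)ᶜ.indicator ρ x) ≤ 1 / 3 := by
      calc 2 / (3 * c) * (∫ x, (ball (0 : E3) a)ᶜ.indicator ρ x) ≤ 2 / (3 * c) * (c / 2) :=
            mul_le_mul_of_nonneg_left h3.le (by positivity)
        _ = 1 / 3 := by field_simp
    have h7 : 4 * Real.pi * (3 * B ^ 2 / l) ≤ 4 * Real.pi * (1 / 8) :=
      mul_le_mul_of_nonneg_left h4 (by positivity)
    nlinarith
  set a1 := max a0 RR0 with ha1
  have ha1p : 0 < a1 := lt_of_lt_of_le ha0 (le_max_left _ _)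
  have iter : ∀ n : ℕ, MM ρ a1 - n * (4 * Real.pi * (Real.log 2 + 1 / 4)) ≤ MM ρ (2 ^ n * a1) := by
    intro n
    induction n with
    | zero => simp
    | succ n ih =>
      have h1 := step (2 ^ n * a1) (by
        have : (1:ℝ) ≤ 2 ^ n := one_le_pow₀ (by norm_num)
        nlinarith)
      have h2 : 2 * (2 ^ n * a1) = 2 ^ (n + 1) * a1 := by ring
      rw [h2] at h1
      push_cast
      linarith
  have fin : ∀ n : ℕ, (n : ℝ) * (Real.pi * (2 * Real.log 2 - 1)) ≤
      1 / 2 * B * (∫ x, ρ x) - 2 * Real.pi * (3 * Real.log a1 + 1) - MM ρ a1 := by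
    intro n
    have h1 := iter n
    have h2 := MM_le hρ0 hρm hρi hL hB (b := 2 ^ n * a1) (by positivity)
    rw [Real.log_mul (by positivity) ha1p.ne', Real.log_pow] at h2
    nlinarith
  have hlog2 := Real.log_two_gt_d9
  have hc1 : 0 < Real.pi * (2 * Real.log 2 - 1) := mul_pos hpi (by linarith)
  obtain ⟨n, hn⟩ := exists_nat_gt ((1 / 2 * B * (∫ x, ρ x) - 2 * Real.pi * (3 * Real.log a1 + 1) -
    MM ρ a1) / (Real.pi * (2 * Real.log 2 - 1)))
  rw [div_lt_iff₀ hc1] at hn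
  have := fin n
  linarith

end Pool.Agent.X91.TW
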