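import Mathlib

/-!
# Elementary inequalities for the power `5/3`
-/

set_option autoImplicit false

namespace Pool.Agent.X91.TW

/-- `x^{5/3} ≥ 1 + (5/3)(x-1) + (1/3)(x-1)²` for `0 ≤ x ≤ 2`. -/
lemma pow53_lower {x : ℝ} (h0 : 0 ≤ x) (h2 : x ≤ 2) :
    1 + 5 / 3 * (x - 1) + 1 / 3 * (x - 1) ^ 2 ≤ x ^ ((5 : ℝ) / 3) := by
  set y := x ^ ((1 : ℝ) / 3) with hy
  have hy0 : 0 ≤ y := Real.rpow_nonneg h0 _
  have hy3 : y ^ 3 = x := by
    rw [hy, ← Real.rpow_natCast, ← Real.rpow_mul h0]; norm_num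
  have hy5 : x ^ ((5 : ℝ) / 3) = y ^ 5 := by
    rw [hy, ← Real.rpow_natCast, ← Real.rpow_mul h0]; norm_num
  have hy2 : y ≤ 2 := by
    by_contra h
    push Not at h
    have : (2 : ℝ) ^ 3 < y ^ 3 := pow_lt_pow_left₀ h (by norm_num) (by norm_num)
    rw [hy3] at this
    linarith
  rw [hy5, ← hy3]
  have e : y ^ 5 - (1 + 5 / 3 * (y ^ 3 - 1) + 1 / 3 * (y ^ 3 - 1) ^ 2) =
      1 / 3 * ((y - 1) ^ 2 * (-(y ^ 4) + y ^ 3 + 3 * y ^ 2 + 2 * y + 1)) := by ring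
  have e2 : 0 ≤ -(y ^ 4) + y ^ 3 + 3 * y ^ 2 + 2 * y + 1 := by
    have h1 : y ^ 4 ≤ 2 * y ^ 3 := by
      have := pow_nonneg hy0 3
      nlinarith
    have h3 : y ^ 3 ≤ 2 * y ^ 2 := by
      have := pow_nonneg hy0 2
      nlinarith
    nlinarith [sq_nonneg y]
  have := mul_nonneg (sq_nonneg (y - 1)) e2
  linarith

/-- the convexity defect -/
noncomputable def dft (a b : ℝ) : ℝ :=
  (a ^ ((5 : ℝ) / 3) + b ^ ((5 : ℝ) / 3)) / 2 - ((a + b) / 2) ^ ((5 : ℝ) / 3)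

lemma dft_lower {a b : ℝ} (ha : 0 ≤ a) (hb : 0 ≤ b) (hs : 0 < a + b) :
    1 / 3 * ((a + b) / 2) ^ ((5 : ℝ) / 3) * ((a - b) / (a + b)) ^ 2 ≤ dft a b := by
  set s := (a + b) / 2 with hs'
  have hs0 : 0 < s := by positivity
  have h1 := pow53_lower (x := a / s) (by positivity) (by rw [div_le_iff₀ hs0]; linarith)
  have h2 := pow53_lower (x := b / s) (by positivity) (by rw [div_le_iff₀ hs0]; linarith)
  rw [Real.div_rpow ha hs0.le] at h1
  rw [Real.div_rpow hb hs0.le] at h2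
  have hsp : 0 < s ^ ((5 : ℝ) / 3) := Real.rpow_pos_of_pos hs0 _
  have e1 : a / s - 1 = (a - b) / (a + b) := by rw [hs']; field_simp; ring
  have e2 : b / s - 1 = -((a - b) / (a + b)) := by rw [hs']; field_simp; ring
  rw [e1, le_div_iff₀ hsp] at h1
  rw [e2, le_div_iff₀ hsp] at h2
  unfold dft
  nlinarith

lemma dft_nonneg {a b : ℝ} (ha : 0 ≤ a) (hb : 0 ≤ b) : 0 ≤ dft a b := by
  rcases eq_or_lt_of_le (add_nonneg ha hb) with h | h
  · have ha' : a = 0 := by linarith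
    have hb' : b = 0 := by linarith
    unfold dft
    rw [ha', hb']
    simp
  · refine le_trans ?_ (dft_lower ha hb h)
    positivity

lemma unif (ε : ℝ) (hε : 0 < ε) : ∃ C : ℝ, 0 < C ∧ ∀ a b : ℝ, 0 ≤ a → 0 ≤ b →
    |a - b| ^ ((5 : ℝ) / 3) ≤ ε * (a ^ ((5 : ℝ) / 3) + b ^ ((5 : ℝ) / 3)) + C * dft a b := by
  -- r^{5/3} ≤ δ + C r² 
  set δ := ε / 2 with hδ
  have hδ0 : 0 < δ := by positivity
  set δ' : ℝ := min δ 1 with hδ'
  have hδ'0 : 0 < δ' := lt_min hδ0 one_pos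
  have hr : ∀ r : ℝ, 0 ≤ r → r ≤ 1 → r ^ ((5 : ℝ) / 3) ≤ δ + 1 / δ' * r ^ 2 := by
    intro r hr0 hr1
    by_cases h : r ≤ δ'
    · have h1 : r ^ ((5 : ℝ) / 3) ≤ r := by
        rcases eq_or_lt_of_le hr0 with h0 | h0
        · rw [← h0, Real.zero_rpow (by norm_num)]
        · calc r ^ ((5 : ℝ) / 3) ≤ r ^ (1 : ℝ) :=
              Real.rpow_le_rpow_of_exponent_ge h0 hr1 (by norm_num)
            _ = r := Real.rpow_one r
      have h2 : δ' ≤ δ := min_le_left _ _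
      have : 0 ≤ 1 / δ' * r ^ 2 := by positivity
      linarith
    · push Not at h
      have hrp : 0 < r := lt_trans hδ'0 h
      have h1 : r ^ ((5 : ℝ) / 3) ≤ r := by
        calc r ^ ((5 : ℝ) / 3) ≤ r ^ (1 : ℝ) :=
              Real.rpow_le_rpow_of_exponent_ge hrp hr1 (by norm_num)
            _ = r := Real.rpow_one r
      have h2 : r ≤ 1 / δ' * r ^ 2 := by
        rw [one_div, inv_mul_eq_div, le_div_iff₀ hδ'0]
        nlinarith
      linarith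
  refine ⟨1 / δ' * (3 * 2 ^ ((5 : ℝ) / 3)), by positivity, fun a b ha hb => ?_⟩
  rcases eq_or_lt_of_le (add_nonneg ha hb) with h | h
  · have ha' : a = 0 := by linarith
    have hb' : b = 0 := by linarith
    rw [ha', hb']
    unfold dft
    simp [Real.zero_rpow]
  · have hd := dft_lower ha hb h
    set r := |a - b| / (a + b) with hrr
    have hr0 : 0 ≤ r := by positivity
    have hr1 : r ≤ 1 := by
      rw [hrr, div_le_one h, abs_le]; constructor <;> linarith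
    have hsq : ((a - b) / (a + b)) ^ 2 = r ^ 2 := by
      rw [hrr, div_pow, div_pow, sq_abs]
    rw [hsq] at hd
    have hab : |a - b| = (a + b) * r := by rw [hrr]; field_simp
    have e1 : |a - b| ^ ((5 : ℝ) / 3) = (a + b) ^ ((5 : ℝ) / 3) * r ^ ((5 : ℝ) / 3) := by
      rw [hab, Real.mul_rpow h.le hr0]
    have hS : 0 < (a + b) ^ ((5 : ℝ) / 3) := Real.rpow_pos_of_pos h _
    have e2 : (a + b) ^ ((5 : ℝ) / 3) = 2 ^ ((5 : ℝ) / 3) * ((a + b) / 2) ^ ((5 : ℝ) / 3) := by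
      rw [← Real.mul_rpow (by norm_num) (by positivity)]
      congr 1
      ring
    have e3 : (a + b) ^ ((5 : ℝ) / 3) ≤ 2 * (a ^ ((5 : ℝ) / 3) + b ^ ((5 : ℝ) / 3)) := by
      have h1 : ((a + b) / 2) ^ ((5 : ℝ) / 3) ≤ (a ^ ((5 : ℝ) / 3) + b ^ ((5 : ℝ) / 3)) / 2 := by
        have := dft_nonneg ha hb
        unfold dft at this
        linarith
      have h2 : (2 : ℝ) ^ ((5 : ℝ) / 3) ≤ 4 := by
        calc (2 : ℝ) ^ ((5 : ℝ) / 3) ≤ 2 ^ (2 : ℝ) :=
              Real.rpow_le_rpow_of_exponent_le (by norm_num) (by norm_num)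
          _ = 4 := by norm_num
      have h3 : 0 ≤ ((a + b) / 2) ^ ((5 : ℝ) / 3) := Real.rpow_nonneg (by positivity) _
      rw [e2]
      have h4 : 0 ≤ a ^ ((5 : ℝ) / 3) + b ^ ((5 : ℝ) / 3) :=
        add_nonneg (Real.rpow_nonneg ha _) (Real.rpow_nonneg hb _)
      nlinarith
    rw [e1]
    calc (a + b) ^ ((5 : ℝ) / 3) * r ^ ((5 : ℝ) / 3)
        ≤ (a + b) ^ ((5 : ℝ) / 3) * (δ + 1 / δ' * r ^ 2) :=
          mul_le_mul_of_nonneg_left (hr r hr0 hr1) hS.le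
      _ = δ * (a + b) ^ ((5 : ℝ) / 3) + 1 / δ' * ((a + b) ^ ((5 : ℝ) / 3) * r ^ 2) := by ring
      _ ≤ ε * (a ^ ((5 : ℝ) / 3) + b ^ ((5 : ℝ) / 3)) +
          1 / δ' * (3 * 2 ^ ((5 : ℝ) / 3)) * dft a b := by
          apply add_le_add
          · calc δ * (a + b) ^ ((5 : ℝ) / 3)
                ≤ δ * (2 * (a ^ ((5 : ℝ) / 3) + b ^ ((5 : ℝ) / 3))) :=
                  mul_le_mul_of_nonneg_left e3 hδ0.le
              _ = ε * (a ^ ((5 : ℝ) / 3) + b ^ ((5 : ℝ) / 3)) := by rw [hδ]; ring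
          · rw [mul_assoc]
            apply mul_le_mul_of_nonneg_left _ (by positivity)
            rw [e2]
            have h5 : 0 < (2 : ℝ) ^ ((5 : ℝ) / 3) := by positivity
            nlinarith

/-- `b^{5/3} - a^{5/3} ≤ 2 (b - a) b^{2/3}` for `0 ≤ a ≤ b`. -/
lemma pow53_diff {a b : ℝ} (ha : 0 ≤ a) (hab : a ≤ b) :
    b ^ ((5 : ℝ) / 3) - a ^ ((5 : ℝ) / 3) ≤ 2 * (b - a) * b ^ ((2 : ℝ) / 3) := by
  rcases eq_or_lt_of_le (ha.trans hab) with h | h
  · have : a = 0 := le_antisymm (by linarith) ha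
    rw [this, ← h]
    simp [Real.zero_rpow]
  · have e1 : b ^ ((5 : ℝ) / 3) = b * b ^ ((2 : ℝ) / 3) := by
      rw [← Real.rpow_one_add' h.le (by norm_num)]; norm_num
    have e2 : a / b * b ^ ((2 : ℝ) / 3) * a ≤ a ^ ((5 : ℝ) / 3) := by
      rcases eq_or_lt_of_le ha with h0 | h0
      · rw [← h0]; simp [Real.zero_rpow]
      · have e3 : a ^ ((5 : ℝ) / 3) = a ^ ((2 : ℝ) / 3) * a := by
          rw [mul_comm, ← Real.rpow_one_add' h0.le (by norm_num)]; norm_num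
        rw [e3]
        apply mul_le_mul_of_nonneg_right _ ha
        have h1 : a / b ≤ (a / b) ^ ((2 : ℝ) / 3) := by
          have h2 : a / b ≤ 1 := by rw [div_le_one h]; exact hab
          calc a / b = (a / b) ^ (1 : ℝ) := (Real.rpow_one _).symm
            _ ≤ (a / b) ^ ((2 : ℝ) / 3) :=
              Real.rpow_le_rpow_of_exponent_ge (by positivity) h2 (by norm_num)
        calc a / b * b ^ ((2 : ℝ) / 3) ≤ (a / b) ^ ((2 : ℝ) / 3) * b ^ ((2 : ℝ) / 3) :=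
              mul_le_mul_of_nonneg_right h1 (Real.rpow_nonneg h.le _)
          _ = a ^ ((2 : ℝ) / 3) := by
              rw [← Real.mul_rpow (by positivity) h.le]
              congr 1
              field_simp
    have hB : 0 ≤ b ^ ((2 : ℝ) / 3) := Real.rpow_nonneg h.le _
    have e4 : b - a / b * a ≤ 2 * (b - a) := by
      have : b - a / b * a = (b - a) * ((b + a) / b) := by field_simp; ring
      rw [this]
      have h3 : (b + a) / b ≤ 2 := by rw [div_le_iff₀ h]; linarith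
      nlinarith
    calc b ^ ((5 : ℝ) / 3) - a ^ ((5 : ℝ) / 3) ≤ b * b ^ ((2 : ℝ) / 3) -
          a / b * b ^ ((2 : ℝ) / 3) * a := by rw [e1]; linarith
      _ = (b - a / b * a) * b ^ ((2 : ℝ) / 3) := by ring
      _ ≤ 2 * (b - a) * b ^ ((2 : ℝ) / 3) := mul_le_mul_of_nonneg_right e4 hB

end Pool.Agent.X91.TW
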