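import Pool.Agent.X91.TW.Ex1

/-!
# Existence of minimisers under a mass bound
-/

set_option autoImplicit false

open MeasureTheory Set Filter Topology
open scoped RealInnerProductSpace ContDiff ENNReal

namespace Pool.Agent.X91.TW

open Pool.Agent.Helper436.TFW (Adm Kin Pot TFe Mass Dir DirH UB cross_int)
open Pool.Agent.Helper557.TFP (Nice pot nice_bound TF_E1_meas TF_E1_bdd TF_E1_int TF_E1_dbl
  TF_E1_symm TF_E1_potsub TF_nice_decay_young TF_nice_modulus_int)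

/-- the exponent `5/3` -/
noncomputable def q53 : ℝ≥0∞ := ENNReal.ofReal (5 / 3)

lemma q53_toReal : q53.toReal = 5 / 3 := ENNReal.toReal_ofReal (by norm_num)
lemma q53_ne_zero : q53 ≠ 0 := by
  unfold q53; simp
lemma q53_ne_top : q53 ≠ ⊤ := ENNReal.ofReal_ne_top
instance q53_fact : Fact (1 ≤ q53) := ⟨by
  unfold q53
  rw [← ENNReal.ofReal_one]
  exact ENNReal.ofReal_le_ofReal (by norm_num)⟩

lemma nrm {f : E3 → ℝ} (hf : MemLp f q53) :
    ‖hf.toLp f‖ = (∫ x, |f x| ^ ((5 : ℝ) / 3)) ^ ((3 : ℝ) / 5) := by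
  rw [Lp.norm_toLp, hf.eLpNorm_eq_integral_rpow_norm q53_ne_zero q53_ne_top, q53_toReal,
    ENNReal.toReal_ofReal (by positivity)]
  norm_num

lemma nrm' {f : E3 → ℝ} (hf : MemLp f q53) :
    ∫ x, |f x| ^ ((5 : ℝ) / 3) = ‖hf.toLp f‖ ^ ((5 : ℝ) / 3) := by
  rw [nrm, ← Real.rpow_mul (integral_nonneg fun x => by positivity)]
  norm_num

lemma int53_of {f : E3 → ℝ} (hf : MemLp f q53) : Integrable (fun x => |f x| ^ ((5 : ℝ) / 3)) := by
  have := hf.integrable_norm_rpow q53_ne_zero q53_ne_top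
  simpa only [q53_toReal, Real.norm_eq_abs] using this

/-- splitting of the Coulomb kernel -/
lemma kern_split {s T : ℝ} (hs0 : 0 < s) (hs1 : s ≤ 1) (hT : 1 ≤ T) {d : ℝ} (hd : 0 ≤ d) (u : E3) :
    d / ‖u‖ ≤ (s⁻¹) ^ (5/3:ℝ) * d ^ (5/3:ℝ) +
      s * ((Metric.ball (0:E3) 1).indicator (fun u : E3 => ‖u‖ ^ (-(5/2) : ℝ)) u +
        (Metric.ball (0:E3) T).indicator (fun _ => (1:ℝ)) u) + 1 / T * d := by
  have hn := norm_nonneg u
  have p1 : 0 ≤ (s⁻¹) ^ (5/3:ℝ) * d ^ (5/3:ℝ) := by positivity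
  have p2 : 0 ≤ (Metric.ball (0:E3) 1).indicator (fun u : E3 => ‖u‖ ^ (-(5/2) : ℝ)) u :=
    indicator_nonneg (fun _ _ => by positivity) _
  have p3 : 0 ≤ (Metric.ball (0:E3) T).indicator (fun _ => (1:ℝ)) u :=
    indicator_nonneg (fun _ _ => by norm_num) _
  have p4 : 0 ≤ 1 / T * d := by positivity
  rcases lt_or_ge ‖u‖ 1 with h | h
  · have e1 : (Metric.ball (0:E3) 1).indicator (fun u : E3 => ‖u‖ ^ (-(5/2) : ℝ)) u =
        ‖u‖ ^ (-(5/2) : ℝ) := indicator_of_mem (by simpa using h) _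
    have h1 := TF_nice_decay_young d ‖u‖ s hd hn hs0 hs1
    rw [e1]
    have : 0 ≤ s * (Metric.ball (0:E3) T).indicator (fun _ => (1:ℝ)) u := mul_nonneg hs0.le p3
    linarith
  · rcases lt_or_ge ‖u‖ T with h' | h'
    · have e1 : (Metric.ball (0:E3) T).indicator (fun _ => (1:ℝ)) u = 1 :=
        indicator_of_mem (by simpa using h') _
      have h1 := TF_nice_decay_young d 1 s hd zero_le_one hs0 hs1
      rw [Real.one_rpow, div_one] at h1
      have h2 : d / ‖u‖ ≤ d := div_le_self hd h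
      rw [e1]
      have : 0 ≤ s * (Metric.ball (0:E3) 1).indicator (fun u : E3 => ‖u‖ ^ (-(5/2) : ℝ)) u :=
        mul_nonneg hs0.le p2
      linarith
    · have h2 : d / ‖u‖ ≤ 1 / T * d := by
        rw [one_div, inv_mul_eq_div]
        exact div_le_div_of_nonneg_left hd (by linarith) h'
      have : 0 ≤ s * ((Metric.ball (0:E3) 1).indicator (fun u : E3 => ‖u‖ ^ (-(5/2) : ℝ)) u +
        (Metric.ball (0:E3) T).indicator (fun _ => (1:ℝ)) u) := by positivity
      linarith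

/-- convergence of the attraction -/
lemma pot_conv {f : ℕ → E3 → ℝ} {ρ : E3 → ℝ} (hf : ∀ n, Nice (f n)) (hρ : Nice ρ) {Λ : ℝ}
    (hfΛ : ∀ n, ∫ x, |f n x - ρ x| ≤ Λ)
    (hfn : ∀ n, MemLp (fun x => f n x - ρ x) q53)
    (h53 : Tendsto (fun n => ∫ x, |f n x - ρ x| ^ ((5 : ℝ) / 3)) atTop (𝓝 0)) (a : E3) :
    Tendsto (fun n => pot (f n) a) atTop (𝓝 (pot ρ a)) := by
  have hΛ : 0 ≤ Λ := (integral_nonneg fun x => abs_nonneg _).trans (hfΛ 0)
  set J1 := ∫ x : E3, (Metric.ball (0:E3) 1).indicator (fun u : E3 => ‖u‖ ^ (-(5/2) : ℝ)) (x - a)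
    with hJ1
  have iJ1 : Integrable (fun x : E3 =>
      (Metric.ball (0:E3) 1).indicator (fun u : E3 => ‖u‖ ^ (-(5/2) : ℝ)) (x - a)) :=
    (TF_nice_modulus_int.integrable_indicator measurableSet_ball).comp_sub_right a
  have hJ10 : 0 ≤ J1 := integral_nonneg fun x => indicator_nonneg (fun _ _ => by positivity) _
  rw [Metric.tendsto_atTop]
  intro ε hε
  set T := max 1 (4 * Λ / ε) with hT
  have hT1 : 1 ≤ T := le_max_left _ _
  have hT2 : 1 / T * Λ ≤ ε / 4 := by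
    have : 4 * Λ / ε ≤ T := le_max_right _ _
    rw [div_le_iff₀ hε] at this
    rw [one_div, inv_mul_eq_div, div_le_div_iff₀ (by linarith) (by norm_num)]
    linarith
  set J2 := ∫ x : E3, (Metric.ball (0:E3) T).indicator (fun _ => (1:ℝ)) (x - a) with hJ2
  have iJ2 : Integrable (fun x : E3 => (Metric.ball (0:E3) T).indicator (fun _ => (1:ℝ)) (x - a)) := by
    have : IntegrableOn (fun _ : E3 => (1:ℝ)) (Metric.ball (0:E3) T) :=
      integrableOn_const (measure_ball_lt_top.ne)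
    exact (this.integrable_indicator measurableSet_ball).comp_sub_right a
  have hJ20 : 0 ≤ J2 := integral_nonneg fun x => indicator_nonneg (fun _ _ => by norm_num) _
  set s := min 1 (ε / (4 * (J1 + J2 + 1))) with hs
  have hs0 : 0 < s := lt_min one_pos (by positivity)
  have hs1 : s ≤ 1 := min_le_left _ _
  have hs2 : s * (J1 + J2) ≤ ε / 4 := by
    have : s ≤ ε / (4 * (J1 + J2 + 1)) := min_le_right _ _
    calc s * (J1 + J2) ≤ ε / (4 * (J1 + J2 + 1)) * (J1 + J2) :=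
          mul_le_mul_of_nonneg_right this (by positivity)
      _ ≤ ε / 4 := by
        rw [div_mul_eq_mul_div, div_le_div_iff₀ (by positivity) (by norm_num)]
        nlinarith
  have h1 : Tendsto (fun n => (s⁻¹) ^ (5/3:ℝ) * ∫ x, |f n x - ρ x| ^ ((5 : ℝ) / 3)) atTop (𝓝 0) := by
    simpa using h53.const_mul ((s⁻¹) ^ (5/3:ℝ))
  obtain ⟨N, hN⟩ := eventually_atTop.mp (h1.eventually (gt_mem_nhds (by positivity : (0:ℝ) < ε / 4)))
  refine ⟨N, fun n hn => ?_⟩
  have hNn := hN n hn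
  rw [Real.dist_eq, ← pot_eq, ← pot_eq, ← integral_sub (pot_int_of_nice (hf n) a)
    (pot_int_of_nice hρ a)]
  have i0 : Integrable (fun x => f n x / ‖x - a‖ - ρ x / ‖x - a‖) :=
    (pot_int_of_nice (hf n) a).sub (pot_int_of_nice hρ a)
  have i1 := int53_of (hfn n)
  have i2 : Integrable (fun x => |f n x - ρ x|) := ((hf n).2.1.sub hρ.2.1).abs
  have h2 : |∫ x, (f n x / ‖x - a‖ - ρ x / ‖x - a‖)| ≤
      (s⁻¹) ^ (5/3:ℝ) * (∫ x, |f n x - ρ x| ^ ((5 : ℝ) / 3)) + s * (J1 + J2) +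
        1 / T * ∫ x, |f n x - ρ x| := by
    refine abs_integral_le_integral_abs.trans ?_
    rw [hJ1, hJ2, ← integral_add iJ1 iJ2, ← integral_const_mul, ← integral_const_mul,
      ← integral_const_mul]
    have iJ : Integrable (fun x : E3 => s * ((Metric.ball (0:E3) 1).indicator
        (fun u : E3 => ‖u‖ ^ (-(5/2) : ℝ)) (x - a) +
        (Metric.ball (0:E3) T).indicator (fun _ => (1:ℝ)) (x - a))) := (iJ1.add iJ2).const_mul s
    have iA : Integrable (fun x : E3 => (s⁻¹) ^ (5/3:ℝ) * |f n x - ρ x| ^ ((5 : ℝ) / 3)) :=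
      i1.const_mul _
    have iAJ : Integrable (fun x : E3 => (s⁻¹) ^ (5/3:ℝ) * |f n x - ρ x| ^ ((5 : ℝ) / 3) +
        s * ((Metric.ball (0:E3) 1).indicator
        (fun u : E3 => ‖u‖ ^ (-(5/2) : ℝ)) (x - a) +
        (Metric.ball (0:E3) T).indicator (fun _ => (1:ℝ)) (x - a))) := iA.add iJ
    rw [← integral_add iA iJ, ← integral_add iAJ (i2.const_mul _)]
    refine integral_mono i0.abs (iAJ.add (i2.const_mul _)) fun x => ?_
    simp only
    have := kern_split hs0 hs1 hT1 (abs_nonneg (f n x - ρ x)) (x - a)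
    calc |f n x / ‖x - a‖ - ρ x / ‖x - a‖| = |f n x - ρ x| / ‖x - a‖ := by
          rw [← sub_div, abs_div, abs_norm]
      _ ≤ _ := this
  have h3 : 1 / T * ∫ x, |f n x - ρ x| ≤ ε / 4 := by
    refine le_trans (mul_le_mul_of_nonneg_left (hfΛ n) (by positivity)) hT2
  linarith

end Pool.Agent.X91.TW
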