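import Pool.Agent.X91.TW.Ex2

/-!
# Existence of minimisers under a mass bound, end
-/

set_option autoImplicit false

open MeasureTheory Set Filter Topology
open scoped RealInnerProductSpace ContDiff ENNReal

namespace Pool.Agent.X91.TW

open Pool.Agent.Helper436.TFW (Adm Kin Pot TFe Mass Dir DirH UB cross_int dir_eq_prod)
open Pool.Agent.Helper557.TFP (Nice pot nice_bound TF_E1_meas TF_E1_bdd TF_E1_int TF_E1_dbl
  TF_E1_symm TF_E1_potsub TF_nice_decay_young TF_nice_modulus_int)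

lemma tst_zero : Tst (fun _ : E3 => (0:ℝ)) := ⟨contDiff_const, HasCompactSupport.zero, fun _ => le_rfl⟩

/-- every `C¹` function may be replaced by a nonnegative one -/
lemma nonneg_rep {k : ℕ} (z : Fin k → ℝ) (hz : ∀ i, 0 ≤ z i) (R : Fin k → E3) {u : E3 → ℝ}
    (hu : Adm u) {ε : ℝ} (hε : 0 < ε) : ∃ ψ : E3 → ℝ, Adm ψ ∧ (∀ x, 0 ≤ ψ x) ∧
      Mass ψ ≤ Mass u ∧ En z R ψ ≤ En z R u + ε := by
  obtain ⟨κ, hκ, _, h1, h2, h3⟩ := var_ineq hu tst_zero le_rfl z hz R hε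
  refine ⟨_, h1, fun x => mm_nonneg (fun _ => le_rfl) le_rfl hκ x, ?_, ?_⟩
  · simpa using h2
  · simpa using h3

lemma prod_int {ρ : E3 → ℝ} (hρ : Nice ρ) (h0 : ∀ x, 0 ≤ ρ x) :
    Integrable (fun z : E3 × E3 => ρ z.1 * ρ z.2 / ‖z.1 - z.2‖)
      ((volume : Measure E3).prod volume) := by
  obtain ⟨B, hB'⟩ := nice_bound ρ hρ
  have hB : ∀ a, Integrable (fun x => ρ x / ‖x - a‖) ∧ ∫ x, ρ x / ‖x - a‖ ≤ B := by
    intro a
    refine ⟨pot_int_of_nice hρ a, ?_⟩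
    have := (hB' a).2
    simp only [abs_of_nonneg (h0 _)] at this
    rw [pot_eq]
    exact this
  have hi := hρ.2.1
  have hρρ : Integrable (fun z : E3 × E3 => ρ z.1 * ρ z.2)
    ((volume : Measure E3).prod volume) := hi.mul_prod hi
  have hm : AEStronglyMeasurable (fun z : E3 × E3 => ρ z.1 * ρ z.2 / ‖z.1 - z.2‖)
      ((volume : Measure E3).prod volume) := by
    have h1 : Measurable (fun z : E3 × E3 => ‖z.1 - z.2‖⁻¹) :=
      (measurable_fst.sub measurable_snd).norm.inv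
    exact hρρ.aestronglyMeasurable.mul h1.aestronglyMeasurable
  rw [integrable_prod_iff hm]
  have hcongr : ∀ x y : E3, ρ x * ρ y / ‖x - y‖ = ρ x * (ρ y / ‖y - x‖) := by
    intro x y
    rw [norm_sub_rev]; ring
  constructor
  · refine ae_of_all _ fun x => ?_
    refine ((hB x).1.const_mul (ρ x)).congr (ae_of_all _ fun y => ?_)
    exact (hcongr x y).symm
  · refine (hi.mul_const B).mono' hm.norm.integral_prod_right' (ae_of_all _ fun x => ?_)
    have hnn : ∀ y, 0 ≤ ρ x * ρ y / ‖x - y‖ := fun y =>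
      div_nonneg (mul_nonneg (h0 x) (h0 y)) (norm_nonneg _)
    rw [Real.norm_of_nonneg (integral_nonneg fun y => norm_nonneg _)]
    have h2 : ∫ y, ‖ρ x * ρ y / ‖x - y‖‖ = ρ x * ∫ y, ρ y / ‖y - x‖ := by
      rw [← integral_const_mul]
      refine integral_congr_ae (ae_of_all _ fun y => ?_)
      show ‖ρ x * ρ y / ‖x - y‖‖ = _
      rw [Real.norm_of_nonneg (hnn y), hcongr]
    show ∫ y, ‖ρ x * ρ y / ‖x - y‖‖ ≤ ρ x * B
    rw [h2]
    exact mul_le_mul_of_nonneg_left (hB x).2 (h0 x)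

/-- `|a - √b| ≤ s + s^{-7/3} |a² - b|^{5/3}` -/
lemma root_diff {a b s : ℝ} (ha : 0 ≤ a) (hb : 0 ≤ b) (hs : 0 < s) :
    |a - √b| ≤ s + s⁻¹ ^ 3 * s ^ ((2:ℝ)/3) * |a ^ 2 - b| ^ ((5:ℝ)/3) := by
  set y := |a - √b| with hy
  have hy0 : 0 ≤ y := abs_nonneg _
  have h1 : y ^ 2 ≤ |a ^ 2 - b| := by
    have e1 : a ^ 2 - b = (a - √b) * (a + √b) := by
      have := Real.sq_sqrt hb
      nlinarith
    rw [e1, abs_mul, hy, sq]
    apply mul_le_mul_of_nonneg_left _ (abs_nonneg _)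
    rw [abs_of_nonneg (by positivity : 0 ≤ a + √b)]
    rw [abs_le]
    constructor <;> linarith [Real.sqrt_nonneg b]
  have h2 : y ^ ((10:ℝ)/3) ≤ |a ^ 2 - b| ^ ((5:ℝ)/3) := by
    calc y ^ ((10:ℝ)/3) = (y ^ 2) ^ ((5:ℝ)/3) := by
          rw [← Real.rpow_natCast y 2, ← Real.rpow_mul hy0]; norm_num
      _ ≤ _ := Real.rpow_le_rpow (sq_nonneg _) h1 (by norm_num)
  rcases le_total y s with h | h
  · have : 0 ≤ s⁻¹ ^ 3 * s ^ ((2:ℝ)/3) * |a ^ 2 - b| ^ ((5:ℝ)/3) := by positivity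
    linarith
  · have h3 : y ≤ s⁻¹ ^ 3 * s ^ ((2:ℝ)/3) * y ^ ((10:ℝ)/3) := by
      have hyp : 0 < y := lt_of_lt_of_le hs h
      have e1 : s⁻¹ ^ 3 * s ^ ((2:ℝ)/3) = s ^ (-(7:ℝ)/3) := by
        rw [inv_pow, ← Real.rpow_natCast s 3, ← Real.rpow_neg hs.le, ← Real.rpow_add hs]
        norm_num
      have e2 : y ^ ((10:ℝ)/3) = y * y ^ ((7:ℝ)/3) := by
        rw [← Real.rpow_one_add' hy0 (by norm_num)]; norm_num
      rw [e1, e2]
      have e3 : 1 ≤ s ^ (-(7:ℝ)/3) * y ^ ((7:ℝ)/3) := by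
        have e4 : s ^ (-(7:ℝ)/3) * s ^ ((7:ℝ)/3) = 1 := by
          rw [← Real.rpow_add hs]; norm_num
        rw [← e4]
        apply mul_le_mul_of_nonneg_left _ (Real.rpow_nonneg hs.le _)
        exact Real.rpow_le_rpow hs.le h (by norm_num)
      calc y = y * 1 := (mul_one y).symm
        _ ≤ y * (s ^ (-(7:ℝ)/3) * y ^ ((7:ℝ)/3)) := mul_le_mul_of_nonneg_left e3 hy0
        _ = _ := by ring
    have h4 : s⁻¹ ^ 3 * s ^ ((2:ℝ)/3) * y ^ ((10:ℝ)/3) ≤
        s⁻¹ ^ 3 * s ^ ((2:ℝ)/3) * |a ^ 2 - b| ^ ((5:ℝ)/3) :=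
      mul_le_mul_of_nonneg_left h2 (by positivity)
    linarith

/-- convergence against test functions -/
lemma test_conv {φ : ℕ → E3 → ℝ} (hφ : ∀ n, Adm (φ n)) (hφ0 : ∀ n x, 0 ≤ φ n x) {ρ : E3 → ℝ}
    (hρ0 : ∀ x, 0 ≤ ρ x) (hρi : Integrable ρ) (hρm : Measurable ρ)
    (hfn : ∀ n, MemLp (fun x => φ n x ^ 2 - ρ x) q53)
    (h53 : Tendsto (fun n => ∫ x, |φ n x ^ 2 - ρ x| ^ ((5 : ℝ) / 3)) atTop (𝓝 0))
    {g : E3 → ℝ} (hg : Continuous g) (hgc : HasCompactSupport g) :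
    Tendsto (fun n => ∫ x, φ n x * g x) atTop (𝓝 (∫ x, √(ρ x) * g x)) := by
  obtain ⟨M, hM⟩ := hgc.exists_bound_of_continuous hg
  have hM0 : 0 ≤ M := (norm_nonneg _).trans (hM 0)
  have hgi : Integrable g := hg.integrable_of_hasCompactSupport hgc
  set G := ∫ x, |g x| with hG
  have hG0 : 0 ≤ G := integral_nonneg fun x => abs_nonneg _
  have hr2 : MemLp (fun x => √(ρ x)) 2 := by
    rw [memLp_two_iff_integrable_sq (hρm.sqrt.aestronglyMeasurable)]
    simpa only [Real.sq_sqrt (hρ0 _)] using hρi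
  have hrg : Integrable (fun x => √(ρ x) * g x) := by
    have := (hr2.locallyIntegrable (by norm_num)).integrable_smul_right_of_hasCompactSupport hg hgc
    simpa [smul_eq_mul, mul_comm] using this
  rw [Metric.tendsto_atTop]
  intro ε hε
  set s := ε / (4 * (G + 1)) with hs
  have hs0 : 0 < s := by positivity
  have hs2 : s * G ≤ ε / 4 := by
    rw [hs, div_mul_eq_mul_div, div_le_div_iff₀ (by positivity) (by norm_num)]
    nlinarith
  set c := s⁻¹ ^ 3 * s ^ ((2:ℝ)/3) with hc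
  have hc0 : 0 ≤ c := by positivity
  have h1 : Tendsto (fun n => c * M * ∫ x, |φ n x ^ 2 - ρ x| ^ ((5 : ℝ) / 3)) atTop (𝓝 0) := by
    simpa using h53.const_mul (c * M)
  obtain ⟨N, hN⟩ := eventually_atTop.mp (h1.eventually (gt_mem_nhds (by positivity : (0:ℝ) < ε / 4)))
  refine ⟨N, fun n hn => ?_⟩
  have hNn := hN n hn
  have hpg : Integrable (fun x => φ n x * g x) :=
    ((hφ n).cont.mul hg).integrable_of_hasCompactSupport hgc.mul_left
  rw [Real.dist_eq, ← integral_sub hpg hrg]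
  have i1 := int53_of (hfn n)
  have i2 : Integrable (fun x => s * |g x|) := hgi.abs.const_mul s
  have i3 : Integrable (fun x => c * M * |φ n x ^ 2 - ρ x| ^ ((5 : ℝ) / 3)) := i1.const_mul _
  have h2 : |∫ x, (φ n x * g x - √(ρ x) * g x)| ≤
      s * G + c * M * ∫ x, |φ n x ^ 2 - ρ x| ^ ((5 : ℝ) / 3) := by
    refine abs_integral_le_integral_abs.trans ?_
    rw [hG, ← integral_const_mul, ← integral_const_mul, ← integral_add i2 i3]
    refine integral_mono (hpg.sub hrg).abs (i2.add i3) fun x => ?_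
    simp only [Pi.sub_apply]
    have h3 := root_diff (hφ0 n x) (hρ0 x) hs0
    rw [← hc] at h3
    have h4 : |g x| ≤ M := by simpa using hM x
    have h5 : 0 ≤ |φ n x ^ 2 - ρ x| ^ ((5 : ℝ) / 3) := by positivity
    calc |φ n x * g x - √(ρ x) * g x| = |φ n x - √(ρ x)| * |g x| := by
          rw [← sub_mul, abs_mul]
      _ ≤ (s + c * |φ n x ^ 2 - ρ x| ^ ((5 : ℝ) / 3)) * |g x| :=
          mul_le_mul_of_nonneg_right h3 (abs_nonneg _)
      _ = s * |g x| + c * |φ n x ^ 2 - ρ x| ^ ((5 : ℝ) / 3) * |g x| := by ring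
      _ ≤ s * |g x| + c * |φ n x ^ 2 - ρ x| ^ ((5 : ℝ) / 3) * M := by gcongr
      _ = _ := by ring
  linarith

/-- **Existence of a minimiser under a mass bound.** -/
theorem exist {k : ℕ} (z : Fin k → ℝ) (hz : ∀ i, 0 ≤ z i) (R : Fin k → E3) {Λ : ℝ} (hΛ : 0 ≤ Λ) :
    ∃ (ρ : E3 → ℝ) (g : E3 → E3), AP ρ g ∧ ∫ x, ρ x ≤ Λ ∧
      ∀ u, Adm u → Mass u ≤ Λ → ET z R ρ g ≤ En z R u := by
  set S : Set ℝ := {e | ∃ u, Adm u ∧ Mass u ≤ Λ ∧ En z R u = e} with hS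
  have hSne : S.Nonempty := by
    refine ⟨En z R (fun _ => (0:ℝ)), fun _ => (0:ℝ), ⟨contDiff_const, HasCompactSupport.zero⟩,
      ?_, rfl⟩
    have e0 : Mass (fun _ => (0:ℝ)) = 0 := by
      unfold Mass
      norm_num
    rw [e0]
    exact hΛ
  have hSb : BddBelow S := by
    refine ⟨-((∑ i, z i) ^ 2 * Λ / 2 + 3 / 2 * (∑ i, z i) * Λ), ?_⟩
    rintro e ⟨u, hu, hm, rfl⟩
    have h1 := coer z hz R hu hm
    have h2 : 0 ≤ Kin u := Pool.Agent.Helper436.TFW.kin_nonneg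
    have h3 : 0 ≤ TFe u := Pool.Agent.Helper436.TFW.tf_nonneg
    linarith
  set I := sInf S with hI'
  have hI : ∀ u, Adm u → Mass u ≤ Λ → I ≤ En z R u := fun u hu hm =>
    csInf_le hSb ⟨u, hu, hm, rfl⟩
  have hex : ∀ n : ℕ, ∃ ψ : E3 → ℝ, Adm ψ ∧ (∀ x, 0 ≤ ψ x) ∧ Mass ψ ≤ Λ ∧
      En z R ψ ≤ I + 1 / ((n : ℝ) + 1) := by
    intro n
    have hn : (0:ℝ) < 1 / (2 * ((n : ℝ) + 1)) := by positivity
    obtain ⟨e, ⟨u, hu, hm, rfl⟩, he⟩ := exists_lt_of_csInf_lt hSne (lt_add_of_pos_right I hn)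
    obtain ⟨ψ, h1, h2, h3, h4⟩ := nonneg_rep z hz R hu hn
    refine ⟨ψ, h1, h2, h3.trans hm, ?_⟩
    have : 1 / (2 * ((n : ℝ) + 1)) + 1 / (2 * ((n : ℝ) + 1)) = 1 / ((n : ℝ) + 1) := by
      field_simp; ring
    linarith
  choose ψ hψ hψ0 hψm hψE using hex
  have hmem : ∀ n, MemLp (fun x => ψ n x ^ 2) q53 := fun n =>
    (hψ n).sq_cont.memLp_of_hasCompactSupport (hψ n).sq_cs
  set f : ℕ → Lp ℝ q53 (volume : Measure E3) := fun n => (hmem n).toLp _ with hf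
  have hcau : CauchySeq f := by
    rw [Metric.cauchySeq_iff']
    intro ε hε
    obtain ⟨δ, hδ, hcauδ⟩ := cau z hz R hI (η := (ε / 2) ^ ((5:ℝ)/3)) (by positivity)
    obtain ⟨N, hN⟩ := exists_nat_one_div_lt hδ
    refine ⟨N, fun n hn => ?_⟩
    have hnE : ∀ m, N ≤ m → En z R (ψ m) ≤ I + δ := by
      intro m hm
      refine (hψE m).trans ?_
      have : 1 / ((m : ℝ) + 1) ≤ 1 / ((N : ℝ) + 1) := by
        apply one_div_le_one_div_of_le (by positivity)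
        have : (N : ℝ) ≤ m := by exact_mod_cast hm
        linarith
      linarith
    have h1 := hcauδ (ψ n) (ψ N) (hψ n) (hψ N) (hψm n) (hψm N) (hnE n hn) (hnE N le_rfl)
    rw [dist_eq_norm]
    have e1 : f n - f N = ((hmem n).sub (hmem N)).toLp _ := (MemLp.toLp_sub _ _).symm
    rw [e1, nrm]
    have h2 : (∫ x, |((fun x => ψ n x ^ 2) - fun x => ψ N x ^ 2) x| ^ ((5:ℝ)/3)) ^ ((3:ℝ)/5) ≤
        ((ε / 2) ^ ((5:ℝ)/3)) ^ ((3:ℝ)/5) :=
      Real.rpow_le_rpow (integral_nonneg fun x => by positivity) h1 (by norm_num)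
    rw [← Real.rpow_mul (by positivity)] at h2
    norm_num at h2
    refine lt_of_le_of_lt ?_ (half_lt_self hε)
    refine le_trans (le_of_eq ?_) h2
    congr 1
  obtain ⟨F, hF⟩ := cauchySeq_tendsto_of_complete hcau
  obtain ⟨ns, hns, hae⟩ := (tendstoInMeasure_of_tendsto_Lp hF).exists_seq_tendsto_ae
  have hfcoe : ∀ᵐ x, ∀ n, f n x = ψ n x ^ 2 := by
    rw [ae_all_iff]
    exact fun n => (hmem n).coeFn_toLp
  set ρ : E3 → ℝ := fun x => max (F x) 0 with hρ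
  have hρ0 : ∀ x, 0 ≤ ρ x := fun x => le_max_right _ _
  have hρm : Measurable ρ := (Lp.stronglyMeasurable F).measurable.max measurable_const
  have hFρ : ∀ᵐ x, F x = ρ x := by
    filter_upwards [hae, hfcoe] with x h1 h2
    have h3 : 0 ≤ F x := ge_of_tendsto' h1 fun i => by rw [h2]; positivity
    rw [hρ]
    simp only
    rw [max_eq_left h3]
  set φ : ℕ → E3 → ℝ := fun i => ψ (ns i) with hφ'
  have hφ : ∀ i, Adm (φ i) := fun i => hψ _
  have hφ0 : ∀ i x, 0 ≤ φ i x := fun i => hψ0 _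
  have hφm : ∀ i, Mass (φ i) ≤ Λ := fun i => hψm _
  have hlim : ∀ᵐ x, Tendsto (fun i => φ i x ^ 2) atTop (𝓝 (ρ x)) := by
    filter_upwards [hae, hfcoe, hFρ] with x h1 h2 h3
    rw [← h3]
    exact h1.congr fun i => h2 _
  have hFmem : MemLp (F : E3 → ℝ) q53 := Lp.memLp F
  have hρmem : MemLp ρ q53 := (memLp_congr_ae hFρ).mp hFmem
  have hdmem : ∀ i, MemLp (fun x => φ i x ^ 2 - ρ x) q53 := fun i => (hmem (ns i)).sub hρmem
  have h53 : Tendsto (fun i => ∫ x, |φ i x ^ 2 - ρ x| ^ ((5 : ℝ) / 3)) atTop (𝓝 0) := by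
    have h1 : Tendsto (fun i => ‖f (ns i) - F‖ ^ ((5 : ℝ) / 3)) atTop (𝓝 0) := by
      have h2 : Tendsto (fun i => ‖f (ns i) - F‖) atTop (𝓝 0) :=
        tendsto_iff_norm_sub_tendsto_zero.mp (hF.comp hns.tendsto_atTop)
      have h3 := h2.rpow_const (p := (5:ℝ)/3) (Or.inr (by norm_num))
      rwa [Real.zero_rpow (by norm_num)] at h3
    refine h1.congr fun i => ?_
    rw [nrm' (hdmem i)]
    congr 1
    congr 1
    have e1 : F = hρmem.toLp ρ := by
      rw [← Lp.toLp_coeFn F hFmem]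
      exact (MemLp.toLp_eq_toLp_iff _ _).mpr hFρ
    rw [e1]
    exact (MemLp.toLp_sub _ _).symm
  have hfat := Pool.Agent.Helper149.Fatou.fatou_real (μ := (volume : Measure E3))
    (fun i x => φ i x ^ 2) ρ Λ (fun i x => sq_nonneg _) (fun i => (hφ i).sq_int) hφm hlim
  have hρ53 : Integrable (fun x => ρ x ^ (5/3 : ℝ)) := by
    simpa only [abs_of_nonneg (hρ0 _)] using int53_of hρmem
  have hρn : Nice ρ := ⟨hρm, hfat.1, by simpa only [abs_of_nonneg (hρ0 _)] using hρ53⟩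
  -- attraction converges
  have hpot : ∀ a, Tendsto (fun i => Pot a (φ i)) atTop (𝓝 (pot ρ a)) := by
    intro a
    simp only [Pot_eq_pot]
    refine pot_conv (Λ := 2 * Λ) (fun i => adm_nice (hφ i)) hρn (fun i => ?_) hdmem h53 a
    have h1 : ∫ x, |φ i x ^ 2 - ρ x| ≤ ∫ x, (φ i x ^ 2 + ρ x) := by
      refine integral_mono ((hφ i).sq_int.sub hfat.1).abs ((hφ i).sq_int.add hfat.1) fun x => ?_
      simp only [Pi.sub_apply]
      rw [abs_le]
      constructor <;> nlinarith [sq_nonneg (φ i x), hρ0 x]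
    rw [integral_add (hφ i).sq_int hfat.1] at h1
    have h2 := hφm i
    unfold Mass at h2
    linarith [hfat.2]
  set Kinf := I - 3 / 5 * (∫ x, ρ x ^ (5/3 : ℝ)) - 1 / 2 * (∫ x, ∫ y, ρ x * ρ y / ‖x - y‖) +
    ∑ i, z i * pot ρ (R i) with hKinf
  have hKin : ∀ ε : ℝ, 0 < ε → ∀ᶠ i in atTop, Kin (φ i) ≤ Kinf + ε := by
    intro ε hε
    have h1 : ∀ᶠ i in atTop, (∫ x, ρ x ^ (5/3 : ℝ)) - ε / 4 < TFe (φ i) := by
      refine fatou_ev (fun i x => by positivity) (fun i => (hφ i).tf_int) hρ53 ?_ (by positivity)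
      filter_upwards [hlim] with x hx
      have h2 := hx.rpow_const (p := (5:ℝ)/3) (Or.inr (by norm_num))
      refine h2.congr fun i => ?_
      rw [Pool.Agent.Helper436.TFW.rpow_aux]
    have h2 : ∀ᶠ i in atTop, (∫ x, ∫ y, ρ x * ρ y / ‖x - y‖) - ε / 4 < Dir (φ i) := by
      have e1 : (∫ x, ∫ y, ρ x * ρ y / ‖x - y‖) = ∫ p : E3 × E3, ρ p.1 * ρ p.2 / ‖p.1 - p.2‖
          ∂(volume.prod volume) := (integral_prod _ (prod_int hρn hρ0)).symm
      rw [e1]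
      have e2 : ∀ i, Dir (φ i) = ∫ p : E3 × E3, φ i p.1 ^ 2 * φ i p.2 ^ 2 / ‖p.1 - p.2‖
          ∂(volume.prod volume) := fun i => dir_eq_prod (hφ i)
      simp only [e2]
      refine fatou_ev (fun i x => by positivity) (fun i => cross_int (hφ i) (hφ i))
        (prod_int hρn hρ0) ?_ (by positivity)
      have a1 : ∀ᵐ p : E3 × E3 ∂(volume.prod volume),
          Tendsto (fun i => φ i p.1 ^ 2) atTop (𝓝 (ρ p.1)) :=
        Measure.quasiMeasurePreserving_fst.ae hlim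
      have a2 : ∀ᵐ p : E3 × E3 ∂(volume.prod volume),
          Tendsto (fun i => φ i p.2 ^ 2) atTop (𝓝 (ρ p.2)) :=
        Measure.quasiMeasurePreserving_snd.ae hlim
      filter_upwards [a1, a2] with p h3 h4
      exact (h3.mul h4).div_const _
    have h3 : ∀ᶠ i in atTop, ∑ j, z j * Pot (R j) (φ i) < (∑ j, z j * pot ρ (R j)) + ε / 4 := by
      have h4 : Tendsto (fun i => ∑ j, z j * Pot (R j) (φ i)) atTop (𝓝 (∑ j, z j * pot ρ (R j))) :=
        tendsto_finsetSum _ fun j _ => (hpot (R j)).const_mul (z j)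
      exact h4.eventually (gt_mem_nhds (by linarith))
    have h4 : ∀ᶠ i : ℕ in atTop, 1 / ((ns i : ℝ) + 1) < ε / 4 := by
      have := (tendsto_one_div_add_atTop_nhds_zero_nat (𝕜 := ℝ)).comp hns.tendsto_atTop
      exact this.eventually (gt_mem_nhds (by positivity))
    filter_upwards [h1, h2, h3, h4] with i g1 g2 g3 g4
    have h5 := hψE (ns i)
    have h6 : En z R (φ i) ≤ I + 1 / ((ns i : ℝ) + 1) := h5
    unfold En at h6
    rw [hKinf]
    linarith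
  obtain ⟨g, hg1, hg2, hg3⟩ := weak_grad (u := fun x => √(ρ x)) hφ hKin
    (fun η hη hηc v => by
      have hc : Continuous (fun x => fderiv ℝ η x v) :=
        (hη.continuous_fderiv (by simp)).clm_apply continuous_const
      have hs : HasCompactSupport (fun x => fderiv ℝ η x v) := by
        obtain ⟨K, hK, hz⟩ := exists_compact_iff_hasCompactSupport.mpr (hηc.fderiv ℝ)
        refine exists_compact_iff_hasCompactSupport.mp ⟨K, hK, fun x hx => ?_⟩
        rw [hz x hx]; simp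
      exact test_conv hφ hφ0 hρ0 hfat.1 hρm hdmem h53 hc hs)
  refine ⟨ρ, g, ⟨hρ0, hρm, hfat.1, hρ53, hg1, hg2⟩, hfat.2, fun u hu hm => ?_⟩
  have h7 := hI u hu hm
  unfold ET
  rw [pot_sum z R hρn]
  linarith

end Pool.Agent.X91.TW
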