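import Pool.Agent.X91.TW.Var

/-!
# Weak limits of gradients
-/

set_option autoImplicit false

open MeasureTheory Set Filter Topology
open scoped RealInnerProductSpace ContDiff

namespace Pool.Agent.X91.TW

open Pool.Agent.Helper436.TFW (Adm Kin Pot TFe Mass Dir)

/-- Ultrafilter form of weak compactness of balls in a Hilbert space. -/
theorem exists_weak_lim {K : Type*} [NormedAddCommGroup K] [InnerProductSpace ℝ K]
    [CompleteSpace K] (F : Ultrafilter ℕ) (z : ℕ → K) (h : ℝ) (hz : ∀ᶠ i in F, ‖z i‖ ≤ h) :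
    ∃ z0 : K, ‖z0‖ ≤ h ∧ ∀ y : K, Tendsto (fun i => ⟪z i, y⟫) F (𝓝 ⟪z0, y⟫) := by
  have hcomp := WeakDual.isCompact_closedBall (𝕜 := ℝ) (E := K) 0 h
  let g : ℕ → WeakDual ℝ K := fun t => StrongDual.toWeakDual (InnerProductSpace.toDual ℝ K (z t))
  have hmem : (WeakDual.toStrongDual ⁻¹' Metric.closedBall (0 : StrongDual ℝ K) h) ∈ F.map g := by
    rw [Ultrafilter.mem_map]
    filter_upwards [hz] with t ht
    simp only [mem_preimage, Metric.mem_closedBall, dist_zero_right, g]
    have : ‖InnerProductSpace.toDual ℝ K (z t)‖ = ‖z t‖ := by simp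
    simpa using ht
  obtain ⟨x, hx, hFx⟩ := hcomp.ultrafilter_le_nhds (F.map g) (by simpa using hmem)
  refine ⟨(InnerProductSpace.toDual ℝ K).symm (WeakDual.toStrongDual x), ?_, ?_⟩
  · have := hx
    simp only [mem_preimage, Metric.mem_closedBall, dist_zero_right] at this
    simpa using this
  · intro y
    have h1 : Tendsto g F (𝓝 x) := by
      have : ((F.map g : Ultrafilter (WeakDual ℝ K)) : Filter (WeakDual ℝ K)) ≤ 𝓝 x := hFx
      simpa [Tendsto, Ultrafilter.coe_map] using this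
    have h2 : Tendsto (fun t => g t y) F (𝓝 (x y)) := by
      have := (WeakBilin.eval_continuous (topDualPairing ℝ K) y).tendsto x
      exact this.comp h1
    have h3 : x y = ⟪(InnerProductSpace.toDual ℝ K).symm (WeakDual.toStrongDual x), y⟫ := by
      rw [InnerProductSpace.toDual_symm_apply]
      rfl
    rw [← h3]
    refine h2.congr (fun t => ?_)
    simp [g, InnerProductSpace.toDual_apply_apply]

/-- `g` is the weak gradient of `u` -/
def WG (u : E3 → ℝ) (g : E3 → E3) : Prop :=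
  ∀ φ : E3 → ℝ, ContDiff ℝ ∞ φ → HasCompactSupport φ → ∀ v : E3,
    ∫ x, u x * fderiv ℝ φ x v = -∫ x, inner ℝ (g x) v * φ x

lemma grad_memLp {ψ : E3 → ℝ} (h : Adm ψ) : MemLp (gradient ψ) 2 := by
  have h2 : Continuous (gradient ψ) := by
    unfold gradient
    exact (InnerProductSpace.toDual ℝ E3).symm.continuous.comp h.fderiv_cont
  have h3 : HasCompactSupport (gradient ψ) := by
    unfold gradient
    exact (h.cs.fderiv ℝ).comp_left (map_zero _)
  exact h2.memLp_of_hasCompactSupport h3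

lemma sq_norm_Lp {g : E3 → E3} (h : MemLp g 2) : ‖h.toLp g‖ ^ 2 = ∫ x, ‖g x‖ ^ 2 := by
  rw [← real_inner_self_eq_norm_sq, L2.inner_def]
  refine integral_congr_ae ?_
  filter_upwards [h.coeFn_toLp] with x hx
  rw [hx, real_inner_self_eq_norm_sq]

lemma ibp {f g : E3 → ℝ} (hf : ContDiff ℝ 1 f) (hg : ContDiff ℝ 1 g) (hc : HasCompactSupport g)
    (v : E3) : ∫ x, f x * fderiv ℝ g x v = - ∫ x, fderiv ℝ f x v * g x := by
  have c1 : Continuous (fderiv ℝ f) := hf.continuous_fderiv (by norm_num)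
  have c2 : Continuous (fderiv ℝ g) := hg.continuous_fderiv (by norm_num)
  apply integral_mul_fderiv_eq_neg_fderiv_mul_of_integrable
  · exact ((c1.clm_apply continuous_const).mul hg.continuous).integrable_of_hasCompactSupport
      hc.mul_left
  · refine (hf.continuous.mul (c2.clm_apply continuous_const)).integrable_of_hasCompactSupport ?_
    apply HasCompactSupport.mul_left
    have := hc.fderiv ℝ
    refine exists_compact_iff_hasCompactSupport.mp ?_
    obtain ⟨K, hK, hz⟩ := exists_compact_iff_hasCompactSupport.mpr this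
    exact ⟨K, hK, fun x hx => by rw [hz x hx]; simp⟩
  · exact (hf.continuous.mul hg.continuous).integrable_of_hasCompactSupport hc.mul_left
  · exact fun x _ => hf.differentiable (by norm_num) x
  · exact fun x _ => hg.differentiable (by norm_num) x

theorem weak_grad {ψ : ℕ → E3 → ℝ} (hψ : ∀ n, Adm (ψ n)) {u : E3 → ℝ} {K : ℝ}
    (hK : ∀ ε : ℝ, 0 < ε → ∀ᶠ n in atTop, Kin (ψ n) ≤ K + ε)
    (hconv : ∀ φ : E3 → ℝ, ContDiff ℝ ∞ φ → HasCompactSupport φ → ∀ v : E3,
      Tendsto (fun n => ∫ x, ψ n x * fderiv ℝ φ x v) atTop (𝓝 (∫ x, u x * fderiv ℝ φ x v))) :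
    ∃ g : E3 → E3, MemLp g 2 ∧ WG u g ∧ ∫ x, ‖g x‖ ^ 2 ≤ K := by
  set F : Ultrafilter ℕ := Filter.hyperfilter ℕ with hF
  have hFle : (F : Filter ℕ) ≤ atTop := Nat.hyperfilter_le_atTop
  set G : ℕ → Lp E3 2 (volume : Measure E3) := fun n => (grad_memLp (hψ n)).toLp (gradient (ψ n))
    with hG
  have hGn : ∀ n, ‖G n‖ ^ 2 = Kin (ψ n) := by
    intro n
    rw [hG, sq_norm_Lp]
    unfold Kin
    simp only [grad_norm]
  have hKn : ∀ ε : ℝ, 0 < ε → ∀ᶠ n in F, ‖G n‖ ≤ Real.sqrt (K + ε) := by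
    intro ε hε
    filter_upwards [hFle (hK ε hε)] with n hn
    exact Real.le_sqrt_of_sq_le (by rw [hGn]; exact hn)
  obtain ⟨g0, hg0, hg⟩ := exists_weak_lim F G _ (hKn 1 one_pos)
  have hKnn : 0 ≤ K := by
    by_contra hneg
    push Not at hneg
    obtain ⟨n, hn⟩ := (hK (-K / 2) (by linarith)).exists
    have : 0 ≤ Kin (ψ n) := Pool.Agent.Helper436.TFW.kin_nonneg
    linarith
  refine ⟨g0, Lp.memLp g0, ?_, ?_⟩
  · intro φ hφ hφc v
    have hy : MemLp (fun x => φ x • v) 2 (volume : Measure E3) :=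
      (hφ.continuous.smul continuous_const).memLp_of_hasCompactSupport hφc.smul_right
    have h1 := hg (hy.toLp _)
    have h2 : ∀ n, ⟪G n, hy.toLp _⟫ = -∫ x, ψ n x * fderiv ℝ φ x v := by
      intro n
      rw [L2.inner_def]
      have e1 : ∫ x, ⟪G n x, (hy.toLp _) x⟫ = ∫ x, fderiv ℝ (ψ n) x v * φ x := by
        refine integral_congr_ae ?_
        filter_upwards [hy.coeFn_toLp, (grad_memLp (hψ n)).coeFn_toLp] with x h3 h4
        rw [h3, hG, h4, inner_smul_right, grad_inner]
        ring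
      rw [e1, ibp (hψ n).cd (hφ.of_le (by exact_mod_cast le_top)) hφc v, neg_neg]
    have h3 : ⟪g0, hy.toLp _⟫ = ∫ x, inner ℝ (g0 x) v * φ x := by
      rw [L2.inner_def]
      refine integral_congr_ae ?_
      filter_upwards [hy.coeFn_toLp] with x h3
      rw [h3, inner_smul_right]
      ring
    have h4 : Tendsto (fun n => ⟪G n, hy.toLp _⟫) F (𝓝 (-∫ x, u x * fderiv ℝ φ x v)) := by
      simp only [h2]
      exact ((hconv φ hφ hφc v).mono_left hFle).neg
    have h5 := tendsto_nhds_unique h1 h4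
    rw [h3] at h5
    linarith
  · have e1 : ∫ x, ‖g0 x‖ ^ 2 = ‖g0‖ ^ 2 := by
      rw [← real_inner_self_eq_norm_sq, L2.inner_def]
      simp only [real_inner_self_eq_norm_sq]
    rw [e1]
    apply le_of_forall_pos_le_add
    intro ε hε
    have h1 := hg g0
    have h2 : ⟪g0, g0⟫ ≤ Real.sqrt (K + ε) * ‖g0‖ := by
      refine le_of_tendsto h1 ?_
      filter_upwards [hKn ε hε] with n hn
      exact (real_inner_le_norm _ _).trans (mul_le_mul_of_nonneg_right hn (norm_nonneg _))
    rw [real_inner_self_eq_norm_sq] at h2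
    have h3 : ‖g0‖ ≤ Real.sqrt (K + ε) := by
      rcases eq_or_lt_of_le (norm_nonneg g0) with h | h
      · rw [← h]; positivity
      · have : ‖g0‖ * ‖g0‖ ≤ Real.sqrt (K + ε) * ‖g0‖ := by rw [← sq]; exact h2
        exact le_of_mul_le_mul_right this h
    calc ‖g0‖ ^ 2 ≤ (Real.sqrt (K + ε)) ^ 2 := pow_le_pow_left₀ (norm_nonneg _) h3 2
      _ = K + ε := Real.sq_sqrt (by linarith)

end Pool.Agent.X91.TW
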