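import Pool.Agent.X91.TW.Var

/-!
# Newton's theorem for radial densities
-/

set_option autoImplicit false

open MeasureTheory Set Filter Topology Metric
open scoped RealInnerProductSpace

namespace Pool.Agent.X91.TW

open Pool.Agent.Helper557.TFP (Nice pot nice_bound TF_E1_meas TF_E1_bdd TF_E1_int TF_E1_dbl
  TF_E1_symm TF_E1_potsub eqv eqv_mp FF FF_eq FF_int A_val B_val1 B_val2 tot newton_ball)

/-- potential of the unit density on the ball of radius `s` at distance `ρ` -/
noncomputable def Ph (s ρ : ℝ) : ℝ :=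
  if ρ ≤ s then 2 * Real.pi * (s ^ 2 - ρ ^ 2 / 3) else 4 / 3 * Real.pi * s ^ 3 / ρ

lemma centered2 (a s : ℝ) (hs : 0 < s) (ha0 : 0 ≤ a) (has : a ≤ s) :
    ∫ x in ball (0:E3) s, 1 / ‖x - EuclideanSpace.single 0 a‖ =
      2 * Real.pi * (s ^ 2 - a ^ 2 / 3) := by
  obtain ⟨hi, hv⟩ := FF_int a s hs
  have hval : ∫ x in ball (0:E3) s, 1 / ‖x - EuclideanSpace.single 0 a‖ =
      2 * Real.pi * ((∫ z in (-s)..s, √(s^2+a^2-2*a*z)) - ∫ z in (-s)..s, |z-a|) := by
    rw [← integral_indicator measurableSet_ball]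
    simp only [FF_eq a s hs]
    rw [← tot a s hs, ← hv]
    exact eqv_mp.integral_comp eqv.measurableEmbedding (FF a s)
  rw [hval, B_val2 a s hs ha0 has]
  rcases eq_or_lt_of_le ha0 with h | h
  · rw [← h]
    have : ∀ z : ℝ, √(s^2+(0:ℝ)^2-2*0*z) = s := by
      intro z
      rw [show s^2+(0:ℝ)^2-2*0*z = s ^ 2 by ring, Real.sqrt_sq hs.le]
    simp only [this]
    rw [intervalIntegral.integral_const, smul_eq_mul]
    ring
  · rw [A_val a s hs h, abs_of_nonneg (by linarith)]
    field_simp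
    ring

lemma ball_pot (y : E3) (s : ℝ) (hs : 0 < s) :
    IntegrableOn (fun x : E3 => 1 / ‖x - y‖) (ball 0 s) ∧
    ∫ x in ball (0 : E3) s, 1 / ‖x - y‖ = Ph s ‖y‖ := by
  obtain ⟨h1, h2, _⟩ := newton_ball 0 y s hs
  refine ⟨h1, ?_⟩
  unfold Ph
  split_ifs with h
  · set a := ‖y‖ with ha
    have ha0 : 0 ≤ a := norm_nonneg _
    have hn : ‖y‖ = ‖(EuclideanSpace.single 0 a : E3)‖ := by
      rw [EuclideanSpace.norm_single, Real.norm_of_nonneg ha0]
    set L : E3 ≃ₗᵢ[ℝ] E3 :=
      Submodule.reflection (Submodule.span ℝ {y - (EuclideanSpace.single 0 a : E3)})ᗮ with hL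
    have hLy : L y = EuclideanSpace.single 0 a := Submodule.reflection_sub hn
    have hTm : MeasurePreserving (fun x : E3 => L x) := L.measurePreserving
    have hTe : MeasurableEmbedding (fun x : E3 => L x) := L.toHomeomorph.measurableEmbedding
    have hpre : (fun x : E3 => L x) ⁻¹' (ball 0 s) = ball 0 s := by
      ext x
      rw [mem_preimage, mem_ball_zero_iff, LinearIsometryEquiv.norm_map, mem_ball_zero_iff]
    have hf : ∀ x : E3, 1 / ‖x - y‖ = 1 / ‖L x - EuclideanSpace.single 0 a‖ := by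
      intro x
      rw [← hLy, ← map_sub, LinearIsometryEquiv.norm_map]
    rw [← centered2 a s hs ha0 h]
    simp only [hf]
    conv_lhs => rw [← hpre]
    exact hTm.setIntegral_preimage_emb hTe (fun x => 1 / ‖x - EuclideanSpace.single 0 a‖) _
  · push Not at h
    have h3 := h2 (by simpa using h.le)
    rw [h3, zero_sub, norm_neg, EuclideanSpace.volume_ball_fin_three,
      ← ENNReal.ofReal_pow hs.le, ← ENNReal.ofReal_mul (by positivity),
      ENNReal.toReal_ofReal (by positivity)]
    ring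

/-- layer-cake formula for the potential of a radial density -/
theorem pot_radial (g : ℝ → ℝ) (hg : ContDiff ℝ 1 g) {B : ℝ} (hB : 0 < B)
    (hgB : ∀ s, B ≤ s → g s = 0) (y : E3) :
    pot (fun x => g ‖x‖) y = -∫ s in (0 : ℝ)..B, deriv g s * Ph s ‖y‖ := by
  have hdc : Continuous (deriv g) := hg.continuous_deriv (by norm_num)
  have hdd : ∀ s, HasDerivAt g (deriv g s) s := fun s =>
    (hg.differentiable (by norm_num) s).hasDerivAt
  obtain ⟨M, hM⟩ := (isCompact_Icc (a := (0:ℝ)) (b := B)).exists_bound_of_continuousOn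
    hdc.continuousOn
  have hM0 : 0 ≤ M := (norm_nonneg _).trans (hM 0 ⟨le_rfl, hB.le⟩)
  set F : E3 → ℝ → ℝ := fun x s => (if ‖x‖ < s then deriv g s else 0) / ‖x - y‖ with hF
  -- inner integral in `s`
  have h1 : ∀ x : E3, g ‖x‖ / ‖x - y‖ = -∫ s in Ioc (0:ℝ) B, F x s := by
    intro x
    have e1 : ∫ s in Ioc (0:ℝ) B, F x s =
        (∫ s in Ioc (0:ℝ) B, (if ‖x‖ < s then deriv g s else 0)) / ‖x - y‖ := by
      rw [← integral_div]
    rw [e1]
    have e2 : ∫ s in Ioc (0:ℝ) B, (if ‖x‖ < s then deriv g s else 0) = -g ‖x‖ := by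
      have e3 : (fun s => (if ‖x‖ < s then deriv g s else 0)) = (Ioi ‖x‖).indicator (deriv g) := by
        funext s
        by_cases h : ‖x‖ < s
        · rw [if_pos h, indicator_of_mem (mem_Ioi.mpr h)]
        · rw [if_neg h, indicator_of_notMem (by simpa using h)]
      rw [e3, setIntegral_indicator measurableSet_Ioi]
      have e4 : Ioc (0:ℝ) B ∩ Ioi ‖x‖ = Ioc ‖x‖ B := by
        ext s
        simp only [mem_inter_iff, mem_Ioc, mem_Ioi]
        have := norm_nonneg x
        constructor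
        · rintro ⟨⟨_, h2⟩, h3⟩; exact ⟨h3, h2⟩
        · rintro ⟨h1, h2⟩; exact ⟨⟨by linarith, h2⟩, h1⟩
      rw [e4]
      rcases le_total ‖x‖ B with h | h
      · rw [← intervalIntegral.integral_of_le h,
          intervalIntegral.integral_eq_sub_of_hasDerivAt (fun s _ => hdd s)
            (hdc.intervalIntegrable _ _), hgB B le_rfl]
        ring
      · rw [Ioc_eq_empty (by simpa using h), hgB _ h]
        simp
    rw [e2]
    ring
  have hmeas : Measurable (Function.uncurry F) := by
    have m1 : MeasurableSet {p : E3 × ℝ | ‖p.1‖ < p.2} :=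
      measurableSet_lt (measurable_fst.norm) measurable_snd
    exact (Measurable.ite m1 (hdc.measurable.comp measurable_snd) measurable_const).div
      ((measurable_fst.sub measurable_const).norm)
  have hint : Integrable (Function.uncurry F)
      ((volume : Measure E3).prod ((volume : Measure ℝ).restrict (Ioc (0:ℝ) B))) := by
    have i1 : Integrable (fun x : E3 => (ball (0:E3) B).indicator (fun x => 1 / ‖x - y‖) x) :=
      (ball_pot y B hB).1.integrable_indicator measurableSet_ball
    have i2 : Integrable (fun _ : ℝ => M) ((volume : Measure ℝ).restrict (Ioc (0:ℝ) B)) :=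
      integrableOn_const (by simp)
    have i3 := i1.mul_prod i2
    refine i3.mono' hmeas.aestronglyMeasurable ?_
    have hae : ∀ᵐ p : E3 × ℝ ∂((volume : Measure E3).prod
        ((volume : Measure ℝ).restrict (Ioc (0:ℝ) B))), p.2 ∈ Ioc (0:ℝ) B := by
      have : ∀ᵐ s ∂((volume : Measure ℝ).restrict (Ioc (0:ℝ) B)), s ∈ Ioc (0:ℝ) B :=
        ae_restrict_mem measurableSet_Ioc
      exact Measure.quasiMeasurePreserving_snd.ae this
    filter_upwards [hae] with p hp
    show ‖(if ‖p.1‖ < p.2 then deriv g p.2 else 0) / ‖p.1 - y‖‖ ≤ _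
    by_cases h : ‖p.1‖ < p.2
    · have hb : p.1 ∈ ball (0:E3) B := by
        rw [mem_ball_zero_iff]; linarith [hp.2]
      rw [if_pos h, indicator_of_mem hb, norm_div, norm_norm]
      have := hM p.2 ⟨hp.1.le, hp.2⟩
      calc ‖deriv g p.2‖ / ‖p.1 - y‖ ≤ M / ‖p.1 - y‖ :=
            div_le_div_of_nonneg_right this (norm_nonneg _)
        _ = 1 / ‖p.1 - y‖ * M := by ring
    · rw [if_neg h]
      simp only [zero_div, norm_zero]
      apply mul_nonneg _ hM0
      apply indicator_nonneg
      intro x _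
      positivity
  have h2 : pot (fun x => g ‖x‖) y = ∫ x, g ‖x‖ / ‖x - y‖ := (pot_eq _ _).symm
  rw [h2]
  simp only [h1]
  rw [integral_neg, integral_integral_swap hint, intervalIntegral.integral_of_le hB.le]
  congr 1
  refine setIntegral_congr_fun measurableSet_Ioc fun s hs => ?_
  show ∫ x, F x s = deriv g s * Ph s ‖y‖
  rw [← (ball_pot y s hs.1).2, ← integral_indicator measurableSet_ball, ← integral_const_mul]
  congr 1
  funext x
  rw [hF]
  by_cases h : ‖x‖ < s
  · simp only [if_pos h]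
    rw [indicator_of_mem (by rwa [mem_ball_zero_iff])]
    ring
  · simp only [if_neg h]
    rw [indicator_of_notMem (by rwa [mem_ball_zero_iff])]
    ring

lemma Ph_cont {ρ : ℝ} (hρ : 0 ≤ ρ) : Continuous (fun s => Ph s ρ) := by
  unfold Ph
  refine Continuous.if_le (by fun_prop) (by fun_prop) continuous_const continuous_id ?_
  intro s hs
  rcases eq_or_lt_of_le hρ with h | h
  · rw [← hs, ← h]; simp
  · rw [← hs]; field_simp; ring

/-- inside the support the potential is constant -/
theorem newt_in (g : ℝ → ℝ) (hg : ContDiff ℝ 1 g) {a B : ℝ} (ha : 0 < a) (haB : a < B)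
    (hga : ∀ s, s ≤ a → g s = 0) (hgB : ∀ s, B ≤ s → g s = 0) {y : E3} (hy : ‖y‖ ≤ a) :
    pot (fun x => g ‖x‖) y = pot (fun x => g ‖x‖) 0 := by
  have hdc : Continuous (deriv g) := hg.continuous_deriv (by norm_num)
  have hdd : ∀ s, HasDerivAt g (deriv g s) s := fun s =>
    (hg.differentiable (by norm_num) s).hasDerivAt
  rw [pot_radial g hg (ha.trans haB) hgB, pot_radial g hg (ha.trans haB) hgB]
  congr 1
  have hd0 : ∀ s, s < a → deriv g s = 0 := by
    intro s hs
    have : g =ᶠ[𝓝 s] fun _ => 0 := by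
      filter_upwards [Iio_mem_nhds hs] with u hu using hga u (le_of_lt hu)
    rw [this.deriv_eq, deriv_const]
  have e1 : ∀ s : ℝ, deriv g s * Ph s ‖y‖ =
      deriv g s * Ph s ‖(0:E3)‖ - 2 * Real.pi / 3 * ‖y‖ ^ 2 * deriv g s := by
    intro s
    rcases lt_or_ge s a with h | h
    · rw [hd0 s h]; ring
    · unfold Ph
      rw [norm_zero, if_pos (by linarith), if_pos (by linarith)]
      ring
  simp only [e1]
  rw [intervalIntegral.integral_sub, intervalIntegral.integral_const_mul,
    intervalIntegral.integral_eq_sub_of_hasDerivAt (fun s _ => hdd s)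
      (hdc.intervalIntegrable _ _), hgB B le_rfl, hga 0 ha.le]
  · ring
  · exact (hdc.mul (Ph_cont (norm_nonneg _))).intervalIntegrable _ _
  · exact (continuous_const.mul hdc).intervalIntegrable _ _

/-- the potential is maximal at the centre -/
theorem newt_max (g : ℝ → ℝ) (hg : ContDiff ℝ 1 g) (hg0 : ∀ s, 0 ≤ g s) {b : ℝ} (_hb : 0 < b)
    (hz : g 0 = 0) (hgb : ∀ s, b ≤ s → g s = 0) (y : E3) :
    pot (fun x => g ‖x‖) y ≤ pot (fun x => g ‖x‖) 0 := by
  have hdc : Continuous (deriv g) := hg.continuous_deriv (by norm_num)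
  have hdd : ∀ s, HasDerivAt g (deriv g s) s := fun s =>
    (hg.differentiable (by norm_num) s).hasDerivAt
  rcases eq_or_lt_of_le (norm_nonneg y) with hy0 | hy0
  · have : y = 0 := norm_eq_zero.mp hy0.symm
    rw [this]
  set ρ := ‖y‖ with hρ
  set B := max b ρ + 1 with hB'
  have hbB : b ≤ B := by rw [hB']; linarith [le_max_left b ρ]
  have hρB : ρ ≤ B := by rw [hB']; linarith [le_max_right b ρ]
  have hB : 0 < B := lt_of_lt_of_le hy0 hρB
  have hgB : ∀ s, B ≤ s → g s = 0 := fun s hs => hgb s (hbB.trans hs)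
  rw [pot_radial g hg hB hgB, pot_radial g hg hB hgB]
  rw [neg_le_neg_iff, norm_zero, ← hρ]
  have i1 : ∀ u v : ℝ, IntervalIntegrable (fun s => deriv g s * Ph s 0) volume u v := fun u v =>
    (hdc.mul (Ph_cont le_rfl)).intervalIntegrable _ _
  have i2 : ∀ u v : ℝ, IntervalIntegrable (fun s => deriv g s * Ph s ρ) volume u v := fun u v =>
    (hdc.mul (Ph_cont hy0.le)).intervalIntegrable _ _
  rw [← sub_nonneg, ← intervalIntegral.integral_sub (i2 _ _) (i1 _ _),
    ← intervalIntegral.integral_add_adjacent_intervals (b := ρ) ((i2 _ _).sub (i1 _ _))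
      ((i2 _ _).sub (i1 _ _))]
  have e1 : ∫ s in ρ..B, (deriv g s * Ph s ρ - deriv g s * Ph s 0) =
      2 * Real.pi / 3 * ρ ^ 2 * g ρ := by
    have e2 : ∫ s in ρ..B, (deriv g s * Ph s ρ - deriv g s * Ph s 0) =
        ∫ s in ρ..B, (-(2 * Real.pi / 3 * ρ ^ 2)) * deriv g s := by
      apply intervalIntegral.integral_congr
      intro s hs
      rw [uIcc_of_le hρB] at hs
      simp only
      unfold Ph
      rw [if_pos hs.1, if_pos (hy0.le.trans hs.1)]
      ring
    rw [e2, intervalIntegral.integral_const_mul,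
      intervalIntegral.integral_eq_sub_of_hasDerivAt (fun s _ => hdd s)
        (hdc.intervalIntegrable _ _), hgB B le_rfl]
    ring
  have e3 : ∫ s in (0:ℝ)..ρ, (deriv g s * Ph s ρ - deriv g s * Ph s 0) =
      -(2 * Real.pi / 3 * ρ ^ 2 * g ρ) + ∫ s in (0:ℝ)..ρ, g s * (4 * Real.pi * s - 4 * Real.pi * s ^ 2 / ρ) := by
    have e4 : ∫ s in (0:ℝ)..ρ, (deriv g s * Ph s ρ - deriv g s * Ph s 0) =
        ∫ s in (0:ℝ)..ρ, (4 / 3 * Real.pi * s ^ 3 / ρ - 2 * Real.pi * s ^ 2) * deriv g s := by
      apply intervalIntegral.integral_congr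
      intro s hs
      rw [uIcc_of_le hy0.le] at hs
      simp only
      unfold Ph
      rw [if_pos hs.1]
      by_cases h : ρ ≤ s
      · have : s = ρ := le_antisymm hs.2 h
        rw [if_pos h, this]
        field_simp
        ring
      · rw [if_neg h]; ring
    rw [e4]
    have hP : ∀ s ∈ uIcc 0 ρ, HasDerivAt (fun s : ℝ => 4 / 3 * Real.pi * s ^ 3 / ρ -
        2 * Real.pi * s ^ 2) (4 * Real.pi * s ^ 2 / ρ - 4 * Real.pi * s) s := by
      intro s _
      have h1 := ((((hasDerivAt_id s).pow 3).const_mul (4 / 3 * Real.pi)).div_const ρ).sub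
        (((hasDerivAt_id s).pow 2).const_mul (2 * Real.pi))
      refine h1.congr_deriv ?_
      simp
      ring
    rw [intervalIntegral.integral_mul_deriv_eq_deriv_mul hP (fun s _ => hdd s)
      (Continuous.intervalIntegrable (by fun_prop) _ _) (hdc.intervalIntegrable _ _), hz]
    have e5 : ∫ s in (0:ℝ)..ρ, (4 * Real.pi * s ^ 2 / ρ - 4 * Real.pi * s) * g s =
        -∫ s in (0:ℝ)..ρ, g s * (4 * Real.pi * s - 4 * Real.pi * s ^ 2 / ρ) := by
      rw [← intervalIntegral.integral_neg]
      congr 1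
      funext s
      ring
    rw [e5]
    field_simp
    ring
  rw [e1, e3]
  have h5 : 0 ≤ ∫ s in (0:ℝ)..ρ, g s * (4 * Real.pi * s - 4 * Real.pi * s ^ 2 / ρ) := by
    apply intervalIntegral.integral_nonneg hy0.le
    intro s hs
    apply mul_nonneg (hg0 s)
    have : 4 * Real.pi * s - 4 * Real.pi * s ^ 2 / ρ = 4 * Real.pi * s * ((ρ - s) / ρ) := by
      field_simp
    rw [this]
    have h6 : 0 ≤ (ρ - s) / ρ := div_nonneg (by linarith [hs.2]) hy0.le
    have := hs.1
    positivity
  linarith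

end Pool.Agent.X91.TW
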