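import Mathlib

/-!
# An `L¹` Poincaré inequality on balls of `ℝ³` for `C¹` functions
-/

set_option autoImplicit false

open MeasureTheory Set Filter Topology
open scoped ENNReal

namespace Pool.Agent.X91.TW

/-- the space -/
abbrev E := EuclideanSpace ℝ (Fin 3)

lemma poi_scale (h : E → ℝ≥0∞) (hh : Measurable h) (c : E) {s : ℝ} (hs : 0 < s) :
    ∫⁻ y, h (c + s • y) = ENNReal.ofReal ((s ^ 3)⁻¹) * ∫⁻ y, h y := by
  have h1 : ∫⁻ y, h (c + s • y) = ∫⁻ u, h (c + u) ∂(Measure.map (s • ·) (volume : Measure E)) := by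
    rw [lintegral_map (f := fun u => h (c + u)) (hh.comp (measurable_const_add c))
      (measurable_const_smul s)]
  rw [h1, Measure.map_addHaar_smul _ hs.ne', lintegral_smul_measure]
  have h2 : Module.finrank ℝ E = 3 := by simp
  rw [h2, abs_of_pos (by positivity), lintegral_add_left_eq_self, smul_eq_mul]

lemma poi_seg (f : E → ℝ) (hf : ContDiff ℝ 1 f) (x y : E) :
    ‖f x - f y‖ₑ ≤ ∫⁻ s in Ioc (0 : ℝ) 1, ‖fderiv ℝ f (x + s • (y - x))‖ₑ * ‖y - x‖ₑ := by
  have hc : Continuous (fderiv ℝ f) := hf.continuous_fderiv (by norm_num)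
  have hd : ∀ s : ℝ, HasDerivAt (fun s : ℝ => f (x + s • (y - x)))
      (fderiv ℝ f (x + s • (y - x)) (y - x)) s := by
    intro s
    have h1 : HasDerivAt (fun s : ℝ => x + s • (y - x)) (y - x) s := by
      have := ((hasDerivAt_id s).smul_const (y - x)).const_add x
      simpa using this
    exact ((hf.differentiable (by norm_num)) _).hasFDerivAt.comp_hasDerivAt s h1
  have hcont : Continuous (fun s : ℝ => fderiv ℝ f (x + s • (y - x)) (y - x)) :=
    (hc.comp (by fun_prop)).clm_apply continuous_const
  have h2 := intervalIntegral.integral_eq_sub_of_hasDerivAt (a := 0) (b := 1)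
    (fun s _ => hd s) (hcont.intervalIntegrable 0 1)
  simp only [one_smul, zero_smul, add_zero, add_sub_cancel] at h2
  rw [← neg_sub (f y) (f x), enorm_neg, ← h2, intervalIntegral.integral_of_le zero_le_one]
  refine (enorm_integral_le_lintegral_enorm _).trans (lintegral_mono fun s => ?_)
  exact ContinuousLinearMap.le_opENorm _ _

/-- `∬_{B×B} |f x - f y| ≤ C ∫_B ‖∇f‖`. -/
theorem poincare (T : ℝ) (_hT : 0 < T) (f : E → ℝ) (hf : ContDiff ℝ 1 f) :
    ∫⁻ x in Metric.ball (0 : E) T, ∫⁻ y in Metric.ball (0 : E) T, ‖f x - f y‖ₑ ≤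
      (ENNReal.ofReal (2 * T) * (8 * volume (Metric.ball (0 : E) T))) *
        ∫⁻ x in Metric.ball (0 : E) T, ‖fderiv ℝ f x‖ₑ := by
  set B := Metric.ball (0 : E) T with hB
  have hBm : MeasurableSet B := Metric.isOpen_ball.measurableSet
  have hc : Continuous (fderiv ℝ f) := hf.continuous_fderiv (by norm_num)
  set h : E → ℝ≥0∞ := B.indicator (fun z => ‖fderiv ℝ f z‖ₑ) with hh
  have hm : Measurable h := (hc.enorm.measurable).indicator hBm
  have hconv : Convex ℝ B := convex_ball _ _
  -- pointwise
  have h1 : ∀ x ∈ B, ∀ y ∈ B, ‖f x - f y‖ₑ ≤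
      ENNReal.ofReal (2 * T) * ∫⁻ s in Ioc (0 : ℝ) 1, h (x + s • (y - x)) := by
    intro x hx y hy
    refine (poi_seg f hf x y).trans ?_
    rw [← lintegral_const_mul' _ _ ENNReal.ofReal_ne_top]
    refine setLIntegral_mono' measurableSet_Ioc fun s hs => ?_
    have hmem : x + s • (y - x) ∈ B := hconv.add_smul_sub_mem hx hy ⟨hs.1.le, hs.2⟩
    have e1 : h (x + s • (y - x)) = ‖fderiv ℝ f (x + s • (y - x))‖ₑ := by
      rw [hh, indicator_of_mem hmem]
    rw [e1, mul_comm]
    gcongr
    rw [← ofReal_norm]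
    apply ENNReal.ofReal_le_ofReal
    have hx' : ‖x‖ < T := by simpa [hB] using hx
    have hy' : ‖y‖ < T := by simpa [hB] using hy
    have := norm_sub_le y x
    linarith
  have hjm : Measurable (fun p : (E × E) × ℝ => h (p.1.1 + p.2 • (p.1.2 - p.1.1))) := by
    apply hm.comp
    exact Continuous.measurable (by fun_prop)
  calc ∫⁻ x in B, ∫⁻ y in B, ‖f x - f y‖ₑ
      ≤ ∫⁻ x in B, ∫⁻ y in B, ENNReal.ofReal (2 * T) * ∫⁻ s in Ioc (0 : ℝ) 1, h (x + s • (y - x)) :=
        setLIntegral_mono' hBm fun x hx => setLIntegral_mono' hBm fun y hy => h1 x hx y hy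
    _ = ENNReal.ofReal (2 * T) * ∫⁻ x in B, ∫⁻ y in B, ∫⁻ s in Ioc (0 : ℝ) 1,
          h (x + s • (y - x)) := by
        rw [← lintegral_const_mul' _ _ ENNReal.ofReal_ne_top]
        congr 1
        funext x
        rw [lintegral_const_mul' _ _ ENNReal.ofReal_ne_top]
    _ = ENNReal.ofReal (2 * T) * ∫⁻ s in Ioc (0 : ℝ) 1, ∫⁻ x in B, ∫⁻ y in B,
          h (x + s • (y - x)) := by
        congr 1
        have e1 : ∀ x : E, ∫⁻ y in B, ∫⁻ s in Ioc (0 : ℝ) 1, h (x + s • (y - x)) =
            ∫⁻ s in Ioc (0 : ℝ) 1, ∫⁻ y in B, h (x + s • (y - x)) := by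
          intro x
          rw [lintegral_lintegral_swap]
          exact (hm.comp (Continuous.measurable (by fun_prop :
            Continuous (fun p : E × ℝ => x + p.2 • (p.1 - x))))).aemeasurable
        simp only [e1]
        rw [lintegral_lintegral_swap]
        apply Measurable.aemeasurable
        have : Measurable (fun q : (E × ℝ) × E => h (q.1.1 + q.1.2 • (q.2 - q.1.1))) :=
          hm.comp (Continuous.measurable (by fun_prop))
        exact this.lintegral_prod_right'
    _ ≤ ENNReal.ofReal (2 * T) * ∫⁻ _s in Ioc (0 : ℝ) 1, (8 * volume B) * ∫⁻ z, h z := by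
        refine mul_le_mul' le_rfl ?_
        refine setLIntegral_mono' measurableSet_Ioc fun s hs => ?_
        have hmain : ∀ r : ℝ, 1 / 2 ≤ r → ∀ c : E, ∫⁻ y, h (c + r • y) ≤ 8 * ∫⁻ z, h z := by
          intro r hr c
          rw [poi_scale h hm c (by linarith)]
          gcongr
          have e1 : (r ^ 3)⁻¹ ≤ 8 := by
            have h5 : (1 / 2 : ℝ) ^ 3 ≤ r ^ 3 := pow_le_pow_left₀ (by norm_num) hr 3
            rw [inv_le_comm₀ (by have : (0:ℝ) < r := by linarith
                                 positivity) (by norm_num)]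
            norm_num at h5 ⊢
            linarith
          calc ENNReal.ofReal ((r ^ 3)⁻¹) ≤ ENNReal.ofReal 8 := ENNReal.ofReal_le_ofReal e1
            _ = 8 := by norm_num
        by_cases hs2 : 1 / 2 ≤ s
        · calc ∫⁻ x in B, ∫⁻ y in B, h (x + s • (y - x))
              ≤ ∫⁻ x in B, 8 * ∫⁻ z, h z := by
                refine lintegral_mono fun x => ?_
                calc ∫⁻ y in B, h (x + s • (y - x)) ≤ ∫⁻ y, h (x + s • (y - x)) :=
                      setLIntegral_le_lintegral _ _
                  _ = ∫⁻ y, h ((x - s • x) + s • y) := by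
                      congr 1; funext y; congr 1; rw [smul_sub]; abel
                  _ ≤ _ := hmain s hs2 _
            _ = 8 * volume B * ∫⁻ z, h z := by
                rw [lintegral_const, Measure.restrict_apply_univ]; ring
        · push Not at hs2
          have hsw : ∫⁻ x in B, ∫⁻ y in B, h (x + s • (y - x)) =
              ∫⁻ y in B, ∫⁻ x in B, h (x + s • (y - x)) := by
            rw [lintegral_lintegral_swap]
            exact (hm.comp (Continuous.measurable (by fun_prop :
              Continuous (fun p : E × E => p.1 + s • (p.2 - p.1))))).aemeasurable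
          rw [hsw]
          calc ∫⁻ y in B, ∫⁻ x in B, h (x + s • (y - x))
              ≤ ∫⁻ y in B, 8 * ∫⁻ z, h z := by
                refine lintegral_mono fun y => ?_
                calc ∫⁻ x in B, h (x + s • (y - x)) ≤ ∫⁻ x, h (x + s • (y - x)) :=
                      setLIntegral_le_lintegral _ _
                  _ = ∫⁻ x, h ((s • y) + (1 - s) • x) := by
                      congr 1; funext x; congr 1; rw [smul_sub, sub_smul, one_smul]; abel
                  _ ≤ _ := hmain (1 - s) (by linarith) _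
            _ = 8 * volume B * ∫⁻ z, h z := by
                rw [lintegral_const, Measure.restrict_apply_univ]; ring
    _ = (ENNReal.ofReal (2 * T) * (8 * volume B)) * ∫⁻ x in B, ‖fderiv ℝ f x‖ₑ := by
        rw [lintegral_const, Measure.restrict_apply_univ, Real.volume_Ioc, hh,
          lintegral_indicator hBm]
        norm_num
        ring

end Pool.Agent.X91.TW
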