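import Pool.Agent.X91.TW.Raw

/-!
# The logarithm of the minimiser is locally integrable
-/

set_option autoImplicit false

open MeasureTheory Set Filter Topology Metric
open scoped RealInnerProductSpace ContDiff ENNReal

namespace Pool.Agent.X91.TW

open Pool.Agent.Helper436.TFW (Adm Kin Pot TFe Mass Dir)
open Pool.Agent.Helper557.TFP (Nice pot nice_bound TF_E1_meas TF_E1_bdd TF_E1_int TF_E1_dbl
  TF_E1_symm TF_E1_potsub)

lemma grad_sq {η : E3 → ℝ} (hη : ContDiff ℝ 1 η) (x : E3) :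
    gradient (fun x => η x ^ 2) x = (2 * η x) • gradient η x := by
  apply ext_inner_right ℝ
  intro v
  have h1 : HasFDerivAt η (fderiv ℝ η x) x := (hη.differentiable (by norm_num) x).hasFDerivAt
  rw [grad_inner, inner_smul_left, grad_inner, (h1.pow 2).fderiv]
  simp

/-- pointwise estimate for `θ = η²` -/
lemma J_sq_le {η f : E3 → ℝ} (hη : ContDiff ℝ 1 η) (x : E3) :
    fderiv ℝ f x (gradient (fun x => η x ^ 2) x) - η x ^ 2 * ‖fderiv ℝ f x‖ ^ 2 ≤
      2 * ‖gradient η x‖ ^ 2 - 1 / 2 * (η x ^ 2 * ‖fderiv ℝ f x‖ ^ 2) := by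
  rw [grad_sq hη, map_smul, smul_eq_mul]
  have h1 : fderiv ℝ f x (gradient η x) ≤ ‖fderiv ℝ f x‖ * ‖gradient η x‖ :=
    (le_abs_self _).trans (by
      have := ContinuousLinearMap.le_opNorm (fderiv ℝ f x) (gradient η x)
      rwa [Real.norm_eq_abs] at this)
  have h1' : -(‖fderiv ℝ f x‖ * ‖gradient η x‖) ≤ fderiv ℝ f x (gradient η x) := by
    have := ContinuousLinearMap.le_opNorm (fderiv ℝ f x) (gradient η x)
    rw [Real.norm_eq_abs] at this
    exact (abs_le.mp this).1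
  have h2 : η x * fderiv ℝ f x (gradient η x) ≤ |η x| * (‖fderiv ℝ f x‖ * ‖gradient η x‖) := by
    have h3 : |fderiv ℝ f x (gradient η x)| ≤ ‖fderiv ℝ f x‖ * ‖gradient η x‖ := abs_le.mpr ⟨h1', h1⟩
    calc η x * fderiv ℝ f x (gradient η x) ≤ |η x * fderiv ℝ f x (gradient η x)| := le_abs_self _
      _ = |η x| * |fderiv ℝ f x (gradient η x)| := abs_mul _ _
      _ ≤ _ := mul_le_mul_of_nonneg_left h3 (abs_nonneg _)
  have h4 := sq_abs (η x)
  rw [← h4]
  nlinarith [sq_nonneg (|η x| * ‖fderiv ℝ f x‖ - 2 * ‖gradient η x‖)]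

lemma grad_cont {η : E3 → ℝ} (hη : ContDiff ℝ 1 η) : Continuous (gradient η) := by
  unfold gradient
  exact (InnerProductSpace.toDual ℝ E3).symm.continuous.comp
    (hη.continuous_fderiv (by norm_num))

lemma grad_cs {η : E3 → ℝ} (hη : HasCompactSupport η) : HasCompactSupport (gradient η) := by
  unfold gradient
  exact (hη.fderiv ℝ).comp_left (map_zero _)

lemma tst_sq {η : E3 → ℝ} (hη : ContDiff ℝ 1 η) (hηc : HasCompactSupport η) :
    Tst (fun x => η x ^ 2) := by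
  refine ⟨hη.pow 2, ?_, fun x => sq_nonneg _⟩
  obtain ⟨K, hK, hz⟩ := exists_compact_iff_hasCompactSupport.mpr hηc
  refine exists_compact_iff_hasCompactSupport.mp ⟨K, hK, fun x hx => ?_⟩
  show η x ^ 2 = 0
  rw [hz x hx]; norm_num

section

variable {k : ℕ} {z : Fin k → ℝ} {R : Fin k → E3} {ρ : E3 → ℝ} {v : ℕ → E3 → ℝ}

/-- uniform bound of the gradient of the logarithm -/
lemma grad_bound (S : Seq z R ρ v) (hz : ∀ i, 0 ≤ z i) {η : E3 → ℝ}
    (hη : ContDiff ℝ 1 η) (hηc : HasCompactSupport η) :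
    ∃ C t0 : ℝ, 0 < t0 ∧ ∀ t : ℝ, 0 < t → t ≤ t0 → ∀ ε : ℝ, 0 < ε → ε ≤ 1 →
      ∀ᶠ n in atTop, ∃ κ : ℝ, 0 < κ ∧ κ < ε ∧
        ∫ x, η x ^ 2 * ‖fderiv ℝ (ff (v n) (fun x => η x ^ 2) t κ) x‖ ^ 2 ≤ C := by
  have hθ : Tst (fun x => η x ^ 2) := tst_sq hη hηc
  set θ : E3 → ℝ := fun x => η x ^ 2 with hθd
  obtain ⟨B, hB⟩ := TF_E1_bdd θ hθ.nice
  set Z := ∑ i, z i with hZ
  have hZ0 : 0 ≤ Z := Finset.sum_nonneg fun i _ => hz i
  set G := ∫ x, 2 * ‖gradient η x‖ ^ 2 with hG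
  have iG : Integrable (fun x => 2 * ‖gradient η x‖ ^ 2) :=
    ((grad_cont hη).norm.pow 2 |>.const_mul 2).integrable_of_hasCompactSupport (by
      obtain ⟨K, hK, hz⟩ := exists_compact_iff_hasCompactSupport.mpr (grad_cs hηc)
      refine exists_compact_iff_hasCompactSupport.mp ⟨K, hK, fun x hx => ?_⟩
      show 2 * ‖gradient η x‖ ^ 2 = 0
      rw [hz x hx]; simp)
  set I1 := ∫ x, θ x with hI1
  have hI10 : 0 ≤ I1 := integral_nonneg hθ.nn
  set I3 := ∫ x, θ x ^ 3 with hI3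
  have i3 : Integrable (fun x => θ x ^ 3) :=
    (hθ.cont.pow 3).integrable_of_hasCompactSupport (by
      obtain ⟨K, hK, hz⟩ := exists_compact_iff_hasCompactSupport.mpr hθ.cs
      refine exists_compact_iff_hasCompactSupport.mp ⟨K, hK, fun x hx => ?_⟩
      show θ x ^ 3 = 0
      rw [hz x hx]; norm_num)
  set D := ∫ x, θ x * pot θ x with hD
  have hD0 : 0 ≤ D := integral_nonneg fun x => mul_nonneg (hθ.nn x) (pot_nn hθ.nn x)
  refine ⟨2 * (G + 6 / 5 * (1 / 3 * I3 + 2 / 3 * (Z + 1)) + Z * |B| + D + 1),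
    min 1 (1 / (I1 + 1)), lt_min one_pos (by positivity), ?_⟩
  intro t ht htt ε hε hε1
  have ht1 : t ≤ 1 := htt.trans (min_le_left _ _)
  have htI : t * I1 ≤ 1 := by
    have : t ≤ 1 / (I1 + 1) := htt.trans (min_le_right _ _)
    calc t * I1 ≤ 1 / (I1 + 1) * I1 := mul_le_mul_of_nonneg_right this hI10
      _ ≤ 1 := by rw [div_mul_eq_mul_div, div_le_one (by positivity)]; linarith
  filter_upwards [S.var θ hθ t ht htI ε hε] with n hn
  obtain ⟨κ, hκ, hκε, h1⟩ := hn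
  refine ⟨κ, hκ, hκε, ?_⟩
  set f := ff (v n) θ t κ with hf
  have hfc : Continuous (fderiv ℝ f) :=
    (ff_cd (S.adm n) hθ ht.le hκ).continuous_fderiv (by norm_num)
  have iF : Integrable (fun x => η x ^ 2 * ‖fderiv ℝ f x‖ ^ 2) :=
    (hθ.cont.mul (hfc.norm.pow 2)).integrable_of_hasCompactSupport hθ.cs.mul_right
  have h2 : ∫ x, (fderiv ℝ f x (gradient θ x) - θ x * ‖fderiv ℝ f x‖ ^ 2) ≤
      G - 1 / 2 * ∫ x, η x ^ 2 * ‖fderiv ℝ f x‖ ^ 2 := by
    rw [hG, ← integral_const_mul, ← integral_sub iG (iF.const_mul _)]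
    refine integral_mono (J_int (S.adm n) hθ ht.le hκ) (iG.sub (iF.const_mul _)) fun x => ?_
    exact J_sq_le hη x
  have h3 : ∫ x, θ x * (v n x ^ 2 + t * θ x) ^ ((2 : ℝ) / 3) ≤ 1 / 3 * I3 + 2 / 3 * (Z + 1) := by
    have h4 : ∫ x, θ x * (v n x ^ 2 + t * θ x) ^ ((2 : ℝ) / 3) ≤
        ∫ x, (1 / 3 * θ x ^ 3 + 2 / 3 * (v n x ^ 2 + t * θ x)) := by
      have i4 : Integrable (fun x => v n x ^ 2 + t * θ x) :=
        (S.adm n).sq_int.add (hθ.int.const_mul t)
      refine integral_mono (tfint (S.adm n) hθ ht.le) ((i3.const_mul _).add (i4.const_mul _))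
        fun x => ?_
      have := young23 (c := 1) one_pos (hθ.nn x)
        (add_nonneg (sq_nonneg (v n x)) (mul_nonneg ht.le (hθ.nn x)))
      norm_num at this ⊢
      exact this
    have i4 : Integrable (fun x => v n x ^ 2 + t * θ x) :=
      (S.adm n).sq_int.add (hθ.int.const_mul t)
    rw [integral_add (i3.const_mul _) (i4.const_mul _), integral_const_mul, integral_const_mul,
      integral_add (S.adm n).sq_int (hθ.int.const_mul t), integral_const_mul] at h4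
    have h5 := S.mass n
    unfold Mass at h5
    rw [← hI3, ← hI1] at h4
    nlinarith
  have h4 : ∫ x, v n x ^ 2 * pot θ x ≤ Z * |B| := by
    have h5 := S.mass n
    unfold Mass at h5
    calc ∫ x, v n x ^ 2 * pot θ x ≤ ∫ x, v n x ^ 2 * |B| := by
          refine integral_mono (TF_E1_int _ _ (S.adm n).sq_int hθ.nice)
            ((S.adm n).sq_int.mul_const _) fun x => ?_
          have := hB x
          exact mul_le_mul_of_nonneg_left ((le_abs_self _).trans (this.trans (le_abs_self B)))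
            (sq_nonneg _)
      _ = (∫ x, v n x ^ 2) * |B| := integral_mul_const _ _
      _ ≤ Z * |B| := mul_le_mul_of_nonneg_right h5 (abs_nonneg _)
  have h5 : 0 ≤ ∑ i, z i * pot θ (R i) :=
    Finset.sum_nonneg fun i _ => mul_nonneg (hz i) (pot_nn hθ.nn _)
  have h6 : t / 2 * D ≤ D := by nlinarith
  linarith

/-- **Local integrability of the logarithm.** -/
theorem log_int (S : Seq z R ρ v) (hz : ∀ i, 0 ≤ z i) (hρ0 : ∀ x, 0 ≤ ρ x) (hρm : Measurable ρ)
    {T : ℝ} (hT : 0 < T) (hpos : volume ({x | 0 < ρ x} ∩ ball (0 : E3) T) ≠ 0) :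
    (∀ᵐ x ∂(volume.restrict (ball (0 : E3) T)), 0 < ρ x) ∧
      IntegrableOn (fun x => Real.log (ρ x)) (ball (0 : E3) T) := by
  set B := ball (0 : E3) T with hB
  let b : ContDiffBump (0 : E3) := ⟨T, T + 1, hT, by linarith⟩
  have hb1 : ∀ x ∈ B, (b : E3 → ℝ) x = 1 := fun x hx =>
    b.one_of_mem_closedBall (ball_subset_closedBall hx)
  have hbd : ContDiff ℝ 1 (b : E3 → ℝ) := b.contDiff
  obtain ⟨C, t0, ht0, hC⟩ := grad_bound S hz hbd b.hasCompactSupport
  set θ : E3 → ℝ := fun x => b x ^ 2 with hθd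
  have hθ : Tst θ := tst_sq hbd b.hasCompactSupport
  -- the sequence
  have hseq : ∀ j : ℕ, ∃ n : ℕ, j ≤ n ∧ ∃ κ : ℝ, 0 < κ ∧ κ < 1 / ((j : ℝ) + 1) ∧
      ∫ x, b x ^ 2 * ‖fderiv ℝ (ff (v n) θ (t0 / ((j : ℝ) + 1)) κ) x‖ ^ 2 ≤ C := by
    intro j
    have hj : (0 : ℝ) < (j : ℝ) + 1 := by positivity
    have hj1 : (1 : ℝ) ≤ (j : ℝ) + 1 := by linarith [(Nat.cast_nonneg j : (0:ℝ) ≤ (j:ℝ))]
    have h1 := hC (t0 / ((j : ℝ) + 1)) (by positivity) (div_le_self ht0.le hj1)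
      (1 / ((j : ℝ) + 1)) (by positivity) (by rw [div_le_one hj]; exact hj1)
    obtain ⟨n, hn1, hn2⟩ := (h1.and (eventually_ge_atTop j)).exists
    exact ⟨n, hn2, hn1⟩
  choose n hn κ hκ hκj hbound using hseq
  have hntop : Tendsto n atTop atTop := tendsto_atTop_mono hn tendsto_id
  set f : ℕ → E3 → ℝ := fun j => ff (v (n j)) θ (t0 / ((j : ℝ) + 1)) (κ j) with hf
  have htj : ∀ j : ℕ, 0 < t0 / ((j : ℝ) + 1) := fun j => by positivity
  have hfd : ∀ j, ContDiff ℝ 1 (f j) := fun j => ff_cd (S.adm _) hθ (htj j).le (hκ j)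
  -- Poincaré
  have hVfin : volume B ≠ ⊤ := measure_ball_lt_top.ne
  obtain ⟨M, hM, hPoi⟩ : ∃ M : ℝ≥0∞, M ≠ ⊤ ∧ ∀ j, ∫⁻ x in B, ∫⁻ y in B, ‖f j x - f j y‖ₑ ≤ M := by
    refine ⟨(ENNReal.ofReal (2 * T) * (8 * volume B)) * (volume B + ENNReal.ofReal C), ?_, fun j => ?_⟩
    · apply ENNReal.mul_ne_top
      · exact ENNReal.mul_ne_top ENNReal.ofReal_ne_top (ENNReal.mul_ne_top (by norm_num) hVfin)
      · exact ENNReal.add_ne_top.mpr ⟨hVfin, ENNReal.ofReal_ne_top⟩
    · refine (poincare T hT (f j) (hfd j)).trans ?_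
      refine mul_le_mul' le_rfl ?_
      have hfc : Continuous (fderiv ℝ (f j)) := (hfd j).continuous_fderiv (by norm_num)
      have h1 : ∀ x ∈ B, ‖fderiv ℝ (f j) x‖ₑ ≤
          1 + ENNReal.ofReal (b x ^ 2 * ‖fderiv ℝ (f j) x‖ ^ 2) := by
        intro x hx
        rw [hb1 x hx, ← ofReal_norm, ← ENNReal.ofReal_one, ← ENNReal.ofReal_add zero_le_one
          (by positivity)]
        apply ENNReal.ofReal_le_ofReal
        nlinarith [sq_nonneg (‖fderiv ℝ (f j) x‖ - 1 / 2)]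
      have iF : Integrable (fun x => b x ^ 2 * ‖fderiv ℝ (f j) x‖ ^ 2) :=
        (hθ.cont.mul (hfc.norm.pow 2)).integrable_of_hasCompactSupport hθ.cs.mul_right
      calc ∫⁻ x in B, ‖fderiv ℝ (f j) x‖ₑ
          ≤ ∫⁻ x in B, (1 + ENNReal.ofReal (b x ^ 2 * ‖fderiv ℝ (f j) x‖ ^ 2)) :=
            setLIntegral_mono' measurableSet_ball h1
        _ = volume B + ∫⁻ x in B, ENNReal.ofReal (b x ^ 2 * ‖fderiv ℝ (f j) x‖ ^ 2) := by
            rw [lintegral_add_left measurable_const]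
            simp
        _ ≤ volume B + ∫⁻ x, ENNReal.ofReal (b x ^ 2 * ‖fderiv ℝ (f j) x‖ ^ 2) := by
            gcongr
            exact Measure.restrict_le_self
        _ ≤ volume B + ENNReal.ofReal C := by
            gcongr
            rw [← ofReal_integral_eq_lintegral_ofReal iF (ae_of_all _ fun x => by positivity)]
            exact ENNReal.ofReal_le_ofReal (hbound j)
  -- Fatou
  have hfm : ∀ j, Measurable (f j) := fun j => (hfd j).continuous.measurable
  have hPhi : ∀ j, Measurable (fun p : E3 × E3 => ‖f j p.1 - f j p.2‖ₑ) := fun j =>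
    (((hfm j).comp measurable_fst).sub ((hfm j).comp measurable_snd)).enorm
  set Ψ : E3 → ℝ≥0∞ := fun x => ∫⁻ y in B, liminf (fun j => ‖f j x - f j y‖ₑ) atTop with hΨ
  have hΨle : ∫⁻ x in B, Ψ x ≤ M := by
    calc ∫⁻ x in B, Ψ x ≤ ∫⁻ x in B, liminf (fun j => ∫⁻ y in B, ‖f j x - f j y‖ₑ) atTop := by
          refine lintegral_mono fun x => ?_
          exact lintegral_liminf_le fun j => (measurable_const.sub (hfm j)).enorm
      _ ≤ liminf (fun j => ∫⁻ x in B, ∫⁻ y in B, ‖f j x - f j y‖ₑ) atTop :=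
          lintegral_liminf_le fun j => (hPhi j).lintegral_prod_right'
      _ ≤ M := by
          refine liminf_le_of_le (by isBoundedDefault) fun c hc => ?_
          obtain ⟨j, hj⟩ := hc.exists
          exact hj.trans (hPoi j)
  have hΨm : Measurable Ψ := by
    have : Measurable (fun p : E3 × E3 => liminf (fun j => ‖f j p.1 - f j p.2‖ₑ) atTop) :=
      Measurable.liminf hPhi
    exact this.lintegral_prod_right'
  have hΨae : ∀ᵐ x ∂(volume.restrict B), Ψ x < ⊤ :=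
    ae_lt_top hΨm (ne_top_of_le_ne_top hM hΨle)
  -- pick a point
  have haeB : ∀ᵐ x ∂(volume.restrict B), Tendsto (fun n => v n x ^ 2) atTop (𝓝 (ρ x)) :=
    ae_restrict_of_ae S.ae
  have hmemB : ∀ᵐ x ∂(volume.restrict B), x ∈ B := ae_restrict_mem measurableSet_ball
  obtain ⟨x0, hx0pos, hx0Ψ, hx0lim, hx0B⟩ : ∃ x0, 0 < ρ x0 ∧ Ψ x0 < ⊤ ∧
      Tendsto (fun n => v n x0 ^ 2) atTop (𝓝 (ρ x0)) ∧ x0 ∈ B := by
    by_contra hcon
    push Not at hcon
    apply hpos
    have hms : MeasurableSet {x | 0 < ρ x} := measurableSet_lt measurable_const hρm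
    rw [← Measure.restrict_apply hms]
    have : ∀ᵐ x ∂(volume.restrict B), ¬ (0 < ρ x) := by
      filter_upwards [hΨae, haeB, hmemB] with x h1 h2 h3 h4
      exact hcon x h4 h1 h2 h3
    exact measure_eq_zero_iff_ae_notMem.mpr this
  -- limits of the logarithms
  have hRR : ∀ x ∈ B, Tendsto (fun n => v n x ^ 2) atTop (𝓝 (ρ x)) →
      Tendsto (fun j => RR (v (n j)) θ (t0 / ((j : ℝ) + 1)) (κ j) x) atTop (𝓝 (ρ x)) := by
    intro x hx hlim
    have e1 : ∀ j, RR (v (n j)) θ (t0 / ((j : ℝ) + 1)) (κ j) x =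
        v (n j) x ^ 2 + t0 / ((j : ℝ) + 1) + κ j ^ 2 := by
      intro j
      unfold RR
      rw [hθd]
      simp only
      rw [hb1 x hx]
      ring
    simp only [e1]
    have l1 : Tendsto (fun j => v (n j) x ^ 2) atTop (𝓝 (ρ x)) := hlim.comp hntop
    have l0 : Tendsto (fun j : ℕ => 1 / ((j : ℝ) + 1)) atTop (𝓝 0) :=
      tendsto_one_div_add_atTop_nhds_zero_nat
    have l2 : Tendsto (fun j : ℕ => t0 / ((j : ℝ) + 1)) atTop (𝓝 0) := by
      have := l0.const_mul t0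
      rw [mul_zero] at this
      exact this.congr fun j => by ring
    have l3 : Tendsto (fun j => κ j) atTop (𝓝 0) :=
      squeeze_zero (fun j => (hκ j).le) (fun j => (hκj j).le) l0
    have := (l1.add l2).add (l3.pow 2)
    simpa using this
  have hRRpos : ∀ j x, 0 < RR (v (n j)) θ (t0 / ((j : ℝ) + 1)) (κ j) x := fun j x =>
    RR_pos hθ.nn (htj j).le (hκ j) x
  have hfx0 : Tendsto (fun j => f j x0) atTop (𝓝 (1 / 2 * Real.log (ρ x0))) :=
    ((Real.continuousAt_log hx0pos.ne').tendsto.comp (hRR x0 hx0B hx0lim)).const_mul _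
  have hy : ∀ᵐ y ∂(volume.restrict B), liminf (fun j => ‖f j x0 - f j y‖ₑ) atTop < ⊤ :=
    ae_lt_top (Measurable.liminf fun j => (measurable_const.sub (hfm j)).enorm) hx0Ψ.ne
  have hposae : ∀ᵐ x ∂(volume.restrict B), 0 < ρ x := by
    filter_upwards [hy, haeB, hmemB] with y h1 h2 h3
    by_contra hneg
    have hy0 : ρ y = 0 := le_antisymm (not_lt.mp hneg) (hρ0 y)
    have l1 := hRR y h3 h2
    rw [hy0] at l1
    have l2 : Tendsto (fun j => f j y) atTop atBot := by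
      have h5 : Tendsto (fun j => RR (v (n j)) θ (t0 / ((j : ℝ) + 1)) (κ j) y) atTop (𝓝[>] 0) :=
        tendsto_nhdsWithin_iff.mpr ⟨l1, Eventually.of_forall fun j => hRRpos j y⟩
      exact (Real.tendsto_log_nhdsGT_zero.comp h5).const_mul_atBot (by norm_num)
    have l3 : Tendsto (fun j => f j x0 - f j y) atTop atTop := by
      have := hfx0.add_atTop (tendsto_neg_atBot_atTop.comp l2)
      exact this
    have l4 : Tendsto (fun j => ‖f j x0 - f j y‖ₑ) atTop (𝓝 ⊤) := by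
      have h6 : Tendsto (fun j => ENNReal.ofReal (f j x0 - f j y)) atTop (𝓝 ⊤) :=
        ENNReal.tendsto_ofReal_atTop.comp l3
      refine tendsto_of_tendsto_of_tendsto_of_le_of_le h6 tendsto_const_nhds (fun j => ?_)
        (fun j => le_top)
      exact Real.ofReal_le_enorm _
    rw [l4.liminf_eq] at h1
    exact lt_irrefl _ h1
  refine ⟨hposae, ?_⟩
  -- integrability
  have hL : ∫⁻ y in B, ‖1 / 2 * Real.log (ρ x0) - 1 / 2 * Real.log (ρ y)‖ₑ < ⊤ := by
    refine lt_of_le_of_lt (le_of_eq (lintegral_congr_ae ?_)) hx0Ψ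
    filter_upwards [hposae, haeB, hmemB] with y h1 h2 h3
    have l1 : Tendsto (fun j => f j y) atTop (𝓝 (1 / 2 * Real.log (ρ y))) :=
      ((Real.continuousAt_log h1.ne').tendsto.comp (hRR y h3 h2)).const_mul _
    exact ((hfx0.sub l1).enorm.liminf_eq).symm
  have hi1 : IntegrableOn (fun y => 1 / 2 * Real.log (ρ x0) - 1 / 2 * Real.log (ρ y)) B :=
    ⟨(measurable_const.sub ((Real.measurable_log.comp hρm).const_mul _)).aestronglyMeasurable, hL⟩
  have hi2 : IntegrableOn (fun _ : E3 => 1 / 2 * Real.log (ρ x0)) B := integrableOn_const hVfin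
  have hi3 : IntegrableOn (fun y => 1 / 2 * Real.log (ρ y)) B := by
    have := hi2.sub hi1
    refine this.congr (ae_of_all _ fun y => ?_)
    simp
  have hi4 := hi3.const_mul 2
  refine hi4.congr (ae_of_all _ fun y => ?_)
  simp only
  ring

end

end Pool.Agent.X91.TW
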