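import Pool.Agent.X91.TW.Newt
import Pool.Agent.X91.TW.Grad

/-!
# Radial functions
-/

set_option autoImplicit false

open MeasureTheory Set Filter Topology Metric
open scoped RealInnerProductSpace ContDiff

namespace Pool.Agent.X91.TW

/-- profiles vanishing on `(-∞, a]` and on `[b, ∞)` -/
structure Prof (a b : ℝ) (φ : ℝ → ℝ) : Prop where
  cd : ContDiff ℝ 1 φ
  lo : ∀ s, s ≤ a → φ s = 0
  hi : ∀ s, b ≤ s → φ s = 0

variable {a b : ℝ} {φ : ℝ → ℝ}

lemma norm_hd {x : E3} (hx : x ≠ 0) :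
    HasFDerivAt (fun x : E3 => ‖x‖) ((1 / ‖x‖) • innerSL ℝ x) x := by
  have h1 := (hasStrictFDerivAt_norm_sq x).hasFDerivAt
  have hx' : 0 < ‖x‖ := norm_pos_iff.mpr hx
  have h2 := h1.sqrt (by positivity)
  have h3 : (fun x : E3 => √(‖x‖ ^ 2)) = fun x : E3 => ‖x‖ := by
    funext x; exact Real.sqrt_sq (norm_nonneg _)
  rw [h3] at h2
  refine h2.congr_fderiv ?_
  rw [Real.sqrt_sq hx'.le]
  ext v
  simp
  field_simp

lemma rad_hd (ha : 0 < a) (h : ContDiff ℝ 1 φ) (hl : ∀ s, s ≤ a → φ s = 0) (x : E3) :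
    HasFDerivAt (fun x : E3 => φ ‖x‖) ((deriv φ ‖x‖ / ‖x‖) • innerSL ℝ x) x := by
  by_cases hx : x = 0
  · subst hx
    have h1 : (fun x : E3 => φ ‖x‖) =ᶠ[𝓝 0] fun _ => 0 := by
      have : ball (0 : E3) a ∈ 𝓝 (0 : E3) := ball_mem_nhds _ ha
      filter_upwards [this] with y hy
      exact hl _ (by simpa using (mem_ball_zero_iff.mp hy).le)
    have h2 : HasFDerivAt (fun _ : E3 => (0 : ℝ)) (0 : E3 →L[ℝ] ℝ) 0 := hasFDerivAt_const _ _
    refine (h2.congr_of_eventuallyEq h1).congr_fderiv ?_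
    ext v
    simp
  · have h1 : HasDerivAt φ (deriv φ ‖x‖) ‖x‖ := (h.differentiable (by norm_num) _).hasDerivAt
    have h2 := h1.comp_hasFDerivAt x (norm_hd hx)
    refine h2.congr_fderiv ?_
    rw [smul_smul]
    congr 1
    ring

lemma rad_fd (ha : 0 < a) (h : ContDiff ℝ 1 φ) (hl : ∀ s, s ≤ a → φ s = 0) (x v : E3) :
    fderiv ℝ (fun x : E3 => φ ‖x‖) x v = deriv φ ‖x‖ / ‖x‖ * ⟪x, v⟫ := by
  rw [(rad_hd ha h hl x).fderiv]
  simp

lemma rad_grad (ha : 0 < a) (h : ContDiff ℝ 1 φ) (hl : ∀ s, s ≤ a → φ s = 0) (x : E3) :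
    gradient (fun x : E3 => φ ‖x‖) x = (deriv φ ‖x‖ / ‖x‖) • x := by
  apply ext_inner_right ℝ
  intro v
  rw [grad_inner, rad_fd ha h hl, inner_smul_left]
  simp

lemma rad_cd (ha : 0 < a) (h : ContDiff ℝ 1 φ) (hl : ∀ s, s ≤ a → φ s = 0) :
    ContDiff ℝ 1 (fun x : E3 => φ ‖x‖) := by
  rw [contDiff_iff_contDiffAt]
  intro x
  by_cases hx : x = 0
  · subst hx
    have h1 : (fun x : E3 => φ ‖x‖) =ᶠ[𝓝 0] fun _ => 0 := by
      have : ball (0 : E3) a ∈ 𝓝 (0 : E3) := ball_mem_nhds _ ha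
      filter_upwards [this] with y hy
      exact hl _ (by simpa using (mem_ball_zero_iff.mp hy).le)
    exact contDiffAt_const.congr_of_eventuallyEq h1
  · exact h.contDiffAt.comp x (contDiffAt_norm ℝ hx)

lemma rad_cs (hh : ∀ s, b ≤ s → φ s = 0) : HasCompactSupport (fun x : E3 => φ ‖x‖) := by
  refine exists_compact_iff_hasCompactSupport.mp ⟨closedBall 0 b, isCompact_closedBall _ _, ?_⟩
  intro x hx
  apply hh
  rw [mem_closedBall_zero_iff, not_le] at hx
  exact hx.le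

lemma rad_int (φ : ℝ → ℝ) : ∫ x : E3, φ ‖x‖ = 4 * Real.pi * ∫ r in Ioi (0 : ℝ), r ^ 2 * φ r := by
  rw [integral_fun_norm_addHaar volume φ]
  have h1 : Module.finrank ℝ E3 = 3 := by simp
  have h2 : (volume : Measure E3).real (ball 0 1) = 4 / 3 * Real.pi := by
    rw [Measure.real, EuclideanSpace.volume_ball_fin_three]
    simp
    rw [ENNReal.toReal_ofReal (by positivity)]
    ring
  rw [h1, h2]
  simp only [nsmul_eq_mul, smul_eq_mul]
  norm_num
  ring

/-- quotient by a power -/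
lemma dq (ha : 0 < a) (h : Prof a b φ) (m : ℕ) :
    Prof a b (fun r => φ r / r ^ m) ∧ ∀ r, 0 < r →
      deriv (fun r => φ r / r ^ m) r = deriv φ r / r ^ m - m * φ r / r ^ (m + 1) := by
  refine ⟨⟨?_, fun s hs => by simp [h.lo s hs], fun s hs => by simp [h.hi s hs]⟩, ?_⟩
  · rw [contDiff_iff_contDiffAt]
    intro r
    by_cases hr : r < a
    · have h1 : (fun r => φ r / r ^ m) =ᶠ[𝓝 r] fun _ => 0 := by
        filter_upwards [Iio_mem_nhds hr] with s hs
        rw [h.lo s (le_of_lt hs), zero_div]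
      exact contDiffAt_const.congr_of_eventuallyEq h1
    · have : 0 < r := lt_of_lt_of_le ha (not_lt.mp hr)
      exact h.cd.contDiffAt.div (contDiffAt_id.pow m) (pow_ne_zero m this.ne')
  · intro r hr
    have h1 : HasDerivAt φ (deriv φ r) r := (h.cd.differentiable (by norm_num) _).hasDerivAt
    have h2 := h1.div (hasDerivAt_pow m r) (by positivity)
    have h3 : deriv (fun r => φ r / r ^ m) r = _ := h2.deriv
    rw [h3]
    rcases m with _ | m
    · simp
    · simp only [Nat.add_sub_cancel]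
      push_cast
      field_simp
      ring

end Pool.Agent.X91.TW
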