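import Pool.Agent.X91.TW.Ex3
import Pool.Agent.X91.TW.Poi

/-!
# The raw variational inequality along an approximating sequence
-/

set_option autoImplicit false

open MeasureTheory Set Filter Topology
open scoped RealInnerProductSpace ContDiff ENNReal

namespace Pool.Agent.X91.TW

open Pool.Agent.Helper436.TFW (Adm Kin Pot TFe Mass Dir)
open Pool.Agent.Helper557.TFP (Nice pot nice_bound TF_E1_meas TF_E1_bdd TF_E1_int TF_E1_dbl
  TF_E1_symm TF_E1_potsub)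

/-- an approximating sequence together with the variational inequality -/
structure Seq {k : ℕ} (z : Fin k → ℝ) (R : Fin k → E3) (ρ : E3 → ℝ) (v : ℕ → E3 → ℝ) : Prop where
  adm : ∀ n, Adm (v n)
  nn : ∀ n x, 0 ≤ v n x
  mass : ∀ n, Mass (v n) ≤ ∑ i, z i
  ae : ∀ᵐ x, Tendsto (fun n => v n x ^ 2) atTop (𝓝 (ρ x))
  l1 : Tendsto (fun n => ∫ x, |v n x ^ 2 - ρ x|) atTop (𝓝 0)
  var : ∀ θ : E3 → ℝ, Tst θ → ∀ t : ℝ, 0 < t → t * ∫ x, θ x ≤ 1 → ∀ ε : ℝ, 0 < ε →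
    ∀ᶠ n in atTop, ∃ κ : ℝ, 0 < κ ∧ κ < ε ∧
      0 ≤ (∫ x, (fderiv ℝ (ff (v n) θ t κ) x (gradient θ x) -
          θ x * ‖fderiv ℝ (ff (v n) θ t κ) x‖ ^ 2)) +
        6 / 5 * (∫ x, θ x * (v n x ^ 2 + t * θ x) ^ ((2 : ℝ) / 3)) -
        (∑ i, z i * pot θ (R i)) + (∫ x, v n x ^ 2 * pot θ x) +
        t / 2 * (∫ x, θ x * pot θ x) + ε

theorem raw {k : ℕ} (z : Fin k → ℝ) (hz : ∀ i, 0 ≤ z i) (R : Fin k → E3) {ρ : E3 → ℝ}
    {g : E3 → E3} (H : AP ρ g)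
    (hmin : ∀ u, Adm u → Mass u ≤ (∑ i, z i) + 1 → ET z R ρ g ≤ En z R u)
    (hmass : ∫ x, ρ x ≤ ∑ i, z i) : ∃ v : ℕ → E3 → ℝ, Seq z R ρ v := by
  obtain ⟨v, hv, hv0, hvm, hva, hvl, hvE⟩ := dens z hz R H
  refine ⟨v, hv, hv0, fun n => (hvm n).trans hmass, hva, hvl, ?_⟩
  intro θ hθ t ht htθ ε hε
  have hE := hvE (t * ε / 2) (by positivity)
  filter_upwards [hE] with n hn
  obtain ⟨κ, hκ, hκε, h1, h2, h3⟩ := var_ineq (hv n) hθ ht.le z hz R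
    (ε := min ε (t * ε / 2)) (lt_min hε (by positivity))
  refine ⟨κ, hκ, lt_of_lt_of_le hκε (min_le_left _ _), ?_⟩
  have h4 : Mass (mm (v n) θ t κ) ≤ (∑ i, z i) + 1 := by
    have := hvm n
    linarith
  have h5 := hmin _ h1 h4
  have h6 : min ε (t * ε / 2) ≤ t * ε / 2 := min_le_right _ _
  by_contra hneg
  push Not at hneg
  have h7 := mul_neg_of_pos_of_neg ht hneg
  nlinarith

/-- The gradient estimate: bound on `∬ |f(x) - f(y)|` for the logarithm. -/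
lemma young23 {c θ x : ℝ} (hc : 0 < c) (hθ : 0 ≤ θ) (hx : 0 ≤ x) :
    θ * x ^ ((2 : ℝ) / 3) ≤ c ^ 2 / 3 * θ ^ 3 + 2 / (3 * c) * x := by
  set y := x ^ ((1 : ℝ) / 3) with hy
  have hy0 : 0 ≤ y := Real.rpow_nonneg hx _
  have hy3 : y ^ 3 = x := by
    rw [hy, ← Real.rpow_natCast, ← Real.rpow_mul hx]; norm_num
  have hy2 : x ^ ((2 : ℝ) / 3) = y ^ 2 := by
    rw [hy, ← Real.rpow_natCast, ← Real.rpow_mul hx]; norm_num
  rw [hy2, ← hy3]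
  -- with A = c θ : 3 A y² ≤ A³ + 2 y³
  have h1 : 3 * (c * θ) * y ^ 2 ≤ (c * θ) ^ 3 + 2 * y ^ 3 := by
    have hA : 0 ≤ c * θ := by positivity
    nlinarith [mul_nonneg (sq_nonneg (c * θ - y)) (by positivity : 0 ≤ c * θ + 2 * y)]
  have h2 : θ * y ^ 2 = (3 * (c * θ) * y ^ 2) / (3 * c) := by field_simp
  have h3 : c ^ 2 / 3 * θ ^ 3 + 2 / (3 * c) * y ^ 3 = ((c * θ) ^ 3 + 2 * y ^ 3) / (3 * c) := by
    field_simp
  rw [h2, h3]
  exact div_le_div_of_nonneg_right h1 (by positivity)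

end Pool.Agent.X91.TW
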