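import Pool.Agent.X91.TW.Rad

/-!
# The shell profile
-/

set_option autoImplicit false

open MeasureTheory Set Filter Topology Metric
open scoped RealInnerProductSpace ContDiff

namespace Pool.Agent.X91.TW

/-- smooth transition -/
noncomputable def Sm (s : ℝ) : ℝ := Real.smoothTransition s
/-- its derivative -/
noncomputable def dS (s : ℝ) : ℝ := deriv Sm s

lemma Sm_cd : ContDiff ℝ 1 Sm := by
  unfold Sm
  exact Real.smoothTransition.contDiff (n := 1)

lemma Sm_cd2 : ContDiff ℝ 2 Sm := by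
  unfold Sm
  exact Real.smoothTransition.contDiff (n := 2)

lemma Sm_hd (s : ℝ) : HasDerivAt Sm (dS s) s :=
  (Sm_cd.differentiable (by norm_num) s).hasDerivAt

lemma dS_cont : Continuous dS := Sm_cd.continuous_deriv (by norm_num)

lemma Sm_zero {s : ℝ} (h : s ≤ 0) : Sm s = 0 := Real.smoothTransition.zero_of_nonpos h
lemma Sm_one {s : ℝ} (h : 1 ≤ s) : Sm s = 1 := Real.smoothTransition.one_of_one_le h
lemma Sm_mono : Monotone Sm := Real.smoothTransition.monotone
lemma Sm_nn (s : ℝ) : 0 ≤ Sm s := Real.smoothTransition.nonneg s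
lemma Sm_le (s : ℝ) : Sm s ≤ 1 := Real.smoothTransition.le_one s

lemma dS_nn (s : ℝ) : 0 ≤ dS s := by
  unfold dS
  exact Sm_mono.deriv_nonneg

lemma dS_lo {s : ℝ} (h : s ≤ 0) : dS s = 0 := by
  have h1 : HasDerivWithinAt Sm (dS s) (Iic s) s := (Sm_hd s).hasDerivWithinAt
  have h2 : HasDerivWithinAt Sm 0 (Iic s) s :=
    (hasDerivWithinAt_const s (Iic s) (0 : ℝ)).congr (fun y hy => Sm_zero (le_trans hy h)) (Sm_zero h)
  exact (uniqueDiffWithinAt_Iic s).eq_deriv _ h1 h2

lemma dS_hi {s : ℝ} (h : 1 ≤ s) : dS s = 0 := by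
  have h1 : HasDerivWithinAt Sm (dS s) (Ici s) s := (Sm_hd s).hasDerivWithinAt
  have h2 : HasDerivWithinAt Sm 0 (Ici s) s :=
    (hasDerivWithinAt_const s (Ici s) (1 : ℝ)).congr (fun y hy => Sm_one (le_trans h hy)) (Sm_one h)
  exact (uniqueDiffWithinAt_Ici s).eq_deriv _ h1 h2

lemma dS_bdd : ∃ B : ℝ, 0 < B ∧ ∀ s, dS s ≤ B := by
  obtain ⟨C, hC⟩ := (isCompact_Icc (a := (0:ℝ)) (b := 1)).exists_bound_of_continuousOn
    dS_cont.continuousOn
  refine ⟨|C| + 1, by positivity, fun s => ?_⟩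
  by_cases h : s ∈ Icc (0:ℝ) 1
  · have := hC s h
    rw [Real.norm_eq_abs] at this
    have h2 := le_abs_self (dS s)
    have h3 := le_abs_self C
    linarith
  · rw [mem_Icc, not_and_or, not_le, not_le] at h
    have : dS s = 0 := by
      rcases h with h | h
      · exact dS_lo h.le
      · exact dS_hi h.le
    rw [this]; positivity

/-- the slope profile -/
noncomputable def hh (a r : ℝ) : ℝ := Sm (r / a - 1) - Sm (r / (2 * a) - 1)

/-- its primitive -/
noncomputable def HH (a r : ℝ) : ℝ := ∫ s in (0:ℝ)..r, hh a s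

/-- the outer cutoff -/
noncomputable def om (a l r : ℝ) : ℝ := 1 - Sm ((r - 4 * a) / (l * a))

/-- `r² θ` -/
noncomputable def th (a l r : ℝ) : ℝ := HH a r * om a l r ^ 2

/-- the test profile -/
noncomputable def gg (a l r : ℝ) : ℝ := th a l r / r ^ 2

/-- the vector field profile -/
noncomputable def kk (a r : ℝ) : ℝ := hh a r / r ^ 3

variable {a l : ℝ}

lemma hh_hd (a r : ℝ) : HasDerivAt (hh a)
    (dS (r / a - 1) / a - dS (r / (2 * a) - 1) / (2 * a)) r := by
  have h1 : HasDerivAt (fun r : ℝ => r / a - 1) (1 / a) r :=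
    ((hasDerivAt_id r).div_const a).sub_const 1
  have h2 : HasDerivAt (fun r : ℝ => r / (2 * a) - 1) (1 / (2 * a)) r :=
    ((hasDerivAt_id r).div_const (2 * a)).sub_const 1
  have h3 := ((Sm_hd (r / a - 1)).comp r h1).sub ((Sm_hd (r / (2 * a) - 1)).comp r h2)
  refine h3.congr_deriv ?_
  ring

lemma hh_cd (a : ℝ) : ContDiff ℝ 1 (hh a) := by
  unfold hh
  exact (Sm_cd.comp ((contDiff_id.div_const a).sub contDiff_const)).sub
    (Sm_cd.comp ((contDiff_id.div_const (2 * a)).sub contDiff_const))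

lemma hh_cont (a : ℝ) : Continuous (hh a) := (hh_cd a).continuous

lemma hh_lo (ha : 0 < a) {r : ℝ} (hr : r ≤ a) : hh a r = 0 := by
  unfold hh
  rw [Sm_zero, Sm_zero, sub_self]
  · have : r / (2 * a) ≤ 1 := by rw [div_le_one (by positivity)]; linarith
    linarith
  · have : r / a ≤ 1 := by rw [div_le_one ha]; exact hr
    linarith

lemma hh_hi (ha : 0 < a) {r : ℝ} (hr : 4 * a ≤ r) : hh a r = 0 := by
  unfold hh
  rw [Sm_one, Sm_one, sub_self]
  · have : 2 ≤ r / (2 * a) := by rw [le_div_iff₀ (by positivity)]; linarith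
    linarith
  · have : 2 ≤ r / a := by rw [le_div_iff₀ ha]; linarith
    linarith

lemma hh_nn (ha : 0 < a) (r : ℝ) : 0 ≤ hh a r := by
  by_cases h : r ≤ a
  · rw [hh_lo ha h]
  · have : 0 < r := lt_trans ha (not_le.mp h)
    unfold hh
    have h1 : r / (2 * a) ≤ r / a := div_le_div_of_nonneg_left this.le ha (by linarith)
    have := Sm_mono (show r / (2 * a) - 1 ≤ r / a - 1 by linarith)
    linarith

lemma hh_le (a r : ℝ) : hh a r ≤ 1 := by
  unfold hh
  have := Sm_le (r / a - 1)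
  have := Sm_nn (r / (2 * a) - 1)
  linarith

lemma hh_prof (ha : 0 < a) : Prof a (4 * a) (hh a) :=
  ⟨hh_cd a, fun _ h => hh_lo ha h, fun _ h => hh_hi ha h⟩

lemma HH_hd (a r : ℝ) : HasDerivAt (HH a) (hh a r) r := by
  unfold HH
  exact intervalIntegral.integral_hasDerivAt_right ((hh_cont a).intervalIntegrable _ _)
    ((hh_cont a).stronglyMeasurableAtFilter _ _) (hh_cont a).continuousAt

lemma HH_cd (a : ℝ) : ContDiff ℝ 1 (HH a) := by
  rw [contDiff_one_iff_deriv]
  refine ⟨fun r => (HH_hd a r).differentiableAt, ?_⟩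
  have : deriv (HH a) = hh a := by funext r; exact (HH_hd a r).deriv
  rw [this]; exact hh_cont a

lemma HH_mono (ha : 0 < a) : Monotone (HH a) :=
  monotone_of_hasDerivAt_nonneg (HH_hd a) fun r => hh_nn ha r

lemma HH_lo (ha : 0 < a) {r : ℝ} (hr : r ≤ a) : HH a r = 0 := by
  unfold HH
  rw [intervalIntegral.integral_zero_ae]
  refine ae_of_all _ fun s hs => hh_lo ha ?_
  rcases le_total 0 r with h | h
  · rw [uIoc_of_le h] at hs; exact hs.2.trans hr
  · rw [uIoc_of_ge h] at hs; exact hs.2.trans ha.le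

lemma HH_nn (ha : 0 < a) (r : ℝ) : 0 ≤ HH a r := by
  by_cases h : r ≤ a
  · rw [HH_lo ha h]
  · rw [← HH_lo ha (le_refl a)]
    exact HH_mono ha (not_le.mp h).le

lemma HH_le (ha : 0 < a) (r : ℝ) : HH a r ≤ 3 * a := by
  have key : ∀ r, a ≤ r → r ≤ 4 * a → HH a r ≤ 3 * a := by
    intro r h1 h2
    have h3 : HH a r = ∫ s in a..r, hh a s := by
      have := intervalIntegral.integral_add_adjacent_intervals
        ((hh_cont a).intervalIntegrable (μ := volume) 0 a) ((hh_cont a).intervalIntegrable a r)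
      have h4 : ∫ s in (0:ℝ)..a, hh a s = 0 := HH_lo ha le_rfl
      rw [h4, zero_add] at this
      exact this.symm
    rw [h3]
    have h5 : ∫ s in a..r, hh a s ≤ ∫ s in a..r, (1 : ℝ) :=
      intervalIntegral.integral_mono_on h1 ((hh_cont a).intervalIntegrable _ _)
        (by simp) fun s _ => hh_le a s
    rw [intervalIntegral.integral_const, smul_eq_mul] at h5
    linarith
  rcases le_total r a with h | h
  · rw [HH_lo ha h]; positivity
  rcases le_total r (4 * a) with h' | h'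
  · exact key r h h'
  · have h3 : HH a r = HH a (4 * a) := by
      have := intervalIntegral.integral_add_adjacent_intervals
        ((hh_cont a).intervalIntegrable (μ := volume) 0 (4 * a))
        ((hh_cont a).intervalIntegrable (4 * a) r)
      have h4 : ∫ s in (4 * a)..r, hh a s = 0 := by
        rw [intervalIntegral.integral_zero_ae]
        refine ae_of_all _ fun s hs => hh_hi ha ?_
        rw [uIoc_of_le h'] at hs; exact hs.1.le
      rw [h4, add_zero] at this
      exact this.symm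
    rw [h3]
    exact key _ (by linarith) le_rfl

lemma om_hd (a l r : ℝ) : HasDerivAt (om a l) (-(dS ((r - 4 * a) / (l * a)) / (l * a))) r := by
  have h1 : HasDerivAt (fun r : ℝ => (r - 4 * a) / (l * a)) (1 / (l * a)) r :=
    ((hasDerivAt_id r).sub_const _).div_const _
  have h3 := ((Sm_hd ((r - 4 * a) / (l * a))).comp r h1).const_sub 1
  refine h3.congr_deriv ?_
  ring

lemma om_cd (a l : ℝ) : ContDiff ℝ 1 (om a l) := by
  unfold om
  exact contDiff_const.sub (Sm_cd.comp ((contDiff_id.sub contDiff_const).div_const _))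

lemma om_one (ha : 0 < a) (hl : 0 < l) {r : ℝ} (hr : r ≤ 4 * a) : om a l r = 1 := by
  unfold om
  rw [Sm_zero, sub_zero]
  exact div_nonpos_of_nonpos_of_nonneg (by linarith) (by positivity)

lemma om_zero (ha : 0 < a) (hl : 0 < l) {r : ℝ} (hr : (4 + l) * a ≤ r) : om a l r = 0 := by
  unfold om
  rw [Sm_one, sub_self]
  rw [le_div_iff₀ (by positivity)]
  linarith

lemma om_nn (a l r : ℝ) : 0 ≤ om a l r := by
  unfold om; have := Sm_le ((r - 4 * a) / (l * a)); linarith

lemma om_le (a l r : ℝ) : om a l r ≤ 1 := by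
  unfold om; have := Sm_nn ((r - 4 * a) / (l * a)); linarith

lemma th_prof (ha : 0 < a) (hl : 0 < l) : Prof a ((4 + l) * a) (th a l) := by
  refine ⟨?_, fun s h => ?_, fun s h => ?_⟩
  · unfold th; exact (HH_cd a).mul ((om_cd a l).pow 2)
  · unfold th; rw [HH_lo ha h, zero_mul]
  · unfold th; rw [om_zero ha hl h]; ring

lemma th_nn (ha : 0 < a) (r : ℝ) : 0 ≤ th a l r := mul_nonneg (HH_nn ha r) (sq_nonneg _)

lemma th_le (ha : 0 < a) (r : ℝ) : th a l r ≤ 3 * a := by
  unfold th
  have h1 := HH_le ha r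
  have h2 := HH_nn ha r
  have h3 : om a l r ^ 2 ≤ 1 := pow_le_one₀ (om_nn a l r) (om_le a l r)
  calc HH a r * om a l r ^ 2 ≤ HH a r * 1 := mul_le_mul_of_nonneg_left h3 h2
    _ ≤ 3 * a := by linarith

/-- derivative of `th` -/
lemma th_deriv (ha : 0 < a) (hl : 0 < l) (r : ℝ) : deriv (th a l) r =
    hh a r + 2 * HH a r * om a l r * (-(dS ((r - 4 * a) / (l * a)) / (l * a))) := by
  have h1 := (HH_hd a r).mul ((om_hd a l r).pow 2)
  have h2 : deriv (th a l) r = _ := h1.deriv
  rw [h2]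
  have h3 : hh a r * om a l r ^ 2 = hh a r := by
    rcases le_total r (4 * a) with h | h
    · rw [om_one ha hl h]; ring
    · rw [hh_hi ha h]; ring
  simp only [Pi.pow_apply] 
  rw [h3]
  push_cast
  ring

lemma gg_prof (ha : 0 < a) (hl : 0 < l) : Prof a ((4 + l) * a) (gg a l) :=
  (dq ha (th_prof ha hl) 2).1

lemma kk_prof (ha : 0 < a) : Prof a (4 * a) (kk a) := (dq ha (hh_prof ha) 3).1

lemma gg_nn (ha : 0 < a) (r : ℝ) : 0 ≤ gg a l r := div_nonneg (th_nn ha r) (sq_nonneg _)

/-- the remainder -/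
noncomputable def Rem (a l r : ℝ) : ℝ :=
  hh a r / r ^ 3 + HH a r * (dS ((r - 4 * a) / (l * a)) / (l * a)) ^ 2 / r ^ 2 +
    th a l r / r ^ 4 - deriv (th a l) r / r ^ 3

lemma alg_ineq (ha : 0 < a) (hl : 0 < l) {r : ℝ} (hr : 0 < r) (p : ℝ) :
    deriv (gg a l) r * p - gg a l r * p ^ 2 ≤ p * (hh a r / r ^ 2) + Rem a l r := by
  have h1 : deriv (gg a l) r = deriv (th a l) r / r ^ 2 - 2 * th a l r / r ^ 3 := by
    have := (dq ha (th_prof ha hl) 2).2 r hr
    push_cast at this
    exact this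
  have h2 := th_deriv ha hl r
  set d := dS ((r - 4 * a) / (l * a)) / (l * a) with hd
  have h3 : th a l r = HH a r * om a l r ^ 2 := rfl
  have hH := HH_nn ha r
  unfold Rem
  rw [← hd, h1, h2, show gg a l r = th a l r / r ^ 2 from rfl, h3]
  set H := HH a r
  set w := om a l r
  set h := hh a r
  have key : 0 ≤ H * (d + w * (p + 1 / r)) ^ 2 / r ^ 2 := by positivity
  have e : p * (h / r ^ 2) + (h / r ^ 3 + H * d ^ 2 / r ^ 2 + H * w ^ 2 / r ^ 4 -
      (h + 2 * H * w * -d) / r ^ 3) -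
      (((h + 2 * H * w * -d) / r ^ 2 - 2 * (H * w ^ 2) / r ^ 3) * p - H * w ^ 2 / r ^ 2 * p ^ 2) =
      H * (d + w * (p + 1 / r)) ^ 2 / r ^ 2 := by
    field_simp
    ring
  linarith

end Pool.Agent.X91.TW
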