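import Pool.Agent.X91.TW.Shell

/-!
# Integrals attached to the shell profile
-/

set_option autoImplicit false

open MeasureTheory Set Filter Topology Metric
open scoped RealInnerProductSpace ContDiff

namespace Pool.Agent.X91.TW

variable {a l : ℝ}

/-- `∫ h / r = log 2` -/
lemma frul (ha : 0 < a) : ∫ r in a..(4 * a), hh a r / r = Real.log 2 := by
  set F : ℝ → ℝ := fun s => Sm (s - 1) / s with hF
  have hFc : ∀ u v : ℝ, 0 < u → 0 < v → IntervalIntegrable F volume u v := by
    intro u v hu hv
    apply ContinuousOn.intervalIntegrable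
    intro s hs
    have hs0 : 0 < s := lt_of_lt_of_le (lt_min hu hv) hs.1
    exact ((Sm_cd.continuous.comp (continuous_id.sub continuous_const)).continuousAt.div
      continuousAt_id hs0.ne').continuousWithinAt
  have e1 : ∀ r ∈ uIcc a (4 * a), hh a r / r = F (r / a) / a - F (r / (2 * a)) / (2 * a) := by
    intro r hr
    rw [uIcc_of_le (by linarith)] at hr
    have hr0 : 0 < r := lt_of_lt_of_le ha hr.1
    simp only [hF]
    unfold hh
    field_simp
  rw [intervalIntegral.integral_congr e1]
  have i1 : IntervalIntegrable (fun r => F (r / a) / a) volume a (4 * a) := by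
    apply ContinuousOn.intervalIntegrable
    intro r hr
    rw [uIcc_of_le (by linarith)] at hr
    have hr0 : 0 < r := lt_of_lt_of_le ha hr.1
    have : 0 < r / a := by positivity
    refine ContinuousAt.continuousWithinAt ?_
    refine ContinuousAt.div_const ?_ _
    refine ContinuousAt.div ?_ (continuous_id.div_const a).continuousAt this.ne'
    exact (Sm_cd.continuous.comp ((continuous_id.div_const a).sub continuous_const)).continuousAt
  have i2 : IntervalIntegrable (fun r => F (r / (2 * a)) / (2 * a)) volume a (4 * a) := by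
    apply ContinuousOn.intervalIntegrable
    intro r hr
    rw [uIcc_of_le (by linarith)] at hr
    have hr0 : 0 < r := lt_of_lt_of_le ha hr.1
    have : 0 < r / (2 * a) := by positivity
    refine ContinuousAt.continuousWithinAt ?_
    refine ContinuousAt.div_const ?_ _
    refine ContinuousAt.div ?_ (continuous_id.div_const (2 * a)).continuousAt this.ne'
    exact (Sm_cd.continuous.comp ((continuous_id.div_const (2 * a)).sub
      continuous_const)).continuousAt
  rw [intervalIntegral.integral_sub i1 i2, intervalIntegral.integral_div,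
    intervalIntegral.integral_div, intervalIntegral.integral_comp_div (fun s => F s) ha.ne',
    intervalIntegral.integral_comp_div (fun s => F s) (by positivity : (2 * a) ≠ 0)]
  have e2 : a / a = 1 := div_self ha.ne'
  have e3 : 4 * a / a = 4 := by field_simp
  have e4 : a / (2 * a) = 1 / 2 := by field_simp
  have e5 : 4 * a / (2 * a) = 2 := by field_simp; norm_num
  rw [e2, e3, e4, e5, smul_eq_mul, smul_eq_mul]
  have e6 : ∫ s in (1:ℝ)..4, F s = (∫ s in (1:ℝ)..2, F s) + ∫ s in (2:ℝ)..4, F s :=
    (intervalIntegral.integral_add_adjacent_intervals (hFc _ _ (by norm_num) (by norm_num))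
      (hFc _ _ (by norm_num) (by norm_num))).symm
  have e7 : ∫ s in (1/2:ℝ)..2, F s = (∫ s in (1/2:ℝ)..1, F s) + ∫ s in (1:ℝ)..2, F s :=
    (intervalIntegral.integral_add_adjacent_intervals (hFc _ _ (by norm_num) (by norm_num))
      (hFc _ _ (by norm_num) (by norm_num))).symm
  have e8 : ∫ s in (1/2:ℝ)..1, F s = 0 := by
    rw [intervalIntegral.integral_zero_ae]
    refine ae_of_all _ fun s hs => ?_
    rw [uIoc_of_le (by norm_num)] at hs
    simp only [hF]
    rw [Sm_zero (by linarith [hs.2]), zero_div]
  have e9 : ∫ s in (2:ℝ)..4, F s = Real.log 2 := by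
    have : ∫ s in (2:ℝ)..4, F s = ∫ s in (2:ℝ)..4, 1 / s := by
      refine intervalIntegral.integral_congr fun s hs => ?_
      rw [uIcc_of_le (by norm_num)] at hs
      simp only [hF]
      rw [Sm_one (by linarith [hs.1])]
    rw [this, integral_one_div_of_pos (by norm_num) (by norm_num)]
    norm_num
  rw [e6, e7, e8, e9]
  field_simp
  ring

lemma Rem_lo (ha : 0 < a) {r : ℝ} (hr : r < a) : Rem a l r = 0 := by
  unfold Rem
  have h1 : deriv (th a l) r = 0 := by
    have : (th a l) =ᶠ[𝓝 r] fun _ => 0 := by
      filter_upwards [Iio_mem_nhds hr] with s hs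
      unfold th
      rw [HH_lo ha (le_of_lt hs), zero_mul]
    rw [this.deriv_eq, deriv_const]
  rw [h1, hh_lo ha hr.le, HH_lo ha hr.le]
  unfold th
  rw [HH_lo ha hr.le]
  simp

lemma Rem_hi (ha : 0 < a) (hl : 0 < l) {r : ℝ} (hr : (4 + l) * a < r) : Rem a l r = 0 := by
  unfold Rem
  have h1 : deriv (th a l) r = 0 := by
    have : (th a l) =ᶠ[𝓝 r] fun _ => 0 := by
      filter_upwards [Ioi_mem_nhds hr] with s hs
      unfold th
      rw [om_zero ha hl (le_of_lt hs)]; ring
    rw [this.deriv_eq, deriv_const]
  have h2 : 1 ≤ (r - 4 * a) / (l * a) := by rw [le_div_iff₀ (by positivity)]; linarith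
  rw [h1, hh_hi ha (by nlinarith), dS_hi h2]
  unfold th
  rw [om_zero ha hl hr.le]
  simp

/-- the integral of the remainder -/
lemma Rem_int {B : ℝ} (hB : ∀ s, dS s ≤ B) (ha : 0 < a) (hl : 0 < l) :
    ∫ x : E3, Rem a l ‖x‖ ≤ 4 * Real.pi * (Real.log 2 + 3 * B ^ 2 / l) := by
  have hB0 : 0 ≤ B := (dS_nn 0).trans (hB 0)
  have h4 : 4 * a < (4 + l) * a := by nlinarith
  have hab : a < (4 + l) * a := by linarith
  rw [rad_int]
  refine mul_le_mul_of_nonneg_left ?_ (by positivity)
  -- restrict to the interval
  have e1 : ∫ r in Ioi (0 : ℝ), r ^ 2 * Rem a l r =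
      ∫ r in a..((4 + l) * a), r ^ 2 * Rem a l r := by
    rw [intervalIntegral.integral_of_le hab.le, ← integral_Icc_eq_integral_Ioc]
    refine setIntegral_eq_of_subset_of_forall_sdiff_eq_zero measurableSet_Ioi ?_ ?_
    · exact fun r hr => lt_of_lt_of_le ha hr.1
    · intro r hr
      have : r < a ∨ (4 + l) * a < r := by
        by_contra hcon
        push Not at hcon
        exact hr.2 ⟨hcon.1, hcon.2⟩
      rcases this with h | h
      · rw [Rem_lo ha h, mul_zero]
      · rw [Rem_hi ha hl h, mul_zero]
  rw [e1]
  set d : ℝ → ℝ := fun r => dS ((r - 4 * a) / (l * a)) / (l * a) with hd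
  have hdc : Continuous d := by
    refine Continuous.div_const (dS_cont.comp ?_) _
    exact (continuous_id.sub continuous_const).div_const _
  have hthc : Continuous (th a l) := (th_prof ha hl).cd.continuous
  have hthd : Continuous (deriv (th a l)) := (th_prof ha hl).cd.continuous_deriv (by norm_num)
  have e2 : ∀ r ∈ uIcc a ((4 + l) * a), r ^ 2 * Rem a l r =
      hh a r / r + HH a r * d r ^ 2 - (deriv (th a l) r / r - th a l r / r ^ 2) := by
    intro r hr
    rw [uIcc_of_le hab.le] at hr
    have hr0 : 0 < r := lt_of_lt_of_le ha hr.1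
    unfold Rem
    simp only [hd]
    field_simp
    ring
  rw [intervalIntegral.integral_congr e2]
  have cn : ∀ {u : ℝ → ℝ}, Continuous u → ∀ m : ℕ,
      IntervalIntegrable (fun r => u r / r ^ m) volume a ((4 + l) * a) := by
    intro u hu m
    apply ContinuousOn.intervalIntegrable
    intro r hr
    rw [uIcc_of_le hab.le] at hr
    have hr0 : 0 < r := lt_of_lt_of_le ha hr.1
    exact (hu.continuousAt.div (continuous_pow m).continuousAt
      (pow_ne_zero m hr0.ne')).continuousWithinAt
  have i1 : IntervalIntegrable (fun r => hh a r / r) volume a ((4 + l) * a) := by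
    simpa using cn (hh_cont a) 1
  have i2 : IntervalIntegrable (fun r => HH a r * d r ^ 2) volume a ((4 + l) * a) :=
    (((HH_cd a).continuous).mul (hdc.pow 2)).intervalIntegrable _ _
  have i3 : IntervalIntegrable (fun r => deriv (th a l) r / r - th a l r / r ^ 2) volume a
      ((4 + l) * a) := by
    have := (cn hthd 1).sub (cn hthc 2)
    simpa using this
  rw [intervalIntegral.integral_sub (i1.add i2) i3, intervalIntegral.integral_add i1 i2]
  have e3 : ∫ r in a..((4 + l) * a), hh a r / r = Real.log 2 := by
    rw [← frul ha]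
    have i4 : IntervalIntegrable (fun r => hh a r / r) volume a (4 * a) :=
      i1.mono_set (by rw [uIcc_of_le hab.le, uIcc_of_le (by linarith)]; exact Icc_subset_Icc_right h4.le)
    have i5 : IntervalIntegrable (fun r => hh a r / r) volume (4 * a) ((4 + l) * a) :=
      i1.mono_set (by
        rw [uIcc_of_le hab.le, uIcc_of_le h4.le]; exact Icc_subset_Icc_left (by linarith))
    rw [← intervalIntegral.integral_add_adjacent_intervals i4 i5]
    have : ∫ r in (4 * a)..((4 + l) * a), hh a r / r = 0 := by
      rw [intervalIntegral.integral_zero_ae]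
      refine ae_of_all _ fun s hs => ?_
      rw [uIoc_of_le h4.le] at hs
      rw [hh_hi ha hs.1.le, zero_div]
    rw [this, add_zero]
  have e4 : ∫ r in a..((4 + l) * a), (deriv (th a l) r / r - th a l r / r ^ 2) = 0 := by
    have hder : ∀ r ∈ uIcc a ((4 + l) * a), HasDerivAt (fun r => th a l r / r)
        (deriv (th a l) r / r - th a l r / r ^ 2) r := by
      intro r hr
      rw [uIcc_of_le hab.le] at hr
      have hr0 : 0 < r := lt_of_lt_of_le ha hr.1
      have h1 : HasDerivAt (th a l) (deriv (th a l) r) r :=
        ((th_prof ha hl).cd.differentiable (by norm_num) _).hasDerivAt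
      refine (h1.div (hasDerivAt_id r) hr0.ne').congr_deriv ?_
      simp only [id]
      field_simp
    rw [intervalIntegral.integral_eq_sub_of_hasDerivAt hder i3, (th_prof ha hl).lo _ le_rfl,
      (th_prof ha hl).hi _ le_rfl]
    simp
  have hII : ∀ u v : ℝ, IntervalIntegrable (fun r => HH a r * d r ^ 2) volume u v := fun u v =>
    Continuous.intervalIntegrable (((HH_cd a).continuous).mul (hdc.pow 2)) u v
  have e5 : ∫ r in a..((4 + l) * a), HH a r * d r ^ 2 ≤ 3 * B ^ 2 / l := by
    have h6 : ∫ r in a..((4 + l) * a), HH a r * d r ^ 2 =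
        ∫ r in (4 * a)..((4 + l) * a), HH a r * d r ^ 2 := by
      rw [← intervalIntegral.integral_add_adjacent_intervals (hII a (4 * a)) (hII (4 * a) _)]
      have : ∫ r in a..(4 * a), HH a r * d r ^ 2 = 0 := by
        rw [intervalIntegral.integral_zero_ae]
        refine ae_of_all _ fun s hs => ?_
        rw [uIoc_of_le (by linarith)] at hs
        simp only [hd]
        rw [dS_lo]
        · simp
        · exact div_nonpos_of_nonpos_of_nonneg (by linarith [hs.2]) (by positivity)
      rw [this, zero_add]
    rw [h6]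
    have h7 : ∫ r in (4 * a)..((4 + l) * a), HH a r * d r ^ 2 ≤
        ∫ r in (4 * a)..((4 + l) * a), 3 * a * (B / (l * a)) ^ 2 := by
      refine intervalIntegral.integral_mono_on h4.le
        ((((HH_cd a).continuous).mul (hdc.pow 2)).intervalIntegrable _ _) (by simp) fun s _ => ?_
      have h8 : 0 ≤ d s := div_nonneg (dS_nn _) (by positivity)
      have h9 : d s ≤ B / (l * a) := div_le_div_of_nonneg_right (hB _) (by positivity)
      exact mul_le_mul (HH_le ha s) (pow_le_pow_left₀ h8 h9 2) (by positivity) (by positivity)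
    refine h7.trans (le_of_eq ?_)
    rw [intervalIntegral.integral_const, smul_eq_mul]
    field_simp
    ring
  rw [e3, e4]
  linarith

end Pool.Agent.X91.TW
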