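import Pool.Agent.X91.TW.Shell2
import Pool.Agent.X91.TW.Pos

/-!
# The integrated shell inequality
-/

set_option autoImplicit false

open MeasureTheory Set Filter Topology Metric
open scoped RealInnerProductSpace ContDiff

namespace Pool.Agent.X91.TW

variable {a l b : ℝ}

lemma dq0 (ha : 0 < a) {u : ℝ → ℝ} (hu : Continuous u) (h0 : ∀ s, s ≤ a → u s = 0) (m : ℕ) :
    Continuous (fun r => u r / r ^ m) := by
  rw [continuous_iff_continuousAt]
  intro r
  by_cases hr : r < a
  · have h1 : (fun r => u r / r ^ m) =ᶠ[𝓝 r] fun _ => 0 := by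
      filter_upwards [Iio_mem_nhds hr] with s hs
      rw [h0 s (le_of_lt hs), zero_div]
    exact continuousAt_const.congr h1.symm
  · have : 0 < r := lt_of_lt_of_le ha (not_lt.mp hr)
    exact hu.continuousAt.div (continuous_pow m).continuousAt (pow_ne_zero m this.ne')

lemma Rem_cont (ha : 0 < a) (hl : 0 < l) : Continuous (Rem a l) := by
  have h1 := dq0 ha (hh_cont a) (fun s hs => hh_lo ha hs) 3
  have hd : Continuous (fun r => (dS ((r - 4 * a) / (l * a)) / (l * a)) ^ 2) :=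
    ((dS_cont.comp ((continuous_id.sub continuous_const).div_const _)).div_const _).pow 2
  have h2 := dq0 ha (((HH_cd a).continuous).mul hd)
    (fun s hs => by simp [HH_lo ha hs]) 2
  have h3 := dq0 ha (th_prof (l := l) ha hl).cd.continuous (th_prof ha hl).lo 4
  have h4 := dq0 ha ((th_prof (l := l) ha hl).cd.continuous_deriv (by norm_num))
    (fun s hs => by rw [th_deriv ha hl, hh_lo ha hs, HH_lo ha hs]; ring) 3
  exact ((h1.add h2).add h3).sub h4

lemma cc_int {φ : ℝ → ℝ} (hφ : Continuous φ) (hb : ∀ s, b < s → φ s = 0) :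
    Integrable (fun x : E3 => φ ‖x‖) := by
  refine (hφ.comp continuous_norm).integrable_of_hasCompactSupport ?_
  refine exists_compact_iff_hasCompactSupport.mp ⟨closedBall 0 b, isCompact_closedBall _ _, ?_⟩
  intro x hx
  rw [mem_closedBall_zero_iff, not_le] at hx
  exact hb _ hx

lemma cc_mul {φ : ℝ → ℝ} {F : E3 → ℝ} (hF : Continuous F) (hφ : Continuous φ)
    (hb : ∀ s, b < s → φ s = 0) : Integrable (fun x : E3 => F x * φ ‖x‖) := by
  refine (hF.mul (hφ.comp continuous_norm)).integrable_of_hasCompactSupport ?_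
  refine exists_compact_iff_hasCompactSupport.mp ⟨closedBall 0 b, isCompact_closedBall _ _, ?_⟩
  intro x hx
  rw [mem_closedBall_zero_iff, not_le] at hx
  simp [hb _ hx]

/-- the averaging weight -/
noncomputable def W (b r : ℝ) : ℝ := dS (r / b - 1) / (b * r ^ 2)

lemma W_nn (hb : 0 < b) (r : ℝ) : 0 ≤ W b r := div_nonneg (dS_nn _) (by positivity)

lemma W_lo (hb : 0 < b) {r : ℝ} (hr : r ≤ b) : W b r = 0 := by
  unfold W
  rw [dS_lo, zero_div]
  have : r / b ≤ 1 := by rw [div_le_one hb]; exact hr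
  linarith

lemma W_hi (hb : 0 < b) {r : ℝ} (hr : 2 * b ≤ r) : W b r = 0 := by
  unfold W
  rw [dS_hi, zero_div]
  have : 2 ≤ r / b := by rw [le_div_iff₀ hb]; exact hr
  linarith

lemma W_le {B : ℝ} (hB : ∀ s, dS s ≤ B) (hb : 0 < b) (r : ℝ) : W b r ≤ B / b ^ 3 := by
  have hB0 : 0 ≤ B := (dS_nn 0).trans (hB 0)
  by_cases h : r ≤ b
  · rw [W_lo hb h]; positivity
  · push Not at h
    unfold W
    have h1 : b ^ 3 ≤ b * r ^ 2 := by
      have : b ^ 2 ≤ r ^ 2 := pow_le_pow_left₀ hb.le h.le 2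
      nlinarith
    calc dS (r / b - 1) / (b * r ^ 2) ≤ B / (b * r ^ 2) :=
          div_le_div_of_nonneg_right (hB _) (by positivity)
      _ ≤ B / b ^ 3 := div_le_div_of_nonneg_left hB0 (by positivity) h1

lemma W_cont (hb : 0 < b) : Continuous (W b) := by
  have h1 : Continuous (fun r => dS (r / b - 1) / b) :=
    (dS_cont.comp ((continuous_id.div_const b).sub continuous_const)).div_const b
  have h2 := dq0 hb h1 (fun s hs => by
    rw [dS_lo, zero_div]
    have : s / b ≤ 1 := by rw [div_le_one hb]; exact hs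
    linarith) 2
  refine h2.congr fun r => ?_
  unfold W
  rw [div_div]

lemma W_mass (hb : 0 < b) : ∫ x : E3, W b ‖x‖ = 4 * Real.pi := by
  rw [rad_int]
  have e1 : ∫ r in Ioi (0 : ℝ), r ^ 2 * W b r = ∫ r in b..(2 * b), dS (r / b - 1) / b := by
    rw [intervalIntegral.integral_of_le (by linarith), ← integral_Icc_eq_integral_Ioc]
    have : ∫ r in Ioi (0 : ℝ), r ^ 2 * W b r = ∫ r in Icc b (2 * b), r ^ 2 * W b r := by
      refine setIntegral_eq_of_subset_of_forall_sdiff_eq_zero measurableSet_Ioi ?_ ?_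
      · exact fun r hr => lt_of_lt_of_le hb hr.1
      · intro r hr
        have : r < b ∨ 2 * b < r := by
          by_contra hcon
          push Not at hcon
          exact hr.2 ⟨hcon.1, hcon.2⟩
        rcases this with h | h
        · rw [W_lo hb h.le, mul_zero]
        · rw [W_hi hb h.le, mul_zero]
    rw [this]
    refine setIntegral_congr_fun measurableSet_Icc fun r hr => ?_
    have hr0 : 0 < r := lt_of_lt_of_le hb hr.1
    unfold W
    field_simp
  have h1 : Continuous (fun r => dS (r / b - 1) / b) :=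
    (dS_cont.comp ((continuous_id.div_const b).sub continuous_const)).div_const b
  have e2 : ∫ r in b..(2 * b), dS (r / b - 1) / b = 1 := by
    have hder : ∀ r ∈ uIcc b (2 * b), HasDerivAt (fun r => Sm (r / b - 1)) (dS (r / b - 1) / b) r := by
      intro r _
      have h2 : HasDerivAt (fun r : ℝ => r / b - 1) (1 / b) r :=
        ((hasDerivAt_id r).div_const b).sub_const 1
      refine ((Sm_hd (r / b - 1)).comp r h2).congr_deriv ?_
      ring
    rw [intervalIntegral.integral_eq_sub_of_hasDerivAt hder (h1.intervalIntegrable _ _)]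
    have h3 : 2 * b / b - 1 = 1 := by field_simp; norm_num
    have h4 : b / b - 1 = 0 := by rw [div_self hb.ne']; ring
    rw [h3, h4, Sm_one le_rfl, Sm_zero le_rfl]
    ring
  rw [e1, e2, mul_one]

/-- integration by parts against a radial field -/
lemma ibp_rad {f : E3 → ℝ} (hf : ContDiff ℝ 1 f) (ha : 0 < a) :
    ∫ x, fderiv ℝ f x x * kk a ‖x‖ = (∫ x, f x * W (2 * a) ‖x‖) - ∫ x, f x * W a ‖x‖ := by
  set K : E3 → ℝ := fun x => kk a ‖x‖ with hK
  have hKc : ContDiff ℝ 1 K := rad_cd ha (kk_prof ha).cd (kk_prof ha).lo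
  have hKs : HasCompactSupport K := rad_cs (kk_prof ha).hi
  set e : Fin 3 → E3 := fun i => EuclideanSpace.single i (1 : ℝ) with he
  set g : Fin 3 → E3 → ℝ := fun i x => x i * K x with hg
  have hproj : ∀ i : Fin 3, ContDiff ℝ 1 (fun x : E3 => x i) := fun i => by
    exact (EuclideanSpace.proj i : E3 →L[ℝ] ℝ).contDiff
  have hgc : ∀ i, ContDiff ℝ 1 (g i) := fun i => (hproj i).mul hKc
  have hgs : ∀ i, HasCompactSupport (g i) := fun i => by
    exact hKs.mul_left
  have hfd : Continuous (fderiv ℝ f) := hf.continuous_fderiv (by norm_num)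
  have key : ∀ i : Fin 3, ∫ x, f x * fderiv ℝ (g i) x (e i) =
      -∫ x, fderiv ℝ f x (e i) * g i x := fun i => ibp hf (hgc i) (hgs i) _
  have i1 : ∀ i : Fin 3, Integrable (fun x => fderiv ℝ f x (e i) * g i x) := fun i =>
    ((hfd.clm_apply continuous_const).mul (hgc i).continuous).integrable_of_hasCompactSupport
      (hgs i).mul_left
  have i2 : ∀ i : Fin 3, Integrable (fun x => f x * fderiv ℝ (g i) x (e i)) := fun i => by
    refine (hf.continuous.mul (((hgc i).continuous_fderiv (by norm_num)).clm_apply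
      continuous_const)).integrable_of_hasCompactSupport ?_
    exact HasCompactSupport.mul_left (((hgs i).fderiv ℝ).comp_left
      (g := fun L : E3 →L[ℝ] ℝ => L (e i)) rfl)
  have hsum : ∑ i, ∫ x, f x * fderiv ℝ (g i) x (e i) =
      -∑ i, ∫ x, fderiv ℝ f x (e i) * g i x := by
    rw [← Finset.sum_neg_distrib]
    exact Finset.sum_congr rfl fun i _ => key i
  rw [← integral_finsetSum _ (fun i _ => i1 i), ← integral_finsetSum _ (fun i _ => i2 i)] at hsum
  have e1 : ∀ x : E3, ∑ i, fderiv ℝ f x (e i) * g i x = fderiv ℝ f x x * K x := by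
    intro x
    have hx : x = ∑ i, x i • e i := by
      ext j
      simp [he, Finset.sum_apply, Pi.single_apply]
    have h1 : fderiv ℝ f x x = ∑ i, x i * fderiv ℝ f x (e i) := by
      conv_lhs => rw [show (fderiv ℝ f x) x = (fderiv ℝ f x) (∑ i, x i • e i) by rw [← hx]]
      rw [map_sum]
      simp
    rw [h1, Finset.sum_mul]
    refine Finset.sum_congr rfl fun i _ => ?_
    simp only [hg]
    ring
  have e2 : ∀ x : E3, ∑ i, f x * fderiv ℝ (g i) x (e i) =
      f x * W a ‖x‖ - f x * W (2 * a) ‖x‖ := by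
    intro x
    have hd1 : ∀ i : Fin 3, fderiv ℝ (g i) x (e i) = K x + x i * fderiv ℝ K x (e i) := by
      intro i
      have h1 : HasFDerivAt (fun x : E3 => x i) (EuclideanSpace.proj i : E3 →L[ℝ] ℝ) x :=
        (EuclideanSpace.proj i : E3 →L[ℝ] ℝ).hasFDerivAt
      have h2 : HasFDerivAt K (fderiv ℝ K x) x := (hKc.differentiable (by norm_num) x).hasFDerivAt
      have h3 := h1.mul h2
      have h4 : fderiv ℝ (g i) x = _ := h3.fderiv
      rw [h4]
      simp [he]
      ring
    have h2 : ∑ i, f x * fderiv ℝ (g i) x (e i) = f x * (3 * K x + fderiv ℝ K x x) := by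
      have hx : x = ∑ i, x i • e i := by
        ext j
        simp [he, Finset.sum_apply, Pi.single_apply]
      have h1 : fderiv ℝ K x x = ∑ i, x i * fderiv ℝ K x (e i) := by
        conv_lhs => rw [show (fderiv ℝ K x) x = (fderiv ℝ K x) (∑ i, x i • e i) by rw [← hx]]
        rw [map_sum]
        simp
      rw [← Finset.mul_sum, h1]
      congr 1
      rw [Finset.sum_congr rfl (fun i _ => hd1 i), Finset.sum_add_distrib]
      simp
    rw [h2, ← mul_sub]
    congr 1
    rw [hK, rad_fd ha (kk_prof ha).cd (kk_prof ha).lo, real_inner_self_eq_norm_sq]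
    by_cases hx0 : x = 0
    · subst hx0
      simp [W, (kk_prof ha).lo 0 ha.le]
    · have hr : 0 < ‖x‖ := norm_pos_iff.mpr hx0
      have h3 := (dq ha (hh_prof ha) 3).2 ‖x‖ hr
      have h4 : deriv (kk a) ‖x‖ = deriv (hh a) ‖x‖ / ‖x‖ ^ 3 - 3 * hh a ‖x‖ / ‖x‖ ^ 4 := by
        push_cast at h3
        exact h3
      rw [h4, (hh_hd a ‖x‖).deriv]
      unfold W kk
      field_simp
      ring
  simp only [e1, e2] at hsum
  have iW1 : Integrable (fun x => f x * W a ‖x‖) :=
    cc_mul (b := 2 * a) hf.continuous (W_cont ha) fun s hs => W_hi ha hs.le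
  have iW2 : Integrable (fun x => f x * W (2 * a) ‖x‖) :=
    cc_mul (b := 2 * (2 * a)) hf.continuous (W_cont (by positivity))
      fun s hs => W_hi (by positivity) hs.le
  rw [integral_sub iW1 iW2] at hsum
  linarith

lemma grad_add_mul {u w : E3 → ℝ} (hu : ContDiff ℝ 1 u) (hw : ContDiff ℝ 1 w) (δ : ℝ) (x : E3) :
    gradient (fun x => u x + δ * w x) x = gradient u x + δ • gradient w x := by
  apply ext_inner_right ℝ
  intro v
  have h1 : HasFDerivAt u (fderiv ℝ u x) x := (hu.differentiable (by norm_num) x).hasFDerivAt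
  have h2 : HasFDerivAt w (fderiv ℝ w x) x := (hw.differentiable (by norm_num) x).hasFDerivAt
  have h3 : HasFDerivAt (fun x => u x + δ * w x) (fderiv ℝ u x + δ • fderiv ℝ w x) x :=
    h1.add (h2.const_mul δ)
  rw [grad_inner, inner_add_left, inner_smul_left, grad_inner, grad_inner, h3.fderiv]
  simp

/-- the pointwise radial inequality -/
lemma rad_pt {f : E3 → ℝ} (ha : 0 < a) (hl : 0 < l) (x : E3) :
    fderiv ℝ f x (gradient (fun x : E3 => gg a l ‖x‖) x) - gg a l ‖x‖ * ‖fderiv ℝ f x‖ ^ 2 ≤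
      fderiv ℝ f x x * kk a ‖x‖ + Rem a l ‖x‖ := by
  rw [rad_grad ha (gg_prof ha hl).cd (gg_prof ha hl).lo, map_smul, smul_eq_mul]
  by_cases hx0 : x = 0
  · subst hx0
    simp [(gg_prof ha hl).lo 0 ha.le, Rem_lo ha ha]
  · have hr : 0 < ‖x‖ := norm_pos_iff.mpr hx0
    set p := fderiv ℝ f x x / ‖x‖ with hp
    have h1 : fderiv ℝ f x x = p * ‖x‖ := by rw [hp]; field_simp
    have h2 : p ^ 2 ≤ ‖fderiv ℝ f x‖ ^ 2 := by
      have h3 := ContinuousLinearMap.le_opNorm (fderiv ℝ f x) x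
      have h4 : ‖p‖ ≤ ‖fderiv ℝ f x‖ := by
        rw [hp, norm_div, norm_norm, div_le_iff₀ hr]
        exact h3
      rw [← sq_abs p]
      exact pow_le_pow_left₀ (abs_nonneg _) h4 2
    have h5 := alg_ineq (l := l) ha hl hr p
    have h6 := mul_le_mul_of_nonneg_left h2 (gg_nn (l := l) ha ‖x‖)
    rw [h1]
    have e1 : deriv (gg a l) ‖x‖ / ‖x‖ * (p * ‖x‖) = deriv (gg a l) ‖x‖ * p := by field_simp
    have e2 : p * ‖x‖ * kk a ‖x‖ = p * (hh a ‖x‖ / ‖x‖ ^ 2) := by unfold kk; field_simp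
    rw [e1, e2]
    linarith

/-- the integrated inequality -/
theorem core {B : ℝ} (hB : ∀ s, dS s ≤ B) (ha : 0 < a) (hl : 0 < l) {f η : E3 → ℝ}
    (hf : ContDiff ℝ 1 f) (hη : ContDiff ℝ 1 η) (hηc : HasCompactSupport η) {δ : ℝ} (hδ : 0 ≤ δ) :
    ∫ x, (fderiv ℝ f x (gradient (fun x : E3 => gg a l ‖x‖ + δ * η x ^ 2) x) -
      (gg a l ‖x‖ + δ * η x ^ 2) * ‖fderiv ℝ f x‖ ^ 2) ≤
      ((∫ x, f x * W (2 * a) ‖x‖) - ∫ x, f x * W a ‖x‖) +
        4 * Real.pi * (Real.log 2 + 3 * B ^ 2 / l) + δ * ∫ x, 2 * ‖gradient η x‖ ^ 2 := by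
  have hθ : ContDiff ℝ 1 (fun x : E3 => gg a l ‖x‖) := rad_cd ha (gg_prof ha hl).cd (gg_prof ha hl).lo
  have hη2 : Tst (fun x => η x ^ 2) := tst_sq hη hηc
  have hfd : Continuous (fderiv ℝ f) := hf.continuous_fderiv (by norm_num)
  have hfx : Continuous (fun x => fderiv ℝ f x x) := hfd.clm_apply continuous_id
  have i1 : Integrable (fun x => fderiv ℝ f x x * kk a ‖x‖) :=
    cc_mul (b := 4 * a) hfx (kk_prof ha).cd.continuous fun s hs => (kk_prof ha).hi s hs.le
  have i2 : Integrable (fun x : E3 => Rem a l ‖x‖) :=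
    cc_int (b := (4 + l) * a) (Rem_cont ha hl) fun s hs => Rem_hi ha hl hs
  have i3 : Integrable (fun x => 2 * ‖gradient η x‖ ^ 2) :=
    ((grad_cont hη).norm.pow 2 |>.const_mul 2).integrable_of_hasCompactSupport (by
      obtain ⟨K, hK, hz⟩ := exists_compact_iff_hasCompactSupport.mpr (grad_cs hηc)
      refine exists_compact_iff_hasCompactSupport.mp ⟨K, hK, fun x hx => ?_⟩
      show 2 * ‖gradient η x‖ ^ 2 = 0
      rw [hz x hx]; simp)
  have hsum : Tst (fun x : E3 => gg a l ‖x‖ + δ * η x ^ 2) := by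
    refine ⟨hθ.add (contDiff_const.mul hη2.cd), ?_, fun x => ?_⟩
    · exact (rad_cs (gg_prof ha hl).hi).add (hη2.cs.mul_left (f := fun _ => δ))
    · exact add_nonneg (gg_nn ha _) (mul_nonneg hδ (sq_nonneg _))
  have i4 : Integrable (fun x => (fderiv ℝ f x (gradient (fun x : E3 => gg a l ‖x‖ + δ * η x ^ 2) x) -
      (gg a l ‖x‖ + δ * η x ^ 2) * ‖fderiv ℝ f x‖ ^ 2)) := by
    refine Integrable.sub ?_ ?_
    · refine (hfd.clm_apply (grad_cont hsum.cd)).integrable_of_hasCompactSupport ?_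
      obtain ⟨K, hK, hz⟩ := exists_compact_iff_hasCompactSupport.mpr (grad_cs hsum.cs)
      refine exists_compact_iff_hasCompactSupport.mp ⟨K, hK, fun x hx => ?_⟩
      rw [hz x hx, map_zero]
    · exact (hsum.cont.mul (hfd.norm.pow 2)).integrable_of_hasCompactSupport hsum.cs.mul_right
  have h1 : ∫ x, (fderiv ℝ f x (gradient (fun x : E3 => gg a l ‖x‖ + δ * η x ^ 2) x) -
      (gg a l ‖x‖ + δ * η x ^ 2) * ‖fderiv ℝ f x‖ ^ 2) ≤
      ∫ x, ((fderiv ℝ f x x * kk a ‖x‖ + Rem a l ‖x‖) + δ * (2 * ‖gradient η x‖ ^ 2)) := by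
    refine integral_mono i4 ((i1.add i2).add (i3.const_mul δ)) fun x => ?_
    have h2 := rad_pt (f := f) (l := l) ha hl x
    have h3 := J_sq_le (f := f) hη x
    have h4 : 0 ≤ 1 / 2 * (η x ^ 2 * ‖fderiv ℝ f x‖ ^ 2) := by positivity
    have h5 := mul_le_mul_of_nonneg_left h3 hδ
    simp only
    rw [grad_add_mul hθ hη2.cd, map_add, map_smul, smul_eq_mul]
    have h6 := mul_nonneg hδ h4
    nlinarith
  have h8 : ∫ x, ((fderiv ℝ f x x * kk a ‖x‖ + Rem a l ‖x‖) + δ * (2 * ‖gradient η x‖ ^ 2)) =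
      ((∫ x, fderiv ℝ f x x * kk a ‖x‖) + ∫ x : E3, Rem a l ‖x‖) +
        δ * ∫ x, 2 * ‖gradient η x‖ ^ 2 := by
    rw [← integral_const_mul, ← integral_add i1 i2]
    exact integral_add (i1.add i2) (i3.const_mul δ)
  rw [h8, ibp_rad hf ha] at h1
  have h7 := Rem_int hB ha hl
  linarith

end Pool.Agent.X91.TW
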