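import Pool.Agent.X91.TW.Shell3

/-!
# Passing to the limit in the shell inequality
-/

set_option autoImplicit false

open MeasureTheory Set Filter Topology Metric
open scoped RealInnerProductSpace ContDiff

namespace Pool.Agent.X91.TW

open Pool.Agent.Helper436.TFW (Adm Kin Pot TFe Mass Dir)
open Pool.Agent.Helper557.TFP (Nice pot nice_bound TF_E1_meas TF_E1_bdd TF_E1_int TF_E1_dbl
  TF_E1_symm TF_E1_potsub)

variable {k : ℕ} {z : Fin k → ℝ} {R : Fin k → E3} {ρ : E3 → ℝ} {v : ℕ → E3 → ℝ}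
variable {a l b : ℝ}

lemma log_diff {A A' m : ℝ} (hm : 0 < m) (hA : m ≤ A) (hA' : m ≤ A') :
    |Real.log A - Real.log A'| ≤ |A - A'| / m := by
  have key : ∀ A A' : ℝ, m ≤ A → m ≤ A' → Real.log A - Real.log A' ≤ |A - A'| / m := by
    intro A A' h1 h2
    have p1 : 0 < A := lt_of_lt_of_le hm h1
    have p2 : 0 < A' := lt_of_lt_of_le hm h2
    rw [← Real.log_div p1.ne' p2.ne']
    have h3 := Real.log_le_sub_one_of_pos (div_pos p1 p2)
    have h4 : A / A' - 1 = (A - A') / A' := by field_simp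
    have h5 : (A - A') / A' ≤ |A - A'| / A' := div_le_div_of_nonneg_right (le_abs_self _) p2.le
    have h6 : |A - A'| / A' ≤ |A - A'| / m := div_le_div_of_nonneg_left (abs_nonneg _) hm h2
    linarith
  rw [abs_le]
  refine ⟨?_, key A A' hA hA'⟩
  have := key A' A hA' hA
  rw [abs_sub_comm] at this
  linarith

/-- comparison of averages of logarithms -/
lemma avg {B : ℝ} (hB : ∀ s, dS s ≤ B) (hb : 0 < b) (hρ0 : ∀ x, 0 ≤ ρ x) (hρm : Measurable ρ)
    (hρi : Integrable ρ) {u θ : E3 → ℝ} (hu : Adm u) (hθ : Tst θ) {δ κ m : ℝ} (hδ : 0 ≤ δ)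
    (hκ : 0 < κ) (hm : 0 < m) (hlow : ∀ x, b < ‖x‖ → ‖x‖ < 2 * b → m ≤ δ * θ x) :
    Integrable (fun x => 1 / 2 * Real.log (ρ x + δ * θ x) * W b ‖x‖) ∧
    |(∫ x, ff u θ δ κ x * W b ‖x‖) - ∫ x, 1 / 2 * Real.log (ρ x + δ * θ x) * W b ‖x‖| ≤
      1 / (2 * m) * (B / b ^ 3 * (∫ x, |u x ^ 2 - ρ x|) + κ ^ 2 * (4 * Real.pi)) := by
  have hfc : Continuous (ff u θ δ κ) := (ff_cd hu hθ hδ hκ).continuous
  have i1 : Integrable (fun x => ff u θ δ κ x * W b ‖x‖) :=
    cc_mul (b := 2 * b) hfc (W_cont hb) fun s hs => W_hi hb hs.le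
  have iW : Integrable (fun x : E3 => W b ‖x‖) :=
    cc_int (b := 2 * b) (W_cont hb) fun s hs => W_hi hb hs.le
  have iD : Integrable (fun x => |u x ^ 2 - ρ x|) := (hu.sq_int.sub hρi).abs
  have hm1 : AEStronglyMeasurable (fun x => 1 / 2 * Real.log (ρ x + δ * θ x) * W b ‖x‖) volume :=
    (((Real.measurable_log.comp (hρm.add (hθ.cont.measurable.const_mul δ))).const_mul
      (1 / 2)).mul (((W_cont hb).comp continuous_norm).measurable)).aestronglyMeasurable
  have iR : Integrable (fun x => 1 / (2 * m) * (B / b ^ 3 * |u x ^ 2 - ρ x| + κ ^ 2 * W b ‖x‖)) :=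
    ((iD.const_mul _).add (iW.const_mul _)).const_mul _
  have hpt : ∀ x, |ff u θ δ κ x * W b ‖x‖ - 1 / 2 * Real.log (ρ x + δ * θ x) * W b ‖x‖| ≤
      1 / (2 * m) * (B / b ^ 3 * |u x ^ 2 - ρ x| + κ ^ 2 * W b ‖x‖) := by
    intro x
    have hW := W_nn hb ‖x‖
    have hWB := W_le hB hb ‖x‖
    by_cases h1 : ‖x‖ ≤ b
    · rw [W_lo hb h1]
      simp only [mul_zero, sub_zero, abs_zero, add_zero]
      have : 0 ≤ B / b ^ 3 := by
        have := (dS_nn 0).trans (hB 0)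
        positivity
      positivity
    by_cases h2 : 2 * b ≤ ‖x‖
    · rw [W_hi hb h2]
      simp only [mul_zero, sub_zero, abs_zero, add_zero]
      have : 0 ≤ B / b ^ 3 := by
        have := (dS_nn 0).trans (hB 0)
        positivity
      positivity
    push Not at h1 h2
    have h3 := hlow x h1 h2
    have h4 : |Real.log (RR u θ δ κ x) - Real.log (ρ x + δ * θ x)| ≤
        |RR u θ δ κ x - (ρ x + δ * θ x)| / m := by
      refine log_diff hm ?_ ?_
      · unfold RR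
        nlinarith [sq_nonneg (u x), sq_nonneg κ]
      · linarith [hρ0 x]
    have h5 : |RR u θ δ κ x - (ρ x + δ * θ x)| ≤ |u x ^ 2 - ρ x| + κ ^ 2 := by
      have : RR u θ δ κ x - (ρ x + δ * θ x) = (u x ^ 2 - ρ x) + κ ^ 2 := by unfold RR; ring
      rw [this]
      refine (abs_add_le _ _).trans ?_
      rw [abs_of_nonneg (sq_nonneg κ)]
    have e1 : ff u θ δ κ x * W b ‖x‖ - 1 / 2 * Real.log (ρ x + δ * θ x) * W b ‖x‖ =
        1 / 2 * W b ‖x‖ * (Real.log (RR u θ δ κ x) - Real.log (ρ x + δ * θ x)) := by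
      unfold ff; ring
    rw [e1, abs_mul, abs_of_nonneg (by positivity : 0 ≤ 1 / 2 * W b ‖x‖)]
    calc 1 / 2 * W b ‖x‖ * |Real.log (RR u θ δ κ x) - Real.log (ρ x + δ * θ x)|
        ≤ 1 / 2 * W b ‖x‖ * ((|u x ^ 2 - ρ x| + κ ^ 2) / m) := by
          refine mul_le_mul_of_nonneg_left (h4.trans ?_) (by positivity)
          exact div_le_div_of_nonneg_right h5 hm.le
      _ = 1 / (2 * m) * (W b ‖x‖ * |u x ^ 2 - ρ x| + κ ^ 2 * W b ‖x‖) := by field_simp
      _ ≤ _ := by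
          refine mul_le_mul_of_nonneg_left ?_ (by positivity)
          have := mul_le_mul_of_nonneg_right hWB (abs_nonneg (u x ^ 2 - ρ x))
          linarith
  have i2 : Integrable (fun x => ff u θ δ κ x * W b ‖x‖ -
      1 / 2 * Real.log (ρ x + δ * θ x) * W b ‖x‖) :=
    iR.mono' (i1.aestronglyMeasurable.sub hm1) (ae_of_all _ fun x => by
      rw [Real.norm_eq_abs]; exact hpt x)
  have i3 : Integrable (fun x => 1 / 2 * Real.log (ρ x + δ * θ x) * W b ‖x‖) := by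
    have := i1.sub i2
    refine this.congr (ae_of_all _ fun x => ?_)
    simp
  refine ⟨i3, ?_⟩
  rw [← integral_sub i1 i3]
  refine (abs_integral_le_integral_abs).trans ?_
  refine (integral_mono i2.abs iR hpt).trans (le_of_eq ?_)
  rw [integral_const_mul, integral_add (iD.const_mul _) (iW.const_mul _), integral_const_mul,
    integral_const_mul, W_mass hb]

/-- `n → ∞` in the shell inequality -/
theorem stage1 (S : Seq z R ρ v) (hz : ∀ i, 0 ≤ z i) (hρ0 : ∀ x, 0 ≤ ρ x) (hρm : Measurable ρ)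
    (hρi : Integrable ρ) {B : ℝ} (hB : ∀ s, dS s ≤ B) (ha : 0 < a) (hl : 0 < l) {c : ℝ}
    (hc : 0 < c) (hR : ∀ i, ‖R i‖ ≤ a) :
    ∃ (χ : E3 → ℝ) (C δ0 : ℝ), 0 < δ0 ∧ δ0 ≤ 1 ∧ Tst χ ∧ (∀ x, χ x ≤ 1) ∧
      (∀ x, ‖x‖ ≤ 4 * a → χ x = 1) ∧ ∀ δ, 0 < δ → δ ≤ δ0 →
      0 ≤ ((∫ x, 1 / 2 * Real.log (ρ x + δ * (gg a l ‖x‖ + δ * χ x)) * W (2 * a) ‖x‖) -
        ∫ x, 1 / 2 * Real.log (ρ x + δ * (gg a l ‖x‖ + δ * χ x)) * W a ‖x‖) +
        4 * Real.pi * (Real.log 2 + 3 * B ^ 2 / l) +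
        6 / 5 * (c ^ 2 / 3 * (∫ x : E3, gg a l ‖x‖ ^ 3) +
          2 / (3 * c) * ∫ x, (ball (0 : E3) a)ᶜ.indicator ρ x) + δ * C := by
  let η : ContDiffBump (0 : E3) := ⟨4 * a, 4 * a + 1, by positivity, by linarith⟩
  have hη1 : ∀ x : E3, ‖x‖ ≤ 4 * a → (η : E3 → ℝ) x = 1 := fun x hx =>
    η.one_of_mem_closedBall (by rw [mem_closedBall_zero_iff]; exact hx)
  have hηd : ContDiff ℝ 1 (η : E3 → ℝ) := η.contDiff
  set χ : E3 → ℝ := fun x => η x ^ 2 with hχd
  have hχ : Tst χ := tst_sq hηd η.hasCompactSupport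
  set θ : E3 → ℝ := fun x => gg a l ‖x‖ with hθd
  have hθcd : ContDiff ℝ 1 θ := rad_cd ha (gg_prof ha hl).cd (gg_prof ha hl).lo
  have hθ : Tst θ := ⟨hθcd, rad_cs (gg_prof ha hl).hi, fun x => gg_nn ha _⟩
  obtain ⟨Bθ, hBθ⟩ := TF_E1_bdd θ hθ.nice
  obtain ⟨Bχ, hBχ⟩ := TF_E1_bdd χ hχ.nice
  have hBθ0 : 0 ≤ Bθ := (abs_nonneg _).trans (hBθ 0)
  have hBχ0 : 0 ≤ Bχ := (abs_nonneg _).trans (hBχ 0)
  set Z := ∑ i, z i with hZ
  have hZ0 : 0 ≤ Z := Finset.sum_nonneg fun i _ => hz i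
  set G := ∫ x, 2 * ‖gradient (η : E3 → ℝ) x‖ ^ 2 with hG
  have hG0 : 0 ≤ G := integral_nonneg fun x => by positivity
  set I := (∫ x, θ x) + ∫ x, χ x with hI
  have hIθ0 : 0 ≤ ∫ x, θ x := integral_nonneg hθ.nn
  have hIχ0 : 0 ≤ ∫ x, χ x := integral_nonneg hχ.nn
  have hI0 : 0 ≤ I := add_nonneg hIθ0 hIχ0
  have cube : ∀ w : E3 → ℝ, Tst w → Integrable (fun x => w x ^ 3) := fun w hw =>
    (hw.cont.pow 3).integrable_of_hasCompactSupport (by
      obtain ⟨K, hK, hz⟩ := exists_compact_iff_hasCompactSupport.mpr hw.cs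
      refine exists_compact_iff_hasCompactSupport.mp ⟨K, hK, fun x hx => ?_⟩
      show w x ^ 3 = 0
      rw [hz x hx]; norm_num)
  set J3 := ∫ x, χ x ^ 3 with hJ3
  have hJ30 : 0 ≤ J3 := integral_nonneg fun x => pow_nonneg (hχ.nn x) 3
  set T := ∫ x, (ball (0 : E3) a)ᶜ.indicator ρ x with hT
  have iT : Integrable (fun x => (ball (0 : E3) a)ᶜ.indicator ρ x) :=
    hρi.indicator measurableSet_ball.compl
  refine ⟨χ, G + 6 / 5 * (2 / (3 * c) * I + 1 / 3 * J3 + 2 / 3 * (Z + I)) + Z * Bχ +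
    1 / 2 * ((Bθ + Bχ) * I), min 1 (1 / (I + 1)), lt_min one_pos (by positivity),
    min_le_left _ _, hχ, fun x => ?_, fun x hx => ?_, ?_⟩
  · exact pow_le_one₀ η.nonneg η.le_one
  · simp only [hχd]; rw [hη1 x hx]; norm_num
  intro δ hδ hδδ
  have hδ1 : δ ≤ 1 := hδδ.trans (min_le_left _ _)
  have h4l : a < (4 + l) * a := by have := mul_pos hl ha; linarith
  set θδ : E3 → ℝ := fun x => gg a l ‖x‖ + δ * η x ^ 2 with hθδd
  have hθδe : ∀ x, θδ x = θ x + δ * χ x := fun x => rfl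
  have hθδ : Tst θδ := by
    refine ⟨hθ.cd.add (contDiff_const.mul hχ.cd), ?_, fun x => ?_⟩
    · exact hθ.cs.add (hχ.cs.mul_left (f := fun _ => δ))
    · exact add_nonneg (hθ.nn _) (mul_nonneg hδ.le (hχ.nn _))
  have hIδ : ∫ x, θδ x ≤ I := by
    have : ∫ x, θδ x = (∫ x, θ x) + δ * ∫ x, χ x := by
      rw [← integral_const_mul]
      exact integral_add hθ.int (hχ.int.const_mul δ)
    rw [this, hI]
    have := mul_le_of_le_one_left hIχ0 hδ1
    linarith
  have hIδ0 : 0 ≤ ∫ x, θδ x := integral_nonneg hθδ.nn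
  have hδI : δ * ∫ x, θδ x ≤ 1 := by
    have h1 : δ ≤ 1 / (I + 1) := hδδ.trans (min_le_right _ _)
    calc δ * ∫ x, θδ x ≤ 1 / (I + 1) * I := mul_le_mul h1 hIδ hIδ0 (by positivity)
      _ ≤ 1 := by rw [div_mul_eq_mul_div, div_le_one (by positivity)]; linarith
  -- lower bound on the shells
  have hm : (0 : ℝ) < δ ^ 2 := by positivity
  have hlow : ∀ x : E3, ‖x‖ ≤ 4 * a → δ ^ 2 ≤ δ * θδ x := by
    intro x hx
    have h1 : χ x = 1 := by simp only [hχd]; rw [hη1 x hx]; norm_num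
    rw [hθδe, h1]
    have := mul_nonneg hδ.le (hθ.nn x)
    nlinarith
  set X1 := ∫ x, 1 / 2 * Real.log (ρ x + δ * θδ x) * W (2 * a) ‖x‖ with hX1
  set X0 := ∫ x, 1 / 2 * Real.log (ρ x + δ * θδ x) * W a ‖x‖ with hX0
  set A3 := ∫ x, θ x ^ 3 with hA3
  have hB0 : 0 ≤ B := (dS_nn 0).trans (hB 0)
  set K := 1 / (2 * δ ^ 2) * (B / (2 * a) ^ 3 + 4 * Real.pi) +
    1 / (2 * δ ^ 2) * (B / a ^ 3 + 4 * Real.pi) + 6 / 5 * (2 / (3 * c)) + 1 with hK
  have hK0 : 0 < K := by positivity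
  set P := pot θ 0 with hP
  -- the main estimate
  have main : ∀ ε : ℝ, 0 < ε → ε < 1 → 0 ≤ (X1 - X0) +
      4 * Real.pi * (Real.log 2 + 3 * B ^ 2 / l) +
        6 / 5 * (c ^ 2 / 3 * A3 + 2 / (3 * c) * T) + δ * (G + 6 / 5 * (2 / (3 * c) * I +
        1 / 3 * J3 + 2 / 3 * (Z + I)) + Z * Bχ + 1 / 2 * ((Bθ + Bχ) * I)) + K * ε := by
    intro ε hε hε1
    have hl1 := S.l1.eventually (gt_mem_nhds hε)
    obtain ⟨n, ⟨κ, hκ, hκε, hmain⟩, hn⟩ := ((S.var θδ hθδ δ hδ hδI ε hε).and hl1).exists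
    set D := ∫ x, |v n x ^ 2 - ρ x| with hD
    have hD0 : 0 ≤ D := integral_nonneg fun x => abs_nonneg _
    have hκ2 : κ ^ 2 ≤ ε := by
      rw [sq]
      exact (mul_le_mul_of_nonneg_left (hκε.trans hε1).le hκ.le).trans (by linarith)
    have iv : Integrable (fun x => v n x ^ 2) := (S.adm n).sq_int
    have iD : Integrable (fun x => |v n x ^ 2 - ρ x|) := (iv.sub hρi).abs
    have hmass : ∫ x, v n x ^ 2 ≤ Z := S.mass n
    -- kinetic part
    have h1 := core (l := l) hB ha hl (ff_cd (S.adm n) hθδ hδ.le hκ) hηd η.hasCompactSupport hδ.le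
    have h2 := (avg hB (b := 2 * a) (by positivity) hρ0 hρm hρi (S.adm n) hθδ hδ.le hκ hm
      (fun x _ h => hlow x (by linarith))).2
    have h3 := (avg hB (b := a) ha hρ0 hρm hρi (S.adm n) hθδ hδ.le hκ hm
      (fun x _ h => hlow x (by linarith))).2
    rw [← hX1, ← hD] at h2
    rw [← hX0, ← hD] at h3
    have h2' := (abs_le.mp h2).2
    have h3' := (abs_le.mp h3).1
    have h2'' : 1 / (2 * δ ^ 2) * (B / (2 * a) ^ 3 * D + κ ^ 2 * (4 * Real.pi)) ≤
        1 / (2 * δ ^ 2) * (B / (2 * a) ^ 3 + 4 * Real.pi) * ε := by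
      rw [mul_assoc]
      refine mul_le_mul_of_nonneg_left ?_ (by positivity)
      have e1 : B / (2 * a) ^ 3 * D ≤ B / (2 * a) ^ 3 * ε :=
        mul_le_mul_of_nonneg_left hn.le (by positivity)
      have e2 : κ ^ 2 * (4 * Real.pi) ≤ ε * (4 * Real.pi) :=
        mul_le_mul_of_nonneg_right hκ2 (by positivity)
      linarith
    have h3'' : 1 / (2 * δ ^ 2) * (B / a ^ 3 * D + κ ^ 2 * (4 * Real.pi)) ≤
        1 / (2 * δ ^ 2) * (B / a ^ 3 + 4 * Real.pi) * ε := by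
      rw [mul_assoc]
      refine mul_le_mul_of_nonneg_left ?_ (by positivity)
      have e1 : B / a ^ 3 * D ≤ B / a ^ 3 * ε :=
        mul_le_mul_of_nonneg_left hn.le (by positivity)
      have e2 : κ ^ 2 * (4 * Real.pi) ≤ ε * (4 * Real.pi) :=
        mul_le_mul_of_nonneg_right hκ2 (by positivity)
      linarith
    -- Thomas-Fermi part
    have h4 : ∫ x, θδ x * (v n x ^ 2 + δ * θδ x) ^ ((2 : ℝ) / 3) ≤ c ^ 2 / 3 * A3 +
        2 / (3 * c) * (T + D + δ * I) + δ * (1 / 3 * J3 + 2 / 3 * (Z + I)) := by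
      have i5 : Integrable (fun x => ((c ^ 2 / 3 * θ x ^ 3 +
          2 / (3 * c) * (((ball (0 : E3) a)ᶜ.indicator ρ x + |v n x ^ 2 - ρ x|) + δ * θδ x)) +
          δ * (1 / 3 * χ x ^ 3 + 2 / 3 * (v n x ^ 2 + δ * θδ x)))) :=
        (((cube θ hθ).const_mul _).add (((iT.add iD).add (hθδ.int.const_mul δ)).const_mul _)).add
          ((((cube χ hχ).const_mul _).add ((iv.add (hθδ.int.const_mul δ)).const_mul _)).const_mul δ)
      have h5 : ∫ x, θδ x * (v n x ^ 2 + δ * θδ x) ^ ((2 : ℝ) / 3) ≤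
          ∫ x, ((c ^ 2 / 3 * θ x ^ 3 +
          2 / (3 * c) * (((ball (0 : E3) a)ᶜ.indicator ρ x + |v n x ^ 2 - ρ x|) + δ * θδ x)) +
          δ * (1 / 3 * χ x ^ 3 + 2 / 3 * (v n x ^ 2 + δ * θδ x))) := by
        refine integral_mono (tfint (S.adm n) hθδ hδ.le) i5 fun x => ?_
        simp only
        have hX : 0 ≤ v n x ^ 2 + δ * θδ x := add_nonneg (sq_nonneg _) (mul_nonneg hδ.le (hθδ.nn x))
        have y1 := young23 hc (hθ.nn x) hX
        have y2 := young23 (c := 1) one_pos (hχ.nn x) hX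
        have y3 := mul_le_mul_of_nonneg_left y2 hδ.le
        have e1 : θδ x * (v n x ^ 2 + δ * θδ x) ^ ((2 : ℝ) / 3) =
            θ x * (v n x ^ 2 + δ * θδ x) ^ ((2 : ℝ) / 3) +
            δ * (χ x * (v n x ^ 2 + δ * θδ x) ^ ((2 : ℝ) / 3)) := by
          rw [hθδe]; ring
        have hc2 : 0 ≤ 2 / (3 * c) := by positivity
        have y4 : θ x * (v n x ^ 2 + δ * θδ x) ^ ((2 : ℝ) / 3) ≤ c ^ 2 / 3 * θ x ^ 3 +
            2 / (3 * c) * (((ball (0 : E3) a)ᶜ.indicator ρ x + |v n x ^ 2 - ρ x|) + δ * θδ x) := by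
          by_cases hx : x ∈ ball (0 : E3) a
          · have hx' : ‖x‖ ≤ a := (mem_ball_zero_iff.mp hx).le
            have e2 : θ x = 0 := (gg_prof ha hl).lo _ hx'
            rw [e2, zero_mul]
            have e3 : 0 ≤ (ball (0 : E3) a)ᶜ.indicator ρ x := indicator_nonneg (fun y _ => hρ0 y) x
            have e4 : 0 ≤ δ * θδ x := mul_nonneg hδ.le (hθδ.nn x)
            have e5 := abs_nonneg (v n x ^ 2 - ρ x)
            have : 0 ≤ 2 / (3 * c) * (((ball (0 : E3) a)ᶜ.indicator ρ x + |v n x ^ 2 - ρ x|) +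
              δ * θδ x) := mul_nonneg hc2 (by linarith)
            linarith
          · rw [indicator_of_mem (by exact hx)]
            refine y1.trans ?_
            have e5 := le_abs_self (v n x ^ 2 - ρ x)
            have := mul_le_mul_of_nonneg_left
              (show v n x ^ 2 + δ * θδ x ≤ (ρ x + |v n x ^ 2 - ρ x|) + δ * θδ x by linarith) hc2
            linarith
        rw [e1]
        norm_num at y3
        linarith
      have h6 : ∫ x, ((c ^ 2 / 3 * θ x ^ 3 +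
          2 / (3 * c) * (((ball (0 : E3) a)ᶜ.indicator ρ x + |v n x ^ 2 - ρ x|) + δ * θδ x)) +
          δ * (1 / 3 * χ x ^ 3 + 2 / 3 * (v n x ^ 2 + δ * θδ x))) =
          (c ^ 2 / 3 * A3 + 2 / (3 * c) * ((T + D) + δ * ∫ x, θδ x)) +
          δ * (1 / 3 * J3 + 2 / 3 * ((∫ x, v n x ^ 2) + δ * ∫ x, θδ x)) := by
        have a1 : ∫ x, ((ball (0 : E3) a)ᶜ.indicator ρ x + |v n x ^ 2 - ρ x|) = T + D :=
          integral_add iT iD
        have a2 : ∫ x, (((ball (0 : E3) a)ᶜ.indicator ρ x + |v n x ^ 2 - ρ x|) + δ * θδ x) =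
            (T + D) + δ * ∫ x, θδ x := by
          rw [← a1, ← integral_const_mul]
          exact integral_add (iT.add iD) (hθδ.int.const_mul δ)
        have a3 : ∫ x, (c ^ 2 / 3 * θ x ^ 3 +
            2 / (3 * c) * (((ball (0 : E3) a)ᶜ.indicator ρ x + |v n x ^ 2 - ρ x|) + δ * θδ x)) =
            c ^ 2 / 3 * A3 + 2 / (3 * c) * ((T + D) + δ * ∫ x, θδ x) := by
          rw [← a2, hA3, ← integral_const_mul, ← integral_const_mul]
          exact integral_add ((cube θ hθ).const_mul _)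
            (((iT.add iD).add (hθδ.int.const_mul δ)).const_mul _)
        have a4 : ∫ x, (v n x ^ 2 + δ * θδ x) = (∫ x, v n x ^ 2) + δ * ∫ x, θδ x := by
          rw [← integral_const_mul]
          exact integral_add iv (hθδ.int.const_mul δ)
        have a5 : ∫ x, (1 / 3 * χ x ^ 3 + 2 / 3 * (v n x ^ 2 + δ * θδ x)) =
            1 / 3 * J3 + 2 / 3 * ((∫ x, v n x ^ 2) + δ * ∫ x, θδ x) := by
          rw [← a4, hJ3, ← integral_const_mul, ← integral_const_mul]
          exact integral_add ((cube χ hχ).const_mul _) ((iv.add (hθδ.int.const_mul δ)).const_mul _)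
        rw [← a3, ← a5, ← integral_const_mul δ]
        exact integral_add
          (((cube θ hθ).const_mul _).add (((iT.add iD).add (hθδ.int.const_mul δ)).const_mul _))
          ((((cube χ hχ).const_mul _).add ((iv.add (hθδ.int.const_mul δ)).const_mul _)).const_mul δ)
      rw [h6] at h5
      have hc2 : 0 ≤ 2 / (3 * c) := by positivity
      have b1 : δ * ∫ x, θδ x ≤ δ * I := mul_le_mul_of_nonneg_left hIδ hδ.le
      have b2 : δ * I ≤ I := mul_le_of_le_one_left hI0 hδ1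
      have b3 := mul_le_mul_of_nonneg_left (show (T + D) + δ * ∫ x, θδ x ≤ T + D + δ * I by linarith) hc2
      have b4 := mul_le_mul_of_nonneg_left
        (show 1 / 3 * J3 + 2 / 3 * ((∫ x, v n x ^ 2) + δ * ∫ x, θδ x) ≤
          1 / 3 * J3 + 2 / 3 * (Z + I) by linarith) hδ.le
      linarith
    -- potentials
    have hpot : ∀ y, pot θδ y = pot θ y + δ * pot χ y := fun y => by
      have := pot_add_mul hθ.nice hχ.nice δ y
      exact this
    have hPR : ∀ i, pot θ (R i) = P := fun i =>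
      newt_in (gg a l) (gg_prof ha hl).cd ha h4l
        (gg_prof ha hl).lo (gg_prof ha hl).hi (hR i)
    have hPmax : ∀ y, pot θ y ≤ P := fun y =>
      newt_max (gg a l) (gg_prof ha hl).cd (gg_nn ha) (b := (4 + l) * a) (by positivity)
        ((gg_prof ha hl).lo 0 ha.le) (gg_prof ha hl).hi y
    have h7 : Z * P ≤ ∑ i, z i * pot θδ (R i) := by
      rw [hZ, Finset.sum_mul]
      refine Finset.sum_le_sum fun i _ => mul_le_mul_of_nonneg_left ?_ (hz i)
      rw [hpot, hPR]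
      have := mul_nonneg hδ.le (pot_nn hχ.nn (R i))
      linarith
    have hP0 : 0 ≤ P := pot_nn hθ.nn 0
    have h8 : ∫ x, v n x ^ 2 * pot θδ x ≤ Z * P + δ * (Z * Bχ) := by
      calc ∫ x, v n x ^ 2 * pot θδ x ≤ ∫ x, v n x ^ 2 * (P + δ * Bχ) := by
            refine integral_mono (TF_E1_int _ _ iv hθδ.nice) (iv.mul_const _) fun x => ?_
            simp only
            refine mul_le_mul_of_nonneg_left ?_ (sq_nonneg _)
            rw [hpot]
            have e1 := hPmax x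
            have e2 := mul_le_mul_of_nonneg_left ((le_abs_self _).trans (hBχ x)) hδ.le
            linarith
        _ = (∫ x, v n x ^ 2) * (P + δ * Bχ) := integral_mul_const _ _
        _ ≤ Z * (P + δ * Bχ) := mul_le_mul_of_nonneg_right hmass (by positivity)
        _ = _ := by ring
    have h9 : ∫ x, θδ x * pot θδ x ≤ (Bθ + Bχ) * I := by
      calc ∫ x, θδ x * pot θδ x ≤ ∫ x, θδ x * (Bθ + Bχ) := by
            refine integral_mono (TF_E1_int _ _ hθδ.int hθδ.nice) (hθδ.int.mul_const _) fun x => ?_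
            simp only
            refine mul_le_mul_of_nonneg_left ?_ (hθδ.nn x)
            rw [hpot]
            have e1 := (le_abs_self _).trans (hBθ x)
            have e2 := (le_abs_self _).trans (hBχ x)
            have e3 : 0 ≤ pot χ x := pot_nn hχ.nn x
            have e4 : δ * pot χ x ≤ pot χ x := mul_le_of_le_one_left e3 hδ1
            linarith
        _ = (∫ x, θδ x) * (Bθ + Bχ) := integral_mul_const _ _
        _ ≤ I * (Bθ + Bχ) := mul_le_mul_of_nonneg_right hIδ (by positivity)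
        _ = _ := by ring
    have h10 : δ / 2 * ∫ x, θδ x * pot θδ x ≤ δ * (1 / 2 * ((Bθ + Bχ) * I)) := by
      have := mul_le_mul_of_nonneg_left h9 (by positivity : 0 ≤ δ / 2)
      linarith
    have h11 : 2 / (3 * c) * D ≤ 2 / (3 * c) * ε := mul_le_mul_of_nonneg_left hn.le (by positivity)
    have h12 : K * ε = 1 / (2 * δ ^ 2) * (B / (2 * a) ^ 3 + 4 * Real.pi) * ε +
      1 / (2 * δ ^ 2) * (B / a ^ 3 + 4 * Real.pi) * ε + 6 / 5 * (2 / (3 * c) * ε) + ε := by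
      rw [hK]; ring
    rw [h12]
    have h1' : (∫ x, (fderiv ℝ (ff (v n) θδ δ κ) x (gradient θδ x) -
          θδ x * ‖fderiv ℝ (ff (v n) θδ δ κ) x‖ ^ 2)) ≤
        ((∫ x, ff (v n) θδ δ κ x * W (2 * a) ‖x‖) - ∫ x, ff (v n) θδ δ κ x * W a ‖x‖) +
        4 * Real.pi * (Real.log 2 + 3 * B ^ 2 / l) + δ * G := h1
    have h13 : 6 / 5 * (2 / (3 * c) * (T + D + δ * I)) = 6 / 5 * (2 / (3 * c) * T) +
      6 / 5 * (2 / (3 * c) * D) + δ * (6 / 5 * (2 / (3 * c) * I)) := by ring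
    linarith
  by_contra hcon
  push Not at hcon
  set X := (X1 - X0) + 4 * Real.pi * (Real.log 2 + 3 * B ^ 2 / l) +
        6 / 5 * (c ^ 2 / 3 * A3 + 2 / (3 * c) * T) + δ * (G + 6 / 5 * (2 / (3 * c) * I +
        1 / 3 * J3 + 2 / 3 * (Z + I)) + Z * Bχ + 1 / 2 * ((Bθ + Bχ) * I)) with hX
  have hXneg : X < 0 := hcon
  have h1 := main (min (1 / 2) (-X / (2 * K))) (lt_min (by norm_num) (by
    apply div_pos <;> linarith)) (lt_of_le_of_lt (min_le_left _ _) (by norm_num))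
  have h2 : K * min (1 / 2) (-X / (2 * K)) ≤ K * (-X / (2 * K)) :=
    mul_le_mul_of_nonneg_left (min_le_right _ _) hK0.le
  have h3 : K * (-X / (2 * K)) = -X / 2 := by field_simp
  linarith

end Pool.Agent.X91.TW
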