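import Pool.Agent.X91.TW.Base
import Pool.Agent.X91.TW.Conv

/-!
# TFW molecules: the variation inequality
-/

set_option autoImplicit false

open MeasureTheory Set Filter Topology
open scoped RealInnerProductSpace

namespace Pool.Agent.X91.TW

open Pool.Agent.Helper436.TFW (Adm Kin Pot TFe Mass Dir)
open Pool.Agent.Helper557.TFP (Nice pot nice_bound TF_E1_meas TF_E1_bdd TF_E1_int TF_E1_dbl
  TF_E1_symm TF_E1_potsub)

lemma lin4 {f g h l : E3 → ℝ} (hf : Integrable f) (hg : Integrable g) (hh : Integrable h)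
    (hl : Integrable l) (a b c : ℝ) :
    Integrable (fun x => f x + a * g x + b * h x + c * l x) ∧
    ∫ x, (f x + a * g x + b * h x + c * l x) =
      (∫ x, f x) + a * (∫ x, g x) + b * (∫ x, h x) + c * ∫ x, l x := by
  have i1 : Integrable (fun x => f x + a * g x) := hf.add (hg.const_mul a)
  have i2 : Integrable (fun x => f x + a * g x + b * h x) := i1.add (hh.const_mul b)
  refine ⟨i2.add (hl.const_mul c), ?_⟩
  rw [integral_add i2 (hl.const_mul c), integral_add i1 (hh.const_mul b),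
    integral_add hf (hg.const_mul a), integral_const_mul, integral_const_mul, integral_const_mul]

lemma nice_of_cc {g : E3 → ℝ} (hg : Continuous g) (hc : HasCompactSupport g) : Nice g := by
  refine ⟨hg.measurable, hg.integrable_of_hasCompactSupport hc, ?_⟩
  have h1 : Continuous (fun x => |g x| ^ ((5 / 3 : ℝ))) :=
    hg.abs.rpow_const (fun _ => Or.inr (by norm_num))
  apply h1.integrable_of_hasCompactSupport
  refine hc.comp_left (g := fun s : ℝ => |s| ^ ((5 / 3 : ℝ))) ?_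
  simp

lemma Tst.cont {θ : E3 → ℝ} (h : Tst θ) : Continuous θ := h.cd.continuous

lemma Tst.nice {θ : E3 → ℝ} (h : Tst θ) : Nice θ := nice_of_cc h.cont h.cs

lemma Tst.int {θ : E3 → ℝ} (h : Tst θ) : Integrable θ := h.cont.integrable_of_hasCompactSupport h.cs

lemma adm_nice {w : E3 → ℝ} (h : Adm w) : Nice (fun x => w x ^ 2) := nice_of_cc h.sq_cont h.sq_cs

lemma pot_int_of_nice {g : E3 → ℝ} (h : Nice g) (a : E3) : Integrable (fun x => g x / ‖x - a‖) := by
  obtain ⟨B, hB⟩ := nice_bound g h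
  simpa only [norm_sub_rev] using (hB a).1

lemma pot_eq (g : E3 → ℝ) (a : E3) : ∫ x, g x / ‖x - a‖ = pot g a := by
  unfold pot
  simp only [norm_sub_rev]

lemma pot_nn {g : E3 → ℝ} (h : ∀ x, 0 ≤ g x) (a : E3) : 0 ≤ pot g a :=
  integral_nonneg fun y => div_nonneg (h y) (norm_nonneg _)

lemma pot_mono {f g : E3 → ℝ} (hf : Nice f) (hg : Nice g) (h : ∀ x, f x ≤ g x) (a : E3) :
    pot f a ≤ pot g a := by
  rw [← pot_eq, ← pot_eq]
  exact integral_mono (pot_int_of_nice hf a) (pot_int_of_nice hg a)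
    fun x => div_le_div_of_nonneg_right (h x) (norm_nonneg _)

lemma pot_add_mul {f g : E3 → ℝ} (hf : Nice f) (hg : Nice g) (t : ℝ) (a : E3) :
    pot (fun x => f x + t * g x) a = pot f a + t * pot g a := by
  rw [← pot_eq, ← pot_eq, ← pot_eq, ← integral_const_mul, ← integral_add (pot_int_of_nice hf a)
    ((pot_int_of_nice hg a).const_mul t)]
  congr 1
  funext x
  ring

lemma sum_cont {w θ : E3 → ℝ} (hw : Adm w) (hθ : Tst θ) (t : ℝ) :
    Continuous (fun x => w x ^ 2 + t * θ x) := hw.sq_cont.add (continuous_const.mul hθ.cont)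

lemma sum_cs {w θ : E3 → ℝ} (hw : Adm w) (hθ : Tst θ) (t : ℝ) :
    HasCompactSupport (fun x => w x ^ 2 + t * θ x) := hw.sq_cs.add hθ.cs.mul_left

section
variable {w θ : E3 → ℝ} (hw : Adm w) (hθ : Tst θ) {t κ : ℝ} (ht : 0 ≤ t)
include hw hθ ht

lemma J_cont (hκ : 0 < κ) : Continuous (fun x => fderiv ℝ (ff w θ t κ) x (gradient θ x) -
    θ x * ‖fderiv ℝ (ff w θ t κ) x‖ ^ 2) := by
  have h1 : Continuous (fderiv ℝ (ff w θ t κ)) :=
    (ff_cd hw hθ ht hκ).continuous_fderiv (by norm_num)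
  have h2 : Continuous (gradient θ) := by
    unfold gradient
    exact (InnerProductSpace.toDual ℝ E3).symm.continuous.comp
      (hθ.cd.continuous_fderiv (by norm_num))
  exact (h1.clm_apply h2).sub (hθ.cont.mul (h1.norm.pow 2))

lemma J_int (hκ : 0 < κ) : Integrable (fun x => fderiv ℝ (ff w θ t κ) x (gradient θ x) -
    θ x * ‖fderiv ℝ (ff w θ t κ) x‖ ^ 2) := by
  apply (J_cont hw hθ ht hκ).integrable_of_hasCompactSupport
  apply HasCompactSupport.sub
  · have h : HasCompactSupport (gradient θ) := by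
      unfold gradient
      exact (hθ.cs.fderiv ℝ).comp_left (map_zero _)
    refine exists_compact_iff_hasCompactSupport.mp ?_
    obtain ⟨K, hK, hz⟩ := exists_compact_iff_hasCompactSupport.mpr h
    exact ⟨K, hK, fun x hx => by rw [hz x hx, map_zero]⟩
  · exact hθ.cs.mul_right

lemma kin_mm (hκ : 0 < κ) : Kin (mm w θ t κ) ≤ Kin w +
    t * ∫ x, (fderiv ℝ (ff w θ t κ) x (gradient θ x) - θ x * ‖fderiv ℝ (ff w θ t κ) x‖ ^ 2) := by
  unfold Kin
  rw [← integral_const_mul, ← integral_add hw.kin_int ((J_int hw hθ ht hκ).const_mul t)]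
  exact integral_mono (mm_adm hw hθ ht hκ).kin_int
    (hw.kin_int.add ((J_int hw hθ ht hκ).const_mul t)) fun x => mm_fderiv hw hθ ht hκ x

lemma tfint : Integrable (fun x => θ x * (w x ^ 2 + t * θ x) ^ ((2 : ℝ) / 3)) := by
  have h1 : Continuous (fun x => θ x * (w x ^ 2 + t * θ x) ^ ((2 : ℝ) / 3)) :=
    hθ.cont.mul ((sum_cont hw hθ t).rpow_const (fun _ => Or.inr (by norm_num)))
  exact h1.integrable_of_hasCompactSupport hθ.cs.mul_right

lemma tf_mm (hκ : 0 < κ) : TFe (mm w θ t κ) ≤ TFe w +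
    2 * t * ∫ x, θ x * (w x ^ 2 + t * θ x) ^ ((2 : ℝ) / 3) := by
  unfold TFe
  rw [← integral_const_mul, ← integral_add hw.tf_int ((tfint hw hθ ht).const_mul _)]
  refine integral_mono (mm_adm hw hθ ht hκ).tf_int
    (hw.tf_int.add ((tfint hw hθ ht).const_mul _)) fun x => ?_
  simp only
  rw [Pool.Agent.Helper436.TFW.rpow_aux, Pool.Agent.Helper436.TFW.rpow_aux]
  have h0 := mul_nonneg ht (hθ.nn x)
  have h1 : (mm w θ t κ x ^ 2) ^ ((5 : ℝ) / 3) ≤ (w x ^ 2 + t * θ x) ^ ((5 : ℝ) / 3) :=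
    Real.rpow_le_rpow (sq_nonneg _) (mm_sq_le hθ.nn ht hκ x) (by norm_num)
  have h2 := pow53_diff (sq_nonneg (w x)) (by linarith : w x ^ 2 ≤ w x ^ 2 + t * θ x)
  have h3 : 2 * (w x ^ 2 + t * θ x - w x ^ 2) * (w x ^ 2 + t * θ x) ^ ((2 : ℝ) / 3) =
      2 * t * (θ x * (w x ^ 2 + t * θ x) ^ ((2 : ℝ) / 3)) := by ring
  linarith

lemma mass_mm (hκ : 0 < κ) : Mass (mm w θ t κ) ≤ Mass w + t * ∫ x, θ x := by
  unfold Mass
  rw [← integral_const_mul, ← integral_add hw.sq_int (hθ.int.const_mul t)]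
  exact integral_mono (mm_adm hw hθ ht hκ).sq_int (hw.sq_int.add (hθ.int.const_mul t))
    fun x => mm_sq_le hθ.nn ht hκ x

lemma dir_mm (hκ : 0 < κ) : Dir (mm w θ t κ) ≤ Dir w +
    2 * t * (∫ x, w x ^ 2 * pot θ x) + t ^ 2 * ∫ x, θ x * pot θ x := by
  have hm := mm_adm hw hθ ht hκ
  set g : E3 → ℝ := fun x => w x ^ 2 + t * θ x with hg
  have hgn : Nice g := nice_of_cc (sum_cont hw hθ t) (sum_cs hw hθ t)
  have hg0 : ∀ x, 0 ≤ g x := fun x => add_nonneg (sq_nonneg _) (mul_nonneg ht (hθ.nn x))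
  have e1 : Dir (mm w θ t κ) = ∫ x, mm w θ t κ x ^ 2 * pot (fun x => mm w θ t κ x ^ 2) x := by
    unfold Dir
    exact TF_E1_dbl (fun x => mm w θ t κ x ^ 2) (fun x => mm w θ t κ x ^ 2)
  have e2 : Dir w = ∫ x, w x ^ 2 * pot (fun x => w x ^ 2) x := by
    unfold Dir
    exact TF_E1_dbl (fun x => w x ^ 2) (fun x => w x ^ 2)
  have e3 : ∫ x, mm w θ t κ x ^ 2 * pot (fun x => mm w θ t κ x ^ 2) x ≤ ∫ x, g x * pot g x := by
    refine integral_mono (TF_E1_int _ _ hm.sq_int (adm_nice hm)) (TF_E1_int _ _ hgn.2.1 hgn)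
      fun x => ?_
    exact mul_le_mul (mm_sq_le hθ.nn ht hκ x)
      (pot_mono (adm_nice hm) hgn (fun y => mm_sq_le hθ.nn ht hκ y) x)
      (pot_nn (fun y => sq_nonneg _) x) (hg0 x)
  have hwn := adm_nice hw
  have hθn := hθ.nice
  have e4 : ∫ x, g x * pot g x = (∫ x, w x ^ 2 * pot (fun x => w x ^ 2) x) +
      2 * t * (∫ x, w x ^ 2 * pot θ x) + t ^ 2 * ∫ x, θ x * pot θ x := by
    have i1 := TF_E1_int _ _ hwn.2.1 hwn
    have i2 := TF_E1_int _ _ hwn.2.1 hθn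
    have i3 := TF_E1_int _ _ hθn.2.1 hwn
    have i4 := TF_E1_int _ _ hθn.2.1 hθn
    have e5 : ∀ x, g x * pot g x = w x ^ 2 * pot (fun x => w x ^ 2) x +
        t * (w x ^ 2 * pot θ x) + t * (θ x * pot (fun x => w x ^ 2) x) +
        t ^ 2 * (θ x * pot θ x) := by
      intro x
      rw [hg, pot_add_mul hwn hθn]
      ring
    have e6 := TF_E1_symm _ _ hwn hθn
    simp only [e5]
    rw [(lin4 i1 i2 i3 i4 t t (t ^ 2)).2, ← e6]
    ring
  linarith

lemma pot_mm (a : E3) : ∃ C : ℝ, ∀ κ : ℝ, 0 < κ →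
    Pot a w + t * pot θ a - κ * C ≤ Pot a (mm w θ t κ) := by
  set S : E3 → ℝ := fun x => Real.sqrt (w x ^ 2 + t * θ x) with hS
  have hSn : Nice S := nice_of_cc (sum_cont hw hθ t).sqrt
    ((sum_cs hw hθ t).comp_left Real.sqrt_zero)
  refine ⟨2 * ∫ x, S x / ‖x - a‖, fun κ hκ => ?_⟩
  have hm := mm_adm hw hθ ht hκ
  have hmS : ∀ x, mm w θ t κ x ≤ S x := fun x => Real.le_sqrt_of_sq_le (mm_sq_le hθ.nn ht hκ x)
  have hθa := pot_int_of_nice hθ.nice a
  have hSa := pot_int_of_nice hSn a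
  have hwa := hw.pot_int a
  unfold Pot
  rw [← pot_eq θ a]
  have e1 : (∫ x, w x ^ 2 / ‖x - a‖) + t * (∫ x, θ x / ‖x - a‖) - κ * (2 * ∫ x, S x / ‖x - a‖) =
      ∫ x, (w x ^ 2 / ‖x - a‖ + t * (θ x / ‖x - a‖) + (-(2 * κ)) * (S x / ‖x - a‖) +
        0 * (S x / ‖x - a‖)) := by
    rw [(lin4 hwa hθa hSa hSa t (-(2 * κ)) 0).2]
    ring
  rw [e1]
  refine integral_mono (lin4 hwa hθa hSa hSa t (-(2 * κ)) 0).1 (hm.pot_int a) fun x => ?_
  simp only
  rw [mm_sq hθ.nn ht hκ x]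
  rcases eq_or_lt_of_le (norm_nonneg (x - a)) with h | h
  · rw [← h]; simp
  · have h1 := hmS x
    rw [le_div_iff₀ h]
    have : (w x ^ 2 / ‖x - a‖ + t * (θ x / ‖x - a‖) + (-(2 * κ)) * (S x / ‖x - a‖) +
        0 * (S x / ‖x - a‖)) * ‖x - a‖ = w x ^ 2 + t * θ x - 2 * κ * S x := by
      field_simp
      ring
    rw [this]
    nlinarith

/-- The variation inequality. -/
theorem var_ineq {k : ℕ} (z : Fin k → ℝ) (hz : ∀ i, 0 ≤ z i) (R : Fin k → E3) {ε : ℝ}
    (hε : 0 < ε) : ∃ κ : ℝ, 0 < κ ∧ κ < ε ∧ Adm (mm w θ t κ) ∧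
      Mass (mm w θ t κ) ≤ Mass w + t * ∫ x, θ x ∧
      En z R (mm w θ t κ) ≤ En z R w +
        t * (∫ x, (fderiv ℝ (ff w θ t κ) x (gradient θ x) -
          θ x * ‖fderiv ℝ (ff w θ t κ) x‖ ^ 2)) +
        6 / 5 * t * (∫ x, θ x * (w x ^ 2 + t * θ x) ^ ((2 : ℝ) / 3)) -
        t * (∑ i, z i * pot θ (R i)) + t * (∫ x, w x ^ 2 * pot θ x) +
        t ^ 2 / 2 * (∫ x, θ x * pot θ x) + ε := by
  choose C hC using fun i => pot_mm hw hθ ht (R i)
  set B : ℝ := ∑ i, z i * |C i| with hB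
  have hB0 : 0 ≤ B := Finset.sum_nonneg fun i _ => mul_nonneg (hz i) (abs_nonneg _)
  set κ : ℝ := min (ε / 2) (ε / (2 * (B + 1))) with hκ'
  have hκ : 0 < κ := lt_min (by positivity) (by positivity)
  have hκε : κ < ε := lt_of_le_of_lt (min_le_left _ _) (by linarith)
  have hκB : κ * B ≤ ε := by
    have h1 : κ ≤ ε / (2 * (B + 1)) := min_le_right _ _
    calc κ * B ≤ ε / (2 * (B + 1)) * B := mul_le_mul_of_nonneg_right h1 hB0
      _ ≤ ε := by
        rw [div_mul_eq_mul_div, div_le_iff₀ (by positivity)]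
        nlinarith
  refine ⟨κ, hκ, hκε, mm_adm hw hθ ht hκ, mass_mm hw hθ ht hκ, ?_⟩
  have h1 := kin_mm hw hθ ht hκ
  have h2 := tf_mm hw hθ ht hκ
  have h3 := dir_mm hw hθ ht hκ
  have h4 : (∑ i, z i * Pot (R i) w) + t * (∑ i, z i * pot θ (R i)) - κ * B ≤
      ∑ i, z i * Pot (R i) (mm w θ t κ) := by
    rw [hB, Finset.mul_sum, Finset.mul_sum, ← Finset.sum_add_distrib, ← Finset.sum_sub_distrib]
    refine Finset.sum_le_sum fun i _ => ?_
    have h5 := hC i κ hκ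
    have h6 : κ * C i ≤ κ * |C i| := mul_le_mul_of_nonneg_left (le_abs_self _) hκ.le
    have h7 : Pot (R i) w + t * pot θ (R i) - κ * |C i| ≤ Pot (R i) (mm w θ t κ) := by linarith
    have h8 := mul_le_mul_of_nonneg_left h7 (hz i)
    calc z i * Pot (R i) w + t * (z i * pot θ (R i)) - κ * (z i * |C i|)
        = z i * (Pot (R i) w + t * pot θ (R i) - κ * |C i|) := by ring
      _ ≤ _ := h8
  unfold En
  nlinarith

end

end Pool.Agent.X91.TW
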